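import Mathlib
import Pool.Agent.H568R2.Defs

/-!
Cryptography in the world of circuits of constant depth and polynomial size: the notions of an
efficient family of functions, of indistinguishable families of distributions, of a public-key
encryption scheme and of an oblivious transfer protocol.

Circuits are those of `DomAC0.Circuit` (`Pool.Agent.H568R2.Defs`): non-uniform, with NOT gates and
AND and OR gates of unbounded fan-in; the size is the number of gates.
-/

namespace AC0World

open DomAC0

/-- Strings of `n` bits. -/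
abbrev Str (n : ℕ) : Type := Fin n → Bool

/-- The probability that `P ω` is true, for a uniformly random `ω`. -/
noncomputable def Pr {Ω : Type} [Fintype Ω] (P : Ω → Bool) : ℝ :=
  (Fintype.card {ω : Ω // P ω = true} : ℝ) / (Fintype.card Ω : ℝ)

/-- `f k` maps strings of bits indexed by `α k` to strings of bits indexed by `β k`. The family
`f` is in AC⁰ if for some constants `d` and `e` and for all `k`, there are at most `k ^ e + e`
input bits and output bits, and every output bit of `f k` is computed by a circuit of depth at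
most `d` and size at most `k ^ e + e`. -/
def InAC0 {α β : ℕ → Type} [∀ k, Fintype (α k)] [∀ k, Fintype (β k)]
    (f : ∀ k, (α k → Bool) → (β k → Bool)) : Prop :=
  ∃ d e : ℕ, ∀ k, Fintype.card (α k) ≤ k ^ e + e ∧ Fintype.card (β k) ≤ k ^ e + e ∧
    ∀ i : β k, ∃ C : Circuit (α k), C.depth ≤ d ∧ C.size ≤ k ^ e + e ∧ ∀ x, C.eval x = f k x i

/-- `X k ω` and `Y k ω'` are random strings of bits indexed by `β k`, for uniformly random `ω`
and `ω'`. They are indistinguishable if every circuit of constant depth and polynomial size has a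
negligible advantage: for all constants `d`, `e` and `p`, all large enough `k` and all circuits
`D` of depth at most `d` and size at most `k ^ e`, the probabilities that `D` accepts the two
strings differ by at most `1 / k ^ p`. -/
def Indist {β Ω Ω' : ℕ → Type} [∀ k, Fintype (Ω k)] [∀ k, Fintype (Ω' k)]
    (X : ∀ k, Ω k → (β k → Bool)) (Y : ∀ k, Ω' k → (β k → Bool)) : Prop :=
  ∀ d e p : ℕ, ∀ᶠ k in Filter.atTop, ∀ D : Circuit (β k), D.depth ≤ d → D.size ≤ k ^ e →
    |Pr (fun ω => D.eval (X k ω)) - Pr (fun ω' => D.eval (Y k ω'))| ≤ 1 / (k : ℝ) ^ p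

/-- The algorithms of a public-key encryption scheme for messages of one bit. For each value `k`
of the security parameter: key generation uses `coinG k` random bits `r` and outputs the public
key `pub k r` and the secret key `sec k r`; the encryption of the bit `b` under the public key
`pk` with the `coinE k` random bits `s` is `enc k b pk s`; decryption of the ciphertext `c` with
the secret key `sk` gives `dec k sk c`. -/
structure PKE where
  coinG : ℕ → ℕ
  coinE : ℕ → ℕ
  lenP : ℕ → ℕ
  lenS : ℕ → ℕ
  lenC : ℕ → ℕ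
  pub : ∀ k, Str (coinG k) → Str (lenP k)
  sec : ∀ k, Str (coinG k) → Str (lenS k)
  enc : ∀ k, Bool → Str (lenP k) → Str (coinE k) → Str (lenC k)
  dec : ∀ k, Str (lenS k) → Str (lenC k) → Bool

/-- All algorithms of the scheme are in AC⁰. -/
def PKE.Efficient (S : PKE) : Prop :=
  InAC0 (fun k (x : Str (S.coinG k)) => S.pub k x) ∧
  InAC0 (fun k (x : Str (S.coinG k)) => S.sec k x) ∧
  (∀ b, InAC0 (fun k (x : Fin (S.lenP k) ⊕ Fin (S.coinE k) → Bool) =>
    S.enc k b (x ∘ Sum.inl) (x ∘ Sum.inr))) ∧
  InAC0 (fun k (x : Fin (S.lenS k) ⊕ Fin (S.lenC k) → Bool) (_ : Unit) =>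
    S.dec k (x ∘ Sum.inl) (x ∘ Sum.inr))

/-- Decryption never errs. -/
def PKE.Correct (S : PKE) : Prop :=
  ∀ k b r s, S.dec k (S.sec k r) (S.enc k b (S.pub k r) s) = b

/-- The public key together with an encryption of `b`. -/
def PKE.view (S : PKE) (b : Bool) (k : ℕ) (ω : Str (S.coinG k) × Str (S.coinE k)) :
    Fin (S.lenP k) ⊕ Fin (S.lenC k) → Bool :=
  Sum.elim (S.pub k ω.1) (S.enc k b (S.pub k ω.1) ω.2)

/-- Semantic (IND-CPA) security against circuits of constant depth and polynomial size. -/
def PKE.Secure (S : PKE) : Prop := Indist (S.view false) (S.view true)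

/-- The algorithms of a two-message protocol for the oblivious transfer of one of two bits. For
each value `k` of the security parameter: the receiver, with choice bit `c` and `coinR k` random
bits `r`, sends `fst k c r`; the sender, with inputs `b₀`, `b₁` and `coinS k` random bits `s`,
answers the message `x` by `snd k b₀ b₁ s x`; on the answer `y` the receiver outputs
`out k c r y`. -/
structure OT where
  coinR : ℕ → ℕ
  coinS : ℕ → ℕ
  lenX : ℕ → ℕ
  lenY : ℕ → ℕ
  fst : ∀ k, Bool → Str (coinR k) → Str (lenX k)
  snd : ∀ k, Bool → Bool → Str (coinS k) → Str (lenX k) → Str (lenY k)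
  out : ∀ k, Bool → Str (coinR k) → Str (lenY k) → Bool

/-- Both parties are in AC⁰. -/
def OT.Efficient (S : OT) : Prop :=
  (∀ c, InAC0 (fun k (x : Str (S.coinR k)) => S.fst k c x)) ∧
  (∀ b₀ b₁, InAC0 (fun k (x : Fin (S.coinS k) ⊕ Fin (S.lenX k) → Bool) =>
    S.snd k b₀ b₁ (x ∘ Sum.inl) (x ∘ Sum.inr))) ∧
  (∀ c, InAC0 (fun k (x : Fin (S.coinR k) ⊕ Fin (S.lenY k) → Bool) (_ : Unit) =>
    S.out k c (x ∘ Sum.inl) (x ∘ Sum.inr)))

/-- The receiver always outputs `b_c`. -/
def OT.Correct (S : OT) : Prop :=
  ∀ k c b₀ b₁ r s, S.out k c r (S.snd k b₀ b₁ s (S.fst k c r)) = if c then b₁ else b₀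

/-- The view of the sender: its random bits and the receiver's message. -/
def OT.senderView (S : OT) (c : Bool) (k : ℕ) (ω : Str (S.coinR k) × Str (S.coinS k)) :
    Fin (S.coinS k) ⊕ Fin (S.lenX k) → Bool :=
  Sum.elim ω.2 (S.fst k c ω.1)

/-- The view of the receiver: its random bits and the sender's message. -/
def OT.receiverView (S : OT) (c b₀ b₁ : Bool) (k : ℕ)
    (ω : Str (S.coinR k) × Str (S.coinS k)) : Fin (S.coinR k) ⊕ Fin (S.lenY k) → Bool :=
  Sum.elim ω.1 (S.snd k b₀ b₁ ω.2 (S.fst k c ω.1))

/-- Receiver privacy: the view of the sender does not reveal the choice bit. -/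
def OT.ReceiverPrivate (S : OT) : Prop := Indist (S.senderView false) (S.senderView true)

/-- Sender privacy: the view of the receiver with choice bit `c` is simulated, up to
indistinguishability, by an AC⁰ simulator that only gets `c` and `b_c`. -/
def OT.SenderPrivate (S : OT) : Prop :=
  ∃ (coinM : ℕ → ℕ) (sim : ∀ k, Bool → Bool → Str (coinM k) →
      (Fin (S.coinR k) ⊕ Fin (S.lenY k) → Bool)),
    (∀ c b, InAC0 (fun k (x : Str (coinM k)) => sim k c b x)) ∧
    ∀ c b₀ b₁, Indist (S.receiverView c b₀ b₁) (fun k ω => sim k c (if c then b₁ else b₀) ω)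

end AC0World
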