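import Mathlib
import Pool.Agent.H568R2.Collapse

/-!
Building circuits of small depth (helper961).
-/

namespace Pool.Agent.W961

open Finset DomAC0 H568R2

variable {J : Type}

/-- `f` is computed by a circuit of size at most `s` and depth at most `d`. -/
def Cir (s d : ℕ) (f : (J → Bool) → Bool) : Prop :=
  ∃ C : Circuit J, C.size ≤ s ∧ C.depth ≤ d ∧ ∀ x, C.eval x = f x

lemma gateDepth_eq (C : Circuit J) (g : Fin C.size) :
    C.gateDepth g = (C.preds g).sup C.nodeDepth + 1 := by
  rw [Circuit.gateDepth]
  conv_rhs => rw [← Finset.sup_attach]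
  congr 1
  apply Finset.sup_congr rfl
  intro v _
  obtain ⟨v, hv⟩ := v
  cases v <;> rfl

/-- value of a gate from the values of its predecessors -/
lemma gateVal_and (C : Circuit J) (x : J → Bool) (g : Fin C.size)
    (h : C.kind g = GateKind.and) :
    C.gateVal x g = true ↔ ∀ v ∈ C.preds g, C.nodeVal x v = true := by
  rw [gateVal_eq, gfun, h]
  simp

lemma gateVal_or (C : Circuit J) (x : J → Bool) (g : Fin C.size)
    (h : C.kind g = GateKind.or) :
    C.gateVal x g = true ↔ ∃ v ∈ C.preds g, C.nodeVal x v = true := by
  rw [gateVal_eq, gfun, h]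
  simp

lemma gateVal_not (C : Circuit J) (x : J → Bool) (g : Fin C.size)
    (h : C.kind g = GateKind.not) :
    C.gateVal x g = true ↔ ∀ v ∈ C.preds g, C.nodeVal x v = false := by
  rw [gateVal_eq, gfun, h]
  simp

section Embed
variable {C C' : Circuit J}

/-- embedding of nodes -/
def nmap (e : Fin C.size → Fin C'.size) : J ⊕ Fin C.size → J ⊕ Fin C'.size := Sum.map id e

open Classical in
lemma embed_val (e : Fin C.size → Fin C'.size)
    (hk : ∀ g, C'.kind (e g) = C.kind g)
    (hp : ∀ g, C'.preds (e g) = (C.preds g).image (nmap e)) (x : J → Bool) :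
    ∀ n : ℕ, ∀ g : Fin C.size, g.val = n → C'.gateVal x (e g) = C.gateVal x g := by
  intro n
  induction n using Nat.strong_induction_on with
  | _ n ih =>
    intro g hg
    have hnode : ∀ v ∈ C.preds g, C'.nodeVal x (nmap e v) = C.nodeVal x v := by
      intro v hv
      cases v with
      | inl j => rfl
      | inr h =>
        have := C.acyclic g h hv
        exact ih h.val (by rw [← hg]; exact this) h rfl
    rw [Bool.eq_iff_iff]
    cases hkg : C.kind g with
    | and =>
      rw [gateVal_and C' x (e g) (by rw [hk, hkg]), gateVal_and C x g hkg, hp g]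
      simp only [Finset.mem_image, forall_exists_index, and_imp, forall_apply_eq_imp_iff₂]
      exact forall_congr' fun v => forall_congr' fun hv => by rw [hnode v hv]
    | or =>
      rw [gateVal_or C' x (e g) (by rw [hk, hkg]), gateVal_or C x g hkg, hp g]
      simp only [Finset.exists_mem_image]
      constructor
      · rintro ⟨v, hv, h⟩; exact ⟨v, hv, by rw [← hnode v hv]; exact h⟩
      · rintro ⟨v, hv, h⟩; exact ⟨v, hv, by rw [hnode v hv]; exact h⟩
    | not =>
      rw [gateVal_not C' x (e g) (by rw [hk, hkg]), gateVal_not C x g hkg, hp g]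
      simp only [Finset.mem_image, forall_exists_index, and_imp, forall_apply_eq_imp_iff₂]
      exact forall_congr' fun v => forall_congr' fun hv => by rw [hnode v hv]

open Classical in
lemma embed_depth (e : Fin C.size → Fin C'.size)
    (hp : ∀ g, C'.preds (e g) = (C.preds g).image (nmap e)) :
    ∀ n : ℕ, ∀ g : Fin C.size, g.val = n → C'.gateDepth (e g) = C.gateDepth g := by
  intro n
  induction n using Nat.strong_induction_on with
  | _ n ih =>
    intro g hg
    rw [gateDepth_eq, gateDepth_eq, hp g, Finset.sup_image]
    congr 1
    apply Finset.sup_congr rfl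
    intro v hv
    cases v with
    | inl j => rfl
    | inr h =>
      have := C.acyclic g h hv
      exact ih h.val (by rw [← hg]; exact this) h rfl

end Embed

section Combine
variable {n : ℕ} (C : Fin n → Circuit J)

/-- index of a gate in the combined circuit -/
def cidx (i : Fin n) (g : Fin (C i).size) : Fin (∑ i, (C i).size + 1) :=
  Fin.castSucc (finSigmaFinEquiv ⟨i, g⟩)

lemma cidx_lt (i : Fin n) {g h : Fin (C i).size} (hgh : h < g) : cidx C i h < cidx C i g := by
  unfold cidx
  rw [Fin.castSucc_lt_castSucc_iff, Fin.lt_def, finSigmaFinEquiv_apply, finSigmaFinEquiv_apply]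
  simp only [add_lt_add_iff_left]
  exact hgh

lemma cidx_inj (i : Fin n) : Function.Injective (cidx C i) := by
  intro g h hgh
  unfold cidx at hgh
  have := finSigmaFinEquiv.injective (Fin.castSucc_injective _ hgh)
  simpa using this

open Classical in
/-- The disjoint union of circuits with one more gate on top of their outputs. -/
noncomputable def combine (κ : GateKind) (hκ : κ = GateKind.not → n = 1) : Circuit J where
  size := ∑ i, (C i).size + 1
  kind := fun g => Fin.lastCases (motive := fun _ => GateKind) κ
    (fun p => (C (finSigmaFinEquiv.symm p).1).kind (finSigmaFinEquiv.symm p).2) g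
  preds := fun g => Fin.lastCases (motive := fun _ => Finset (J ⊕ Fin (∑ i, (C i).size + 1)))
    (univ.image (fun i => Sum.map id (cidx C i) (C i).output))
    (fun p => ((C (finSigmaFinEquiv.symm p).1).preds (finSigmaFinEquiv.symm p).2).image
      (Sum.map id (cidx C (finSigmaFinEquiv.symm p).1))) g
  acyclic := by
    intro g h
    refine Fin.lastCases ?_ (fun p => ?_) g
    · rw [Fin.lastCases_last]
      intro hh
      rw [Finset.mem_image] at hh
      obtain ⟨i, _, hi⟩ := hh
      cases ho : (C i).output with
      | inl j => rw [ho] at hi; cases hi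
      | inr g =>
        rw [ho] at hi
        simp only [Sum.map_inr, Sum.inr.injEq] at hi
        rw [← hi]
        exact Fin.castSucc_lt_last _
    · rw [Fin.lastCases_castSucc]
      intro hh
      rw [Finset.mem_image] at hh
      obtain ⟨v, hv, hvv⟩ := hh
      cases v with
      | inl j => cases hvv
      | inr g =>
        simp only [Sum.map_inr, Sum.inr.injEq] at hvv
        rw [← hvv]
        have h1 := (C (finSigmaFinEquiv.symm p).1).acyclic _ g hv
        have h2 := cidx_lt C (finSigmaFinEquiv.symm p).1 h1
        have h3 : cidx C (finSigmaFinEquiv.symm p).1 (finSigmaFinEquiv.symm p).2 =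
            Fin.castSucc p := by
          unfold cidx
          congr 1
          exact finSigmaFinEquiv.apply_symm_apply p
        rw [h3] at h2
        exact h2
  unary := by
    intro g
    refine Fin.lastCases ?_ (fun p => ?_) g
    · rw [Fin.lastCases_last, Fin.lastCases_last]
      intro h
      have h1 := hκ h
      subst h1
      rw [Finset.card_image_of_injective]
      · simp
      · intro a b _
        exact Subsingleton.elim a b
    · rw [Fin.lastCases_castSucc, Fin.lastCases_castSucc]
      intro h
      rw [Finset.card_image_of_injective]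
      · exact (C _).unary _ h
      · intro a b hab
        cases a with
        | inl a =>
          cases b with
          | inl b => simpa using hab
          | inr b => cases hab
        | inr a =>
          cases b with
          | inl b => cases hab
          | inr b =>
            simp only [Sum.map_inr, Sum.inr.injEq] at hab
            rw [cidx_inj C _ hab]
  output := Sum.inr (Fin.last _)

variable (κ : GateKind) (hκ : κ = GateKind.not → n = 1)

open Classical in
lemma combine_preds (i : Fin n) (g : Fin (C i).size) :
    (combine C κ hκ).preds (cidx C i g) = ((C i).preds g).image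
      (nmap (C := C i) (C' := combine C κ hκ) (cidx C i)) := by
  unfold combine cidx
  simp only [Fin.lastCases_castSucc]
  rw [Equiv.symm_apply_apply]
  rfl

lemma combine_kind (i : Fin n) (g : Fin (C i).size) :
    (combine C κ hκ).kind (cidx C i g) = (C i).kind g := by
  unfold combine cidx
  simp only [Fin.lastCases_castSucc]
  rw [Equiv.symm_apply_apply]

lemma combine_node (i : Fin n) (x : J → Bool) (v : J ⊕ Fin (C i).size) :
    (combine C κ hκ).nodeVal x (nmap (C := C i) (C' := combine C κ hκ) (cidx C i) v) =
      (C i).nodeVal x v := by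
  cases v with
  | inl j => rfl
  | inr g =>
    exact embed_val (C := C i) (C' := combine C κ hκ) (cidx C i)
      (combine_kind C κ hκ i) (combine_preds C κ hκ i) x g.val g rfl

lemma combine_nodeDepth (i : Fin n) (v : J ⊕ Fin (C i).size) :
    (combine C κ hκ).nodeDepth (nmap (C := C i) (C' := combine C κ hκ) (cidx C i) v) =
      (C i).nodeDepth v := by
  cases v with
  | inl j => rfl
  | inr g =>
    exact embed_depth (C := C i) (C' := combine C κ hκ) (cidx C i)
      (combine_preds C κ hκ i) g.val g rfl

/-- the top gate -/
noncomputable def topG : Fin (combine C κ hκ).size := Fin.last (∑ i, (C i).size)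

open Classical in
lemma combine_last_preds : (combine C κ hκ).preds (topG C κ hκ) =
    univ.image (fun i => nmap (C := C i) (C' := combine C κ hκ) (cidx C i) (C i).output) := by
  unfold combine topG
  simp only [Fin.lastCases_last]
  rfl

lemma combine_last_kind : (combine C κ hκ).kind (topG C κ hκ) = κ := by
  unfold combine topG
  simp only [Fin.lastCases_last]

lemma combine_depth {d : ℕ} (hd : ∀ i, (C i).depth ≤ d) : (combine C κ hκ).depth ≤ d + 1 := by
  classical
  have h1 : (combine C κ hκ).depth = (combine C κ hκ).gateDepth (topG C κ hκ) := rfl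
  rw [h1, gateDepth_eq, combine_last_preds, Finset.sup_image]
  apply Nat.add_le_add_right
  apply Finset.sup_le
  intro i _
  show (combine C κ hκ).nodeDepth _ ≤ d
  rw [combine_nodeDepth]
  exact hd i

lemma combine_eval (x : J → Bool) :
    (combine C κ hκ).eval x = (combine C κ hκ).gateVal x (topG C κ hκ) := rfl

end Combine

lemma Cir.mono {s s' d d' : ℕ} {f : (J → Bool) → Bool} (h : Cir s d f) (hs : s ≤ s')
    (hd : d ≤ d') : Cir s' d' f := by
  obtain ⟨C, h1, h2, h3⟩ := h
  exact ⟨C, h1.trans hs, h2.trans hd, h3⟩

lemma Cir.congr {s d : ℕ} {f f' : (J → Bool) → Bool} (h : Cir s d f) (hf : ∀ x, f x = f' x) :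
    Cir s d f' := by
  obtain ⟨C, h1, h2, h3⟩ := h
  exact ⟨C, h1, h2, fun x => (h3 x).trans (hf x)⟩

lemma Cir.var (j : J) : Cir 0 0 (fun x => x j) :=
  ⟨{ size := 0
     kind := fun g => g.elim0
     preds := fun g => g.elim0
     acyclic := fun g => g.elim0
     unary := fun g => g.elim0
     output := Sum.inl j }, le_refl _, le_refl _, fun _ => rfl⟩

lemma Cir.and_fin {n s d : ℕ} {f : Fin n → (J → Bool) → Bool} (h : ∀ i, Cir s d (f i)) :
    Cir (n * s + 1) (d + 1) (fun x => decide (∀ i, f i x = true)) := by
  classical
  choose C h1 h2 h3 using h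
  have hκ : GateKind.and = GateKind.not → n = 1 := fun h => by cases h
  refine ⟨combine C GateKind.and hκ, ?_, combine_depth C _ hκ h2, fun x => ?_⟩
  · show ∑ i, (C i).size + 1 ≤ n * s + 1
    have := Finset.sum_le_card_nsmul univ (fun i => (C i).size) s (fun i _ => h1 i)
    simp only [Finset.card_univ, Fintype.card_fin, smul_eq_mul] at this
    omega
  · rw [combine_eval, Bool.eq_iff_iff, gateVal_and _ _ _ (combine_last_kind C _ hκ),
      combine_last_preds, decide_eq_true_iff]
    simp only [Finset.mem_image, Finset.mem_univ, true_and, forall_exists_index,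
      forall_apply_eq_imp_iff]
    refine forall_congr' fun i => ?_
    rw [combine_node, ← h3 i x]
    rfl

lemma Cir.or_fin {n s d : ℕ} {f : Fin n → (J → Bool) → Bool} (h : ∀ i, Cir s d (f i)) :
    Cir (n * s + 1) (d + 1) (fun x => decide (∃ i, f i x = true)) := by
  classical
  choose C h1 h2 h3 using h
  have hκ : GateKind.or = GateKind.not → n = 1 := fun h => by cases h
  refine ⟨combine C GateKind.or hκ, ?_, combine_depth C _ hκ h2, fun x => ?_⟩
  · show ∑ i, (C i).size + 1 ≤ n * s + 1
    have := Finset.sum_le_card_nsmul univ (fun i => (C i).size) s (fun i _ => h1 i)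
    simp only [Finset.card_univ, Fintype.card_fin, smul_eq_mul] at this
    omega
  · rw [combine_eval, Bool.eq_iff_iff, gateVal_or _ _ _ (combine_last_kind C _ hκ),
      combine_last_preds, decide_eq_true_iff]
    simp only [Finset.exists_mem_image, Finset.mem_univ, true_and]
    refine exists_congr fun i => ?_
    rw [combine_node, ← h3 i x]
    rfl

lemma Cir.not {s d : ℕ} {f : (J → Bool) → Bool} (h : Cir s d f) :
    Cir (s + 1) (d + 1) (fun x => !f x) := by
  classical
  obtain ⟨C, h1, h2, h3⟩ := h
  have hκ : GateKind.not = GateKind.not → 1 = 1 := fun _ => rfl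
  refine ⟨combine (fun _ : Fin 1 => C) GateKind.not hκ, ?_,
    combine_depth _ _ hκ (fun _ => h2), fun x => ?_⟩
  · show ∑ _i : Fin 1, C.size + 1 ≤ s + 1
    simp only [Finset.sum_const, Finset.card_univ, Fintype.card_fin, one_smul]
    omega
  · rw [combine_eval, Bool.eq_iff_iff, gateVal_not _ _ _ (combine_last_kind _ _ hκ),
      combine_last_preds]
    simp only [Finset.mem_image, Finset.mem_univ, true_and, forall_exists_index,
      forall_apply_eq_imp_iff, Bool.not_eq_true']
    constructor
    · intro h
      have := h 0
      rw [combine_node] at this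
      rw [← h3 x]
      exact this
    · intro h i
      rw [combine_node]
      rw [← h3 x] at h
      exact h

section Fintype
variable {K : Type} [Fintype K]

open Classical in
lemma Cir.and {s d : ℕ} {f : K → (J → Bool) → Bool} (h : ∀ i, Cir s d (f i)) :
    Cir (Fintype.card K * s + 1) (d + 1) (fun x => decide (∀ i, f i x = true)) := by
  refine (Cir.and_fin (f := fun i => f ((Fintype.equivFin K).symm i)) (fun i => h _)).congr ?_
  intro x
  rw [decide_eq_decide]
  constructor
  · intro hh i
    have := hh (Fintype.equivFin K i)
    rwa [Equiv.symm_apply_apply] at this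
  · intro hh i
    exact hh _

open Classical in
lemma Cir.or {s d : ℕ} {f : K → (J → Bool) → Bool} (h : ∀ i, Cir s d (f i)) :
    Cir (Fintype.card K * s + 1) (d + 1) (fun x => decide (∃ i, f i x = true)) := by
  refine (Cir.or_fin (f := fun i => f ((Fintype.equivFin K).symm i)) (fun i => h _)).congr ?_
  intro x
  rw [decide_eq_decide]
  constructor
  · rintro ⟨i, hi⟩; exact ⟨_, hi⟩
  · rintro ⟨i, hi⟩; exact ⟨Fintype.equivFin K i, by simpa using hi⟩

/-- An arbitrary function of few computed bits. -/
lemma Cir.small {s d : ℕ} {f : K → (J → Bool) → Bool} (h : ∀ i, Cir s d (f i))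
    (P : (K → Bool) → Bool) :
    Cir (2 ^ Fintype.card K * (Fintype.card K * (s + 1) + 1) + 1) (d + 3)
      (fun x => P (fun i => f i x)) := by
  classical
  -- disjunction over all accepted assignments
  have h1 : ∀ y : K → Bool, Cir (Fintype.card K * (s + 1) + 1) (d + 2)
      (fun x => decide (∀ i, (if y i then f i x else !f i x) = true)) := by
    intro y
    apply Cir.and (f := fun i x => if y i then f i x else !f i x)
    intro i
    by_cases hy : y i
    · simp only [hy, if_true]
      exact (h i).mono (by omega) (by omega)
    · simp only [hy, if_false]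
      exact (h i).not
  have h2 : Cir (Fintype.card {y : K → Bool // P y = true} *
      (Fintype.card K * (s + 1) + 1) + 1) (d + 3)
      (fun x => decide (∃ y : {y : K → Bool // P y = true},
        decide (∀ i, (if y.1 i then f i x else !f i x) = true) = true)) :=
    Cir.or (fun y => h1 y.1)
  refine (h2.congr ?_).mono ?_ (le_refl _)
  · intro x
    rw [Bool.eq_iff_iff, decide_eq_true_iff]
    constructor
    · rintro ⟨y, hy⟩
      rw [decide_eq_true_iff] at hy
      have : y.1 = fun i => f i x := by
        funext i
        have := hy i
        cases hyi : y.1 i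
        · rw [hyi] at this
          simp only [Bool.false_eq_true, if_false, Bool.not_eq_true'] at this
          exact this.symm
        · rw [hyi] at this
          simp only [if_true] at this
          exact this.symm
      rw [← this]
      exact y.2
    · intro hP
      refine ⟨⟨fun i => f i x, hP⟩, ?_⟩
      rw [decide_eq_true_iff]
      intro i
      cases hfi : f i x <;> simp [hfi]
  · apply Nat.add_le_add_right
    apply Nat.mul_le_mul_right
    refine (Fintype.card_subtype_le _).trans ?_
    rw [Fintype.card_fun, Fintype.card_bool]

end Fintype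

end Pool.Agent.W961
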