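import Mathlib
import Pool.Agent.H568R2.Medium

/-!
A planted relation between the values of a random function at few random points is hidden from
circuits of constant depth (helper961).
-/

namespace Pool.Agent.W961

open Finset DomAC0 H568R2
open scoped BigOperators

section Basic
variable {I G : Type} [DecidableEq I]

/-- Mix two functions. -/
def sel (A B : I → G) (x : I → Bool) : I → G := fun i => if x i then B i else A i

variable [Fintype I] [Fintype G]

lemma expect_sel (x : I → Bool) (Φ : (I → G) → ℝ) :
    𝔼 A : I → G, 𝔼 B : I → G, Φ (sel A B x) = 𝔼 A : I → G, Φ A := by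
  classical
  rcases isEmpty_or_nonempty (I → G) with h | h
  · simp
  -- swap
  have key : 𝔼 p : (I → G) × (I → G), Φ (sel p.1 p.2 x) = 𝔼 p : (I → G) × (I → G), Φ p.1 := by
    apply Fintype.expect_equiv
      (e := ({ toFun := fun p => (sel p.1 p.2 x, sel p.2 p.1 x)
               invFun := fun p => (sel p.1 p.2 x, sel p.2 p.1 x)
               left_inv := by
                intro p
                ext i <;> (simp only [sel]; split_ifs <;> rfl)
               right_inv := by
                intro p
                ext i <;> (simp only [sel]; split_ifs <;> rfl) } :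
            ((I → G) × (I → G)) ≃ ((I → G) × (I → G))))
    intro p
    rfl
  have e1 : 𝔼 p : (I → G) × (I → G), Φ (sel p.1 p.2 x) =
      𝔼 A : I → G, 𝔼 B : I → G, Φ (sel A B x) := by
    rw [← Finset.univ_product_univ, Finset.expect_product]
  have e2 : 𝔼 p : (I → G) × (I → G), Φ p.1 = 𝔼 A : I → G, 𝔼 _B : I → G, Φ A := by
    rw [← Finset.univ_product_univ, Finset.expect_product]
  rw [← e1, key, e2]
  simp

/-- Swapping the two functions on a set of points. -/
lemma expect_swap (x : I → Bool) (Ψ : (I → G) → (I → G) → ℝ) :
    𝔼 A : I → G, 𝔼 B : I → G, Ψ (sel A B x) (sel B A x) = 𝔼 A : I → G, 𝔼 B : I → G, Ψ A B := by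
  classical
  have key : 𝔼 p : (I → G) × (I → G), Ψ (sel p.1 p.2 x) (sel p.2 p.1 x) =
      𝔼 p : (I → G) × (I → G), Ψ p.1 p.2 := by
    apply Fintype.expect_equiv
      (e := ({ toFun := fun p => (sel p.1 p.2 x, sel p.2 p.1 x)
               invFun := fun p => (sel p.1 p.2 x, sel p.2 p.1 x)
               left_inv := by
                intro p
                ext i <;> (simp only [sel]; split_ifs <;> rfl)
               right_inv := by
                intro p
                ext i <;> (simp only [sel]; split_ifs <;> rfl) } :
            ((I → G) × (I → G)) ≃ ((I → G) × (I → G))))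
    intro p
    rfl
  have e1 : 𝔼 p : (I → G) × (I → G), Ψ (sel p.1 p.2 x) (sel p.2 p.1 x) =
      𝔼 A : I → G, 𝔼 B : I → G, Ψ (sel A B x) (sel B A x) := by
    rw [← Finset.univ_product_univ, Finset.expect_product]
  have e2 : 𝔼 p : (I → G) × (I → G), Ψ p.1 p.2 = 𝔼 A : I → G, 𝔼 B : I → G, Ψ A B := by
    rw [← Finset.univ_product_univ, Finset.expect_product]
  rw [← e1, key, e2]

end Basic

section Fix
variable {m : ℕ} {V G : Type} [DecidableEq V] [AddCommGroup G]

/-- Change the value of `X` at the point `(t₀, a t₀)` so that the values at the points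
`(t, a t)` sum to `g`. -/
def fixup (t₀ : Fin m) (a : Fin m → V) (g : G) (X : Fin m × V → G) : Fin m × V → G :=
  Function.update X (t₀, a t₀) (g - ∑ t ∈ univ.erase t₀, X (t, a t))

lemma fixup_sum (t₀ : Fin m) (a : Fin m → V) (g : G) (X : Fin m × V → G) :
    ∑ t, fixup t₀ a g X (t, a t) = g := by
  rw [← Finset.add_sum_erase _ _ (Finset.mem_univ t₀)]
  have h1 : ∑ t ∈ univ.erase t₀, fixup t₀ a g X (t, a t) = ∑ t ∈ univ.erase t₀, X (t, a t) := by
    refine Finset.sum_congr rfl fun t ht => ?_
    have : t ≠ t₀ := (Finset.mem_erase.1 ht).1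
    unfold fixup
    rw [Function.update_of_ne]
    intro h
    exact this (Prod.ext_iff.1 h).1
  rw [h1]
  unfold fixup
  rw [Function.update_self]
  abel

variable [Fintype V] [Fintype G]

/-- A function which does not look at one of the planted values does not see the planting. -/
lemma fix_expect (t₀ t₁ : Fin m) (a : Fin m → V) (g : G) (Φ : (Fin m × V → G) → ℝ)
    (hΦ : ∀ B B' : Fin m × V → G, (∀ i, i ≠ (t₁, a t₁) → B i = B' i) → Φ B = Φ B') :
    𝔼 B : Fin m × V → G, Φ (fixup t₀ a g B) = 𝔼 B : Fin m × V → G, Φ B := by
  classical
  by_cases h01 : t₁ = t₀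
  · subst h01
    refine Finset.expect_congr rfl fun B _ => ?_
    apply hΦ
    intro i hi
    unfold fixup
    rw [Function.update_of_ne hi]
  · have hne : ((t₁, a t₁) : Fin m × V) ≠ (t₀, a t₀) := fun h => h01 (Prod.ext_iff.1 h).1
    set φ : (Fin m × V → G) → (Fin m × V → G) := fun B =>
      Function.update (fixup t₀ a g B) (t₁, a t₁) (B (t₀, a t₀)) with hφ
    have h1 : ∀ B, Φ (fixup t₀ a g B) = Φ (φ B) := by
      intro B
      apply hΦ
      intro i hi
      rw [hφ]
      simp only
      rw [Function.update_of_ne hi]
    have hinj : Function.Injective φ := by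
      intro B B' hBB
      have hoth : ∀ i, i ≠ (t₁, a t₁) → i ≠ (t₀, a t₀) → B i = B' i := by
        intro i hi1 hi0
        have := congrFun hBB i
        simp only [hφ] at this
        rw [Function.update_of_ne hi1, Function.update_of_ne hi1] at this
        unfold fixup at this
        rw [Function.update_of_ne hi0, Function.update_of_ne hi0] at this
        exact this
      have h0 : B (t₀, a t₀) = B' (t₀, a t₀) := by
        have := congrFun hBB (t₁, a t₁)
        simp only [hφ] at this
        rw [Function.update_self, Function.update_self] at this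
        exact this
      have hs : ∑ t ∈ univ.erase t₀, B (t, a t) = ∑ t ∈ univ.erase t₀, B' (t, a t) := by
        have := congrFun hBB (t₀, a t₀)
        simp only [hφ] at this
        rw [Function.update_of_ne hne.symm, Function.update_of_ne hne.symm] at this
        unfold fixup at this
        rw [Function.update_self, Function.update_self] at this
        exact sub_right_injective this
      have h1 : B (t₁, a t₁) = B' (t₁, a t₁) := by
        have hm : t₁ ∈ univ.erase t₀ := Finset.mem_erase.2 ⟨h01, Finset.mem_univ _⟩
        rw [← Finset.add_sum_erase _ _ hm, ← Finset.add_sum_erase _ _ hm] at hs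
        have h2 : ∑ t ∈ (univ.erase t₀).erase t₁, B (t, a t) =
            ∑ t ∈ (univ.erase t₀).erase t₁, B' (t, a t) := by
          refine Finset.sum_congr rfl fun t ht => ?_
          rw [Finset.mem_erase, Finset.mem_erase] at ht
          apply hoth
          · intro h; exact ht.1 (Prod.ext_iff.1 h).1
          · intro h; exact ht.2.1 (Prod.ext_iff.1 h).1
        rw [h2] at hs
        exact add_right_cancel hs
      funext i
      by_cases hi1 : i = (t₁, a t₁)
      · rw [hi1, h1]
      · by_cases hi0 : i = (t₀, a t₀)
        · rw [hi0, h0]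
        · exact hoth i hi1 hi0
    have hbij : Function.Bijective φ := Finite.injective_iff_bijective.1 hinj
    calc 𝔼 B : Fin m × V → G, Φ (fixup t₀ a g B) = 𝔼 B : Fin m × V → G, Φ (φ B) :=
          Finset.expect_congr rfl fun B _ => h1 B
      _ = 𝔼 B : Fin m × V → G, Φ B := Fintype.expect_bijective φ hbij _ _ (fun _ => rfl)

end Fix

end Pool.Agent.W961
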