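import Mathlib
import Pool.Agent.W961.Hide

namespace Pool.Agent.W961

open Finset DomAC0 H568R2
open scoped BigOperators

section Alt
variable {M : Type} [Fintype M] [DecidableEq M]

lemma alt_zero (F : Finset M → ℝ) (t : M) (h : ∀ s, F s = F (insert t s)) :
    ∑ s : Finset M, (-1 : ℝ) ^ s.card * F s = 0 := by
  refine Finset.sum_involution (fun s _ => if t ∈ s then s.erase t else insert t s) ?_ ?_
    (fun s _ => Finset.mem_univ _) ?_
  · intro s _
    by_cases ht : t ∈ s
    · rw [if_pos ht]
      have h1 := h (s.erase t)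
      rw [Finset.insert_erase ht] at h1
      rw [← Finset.card_erase_add_one ht, h1]
      ring
    · rw [if_neg ht, Finset.card_insert_of_notMem ht, ← h s]
      ring
  · intro s _ _
    by_cases ht : t ∈ s
    · rw [if_pos ht]
      intro hcon
      rw [← hcon] at ht
      exact Finset.notMem_erase t s ht
    · rw [if_neg ht]
      intro hcon
      rw [← hcon] at ht
      exact ht (Finset.mem_insert_self t s)
  · intro s _
    by_cases ht : t ∈ s
    · simp only [ht, if_true, Finset.notMem_erase, if_false, Finset.insert_erase]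
    · simp only [ht, if_false, Finset.mem_insert_self, if_true, Finset.erase_insert ht]

lemma alt_main [Nonempty M] (F : Finset M → ℝ) (U : ℝ) (h : ∀ s, s ≠ univ → F s = U) :
    |F univ - U| = |∑ s : Finset M, (-1 : ℝ) ^ s.card * F s| := by
  obtain ⟨t⟩ := ‹Nonempty M›
  have h1 : ∑ s : Finset M, (-1 : ℝ) ^ s.card * F s =
      ∑ s : Finset M, (-1 : ℝ) ^ s.card * (F s - U) := by
    have h2 := alt_zero (fun _ : Finset M => U) t (fun _ => rfl)
    have h3 : ∑ s : Finset M, (-1 : ℝ) ^ s.card * (F s - U) =
        ∑ s : Finset M, (-1 : ℝ) ^ s.card * F s - ∑ s : Finset M, (-1 : ℝ) ^ s.card * U := by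
      rw [← Finset.sum_sub_distrib]
      exact Finset.sum_congr rfl fun _ _ => by ring
    rw [h3, h2, sub_zero]
  rw [h1, Finset.sum_eq_single (univ : Finset M)]
  · rw [abs_mul, abs_pow, abs_neg, abs_one, one_pow, one_mul]
  · intro s _ hs
    rw [h s hs]; ring
  · intro h; exact absurd (Finset.mem_univ _) h

lemma alt_abs (F : Finset M → ℝ) (h : ∀ s, |F s| ≤ 1) :
    |∑ s : Finset M, (-1 : ℝ) ^ s.card * F s| ≤ 2 ^ Fintype.card M := by
  refine (Finset.abs_sum_le_sum_abs _ _).trans ?_
  have h1 : ∀ s ∈ (univ : Finset (Finset M)), |(-1 : ℝ) ^ s.card * F s| ≤ 1 := by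
    intro s _
    rw [abs_mul, abs_pow, abs_neg, abs_one, one_pow, one_mul]
    exact h s
  refine (Finset.sum_le_sum h1).trans ?_
  rw [Finset.sum_const, nsmul_eq_mul, mul_one, Finset.card_univ, Fintype.card_finset]
  push_cast
  exact le_refl _

end Alt

/-- indicator -/
def ind (b : Bool) : ℝ := if b then 1 else 0

lemma ind_nonneg (b : Bool) : 0 ≤ ind b := by unfold ind; split_ifs <;> norm_num
lemma ind_le_one (b : Bool) : ind b ≤ 1 := by unfold ind; split_ifs <;> norm_num
lemma ind_abs (b : Bool) : |ind b| ≤ 1 := by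
  rw [abs_of_nonneg (ind_nonneg b)]; exact ind_le_one b

section Main
variable {m : ℕ} {V G : Type} [DecidableEq V] [AddCommGroup G] {J : Type}

/-- the planted points -/
def pts (a : Fin m → V) : Fin m → Fin m × V := fun t => (t, a t)

lemma pts_inj (a : Fin m → V) : Function.Injective (pts a) := fun _ _ h => (Prod.ext_iff.1 h).1

/-- the input string seen when the values of `B` are used at the points of `x` -/
def sg (τ : (Fin m × V → G) → (J → Bool)) (A B : Fin m × V → G) :
    (Fin m × V → Bool) → (J → Bool) := fun x => τ (sel A B x)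

lemma sg_junta {τ : (Fin m × V → G) → (J → Bool)}
    (hτ : ∀ j, ∃ i, ∀ X Y : Fin m × V → G, X i = Y i → τ X j = τ Y j) (A B : Fin m × V → G) :
    ∀ j, Junta 1 (fun x => sg τ A B x j) := by
  intro j
  obtain ⟨i, hi⟩ := hτ j
  refine ⟨{i}, by simp, ?_⟩
  intro x y hxy
  apply hi
  unfold sel
  rw [hxy i (Finset.mem_singleton_self i)]

lemma plant_zero_apply (a : Fin m → V) (h : Finset (Fin m)) (i : Fin m × V) :
    plant (pts a) h (fun _ => false) i = decide (i.1 ∈ h ∧ a i.1 = i.2) := by
  unfold plant
  rw [Bool.or_false, decide_eq_decide]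
  constructor
  · rintro ⟨j, hj, rfl⟩
    exact ⟨hj, rfl⟩
  · rintro ⟨h1, h2⟩
    exact ⟨i.1, h1, by unfold pts; rw [h2]⟩

lemma sel_fixup_univ (t₀ : Fin m) (a : Fin m → V) (g : G) (A B : Fin m × V → G) :
    sel A (fixup t₀ a g B) (plant (pts a) univ (fun _ => false)) =
      fixup t₀ a g (sel A B (plant (pts a) univ (fun _ => false))) := by
  have hs : ∑ t ∈ univ.erase t₀, sel A B (plant (pts a) univ (fun _ => false)) (t, a t) =
      ∑ t ∈ univ.erase t₀, B (t, a t) := by
    refine Finset.sum_congr rfl fun t _ => ?_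
    unfold sel
    rw [plant_zero_apply]
    simp
  funext i
  by_cases hi : i = (t₀, a t₀)
  · subst hi
    unfold fixup
    rw [Function.update_self, hs]
    unfold sel
    rw [plant_zero_apply]
    simp
  · unfold fixup
    rw [Function.update_of_ne hi]
    unfold sel
    rw [Function.update_of_ne hi]

variable [Fintype V] [Fintype G]

lemma expect_plant_ne (t₀ : Fin m) (a : Fin m → V) (g : G) (Φ : (Fin m × V → G) → ℝ)
    (h : Finset (Fin m)) (hh : h ≠ univ) :
    𝔼 A : Fin m × V → G, 𝔼 B : Fin m × V → G,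
      Φ (sel A (fixup t₀ a g B) (plant (pts a) h (fun _ => false))) =
    𝔼 X : Fin m × V → G, Φ X := by
  classical
  obtain ⟨t₁, ht₁⟩ : ∃ t₁, t₁ ∉ h := by
    by_contra hcon
    push Not at hcon
    exact hh (Finset.eq_univ_iff_forall.2 hcon)
  rw [← expect_sel (plant (pts a) h (fun _ => false)) Φ]
  refine Finset.expect_congr rfl fun A _ => ?_
  exact fix_expect t₀ t₁ a g (fun B => Φ (sel A B (plant (pts a) h (fun _ => false)))) (by
    intro B B' hBB
    have : sel A B (plant (pts a) h (fun _ => false)) =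
        sel A B' (plant (pts a) h (fun _ => false)) := by
      funext i
      unfold sel
      rw [plant_zero_apply]
      by_cases hi : i = (t₁, a t₁)
      · subst hi
        simp [ht₁]
      · rw [hBB i hi]
    rw [this])

lemma expect_plant_univ (t₀ : Fin m) (a : Fin m → V) (g : G) (Φ : (Fin m × V → G) → ℝ) :
    𝔼 A : Fin m × V → G, 𝔼 B : Fin m × V → G,
      Φ (sel A (fixup t₀ a g B) (plant (pts a) univ (fun _ => false))) =
    𝔼 X : Fin m × V → G, Φ (fixup t₀ a g X) := by
  classical
  rw [← expect_sel (plant (pts a) univ (fun _ => false)) (fun X => Φ (fixup t₀ a g X))]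
  refine Finset.expect_congr rfl fun A _ => Finset.expect_congr rfl fun B _ => ?_
  rw [sel_fixup_univ]

open Classical in
/-- The distinguishing advantage is bounded by the probability of full sensitivity. -/
lemma adv_le_sens (t₀ : Fin m) (g : G) [Nonempty V] (f : (Fin m × V → G) → Bool) :
    |𝔼 a : Fin m → V, 𝔼 X : Fin m × V → G, ind (f (fixup t₀ a g X)) -
      𝔼 X : Fin m × V → G, ind (f X)| ≤
    2 ^ m * 𝔼 a : Fin m → V, 𝔼 A : Fin m × V → G, 𝔼 B : Fin m × V → G,
      (if sens (fun x => f (sel A (fixup t₀ a g B) x)) (pts a) (fun _ => false) = univ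
        then (1 : ℝ) else 0) := by
  have : Nonempty (Fin m) := ⟨t₀⟩
  have h1 : ∀ a : Fin m → V, |𝔼 X : Fin m × V → G, ind (f (fixup t₀ a g X)) -
      𝔼 X : Fin m × V → G, ind (f X)| ≤ 2 ^ m * 𝔼 A : Fin m × V → G, 𝔼 B : Fin m × V → G,
      (if sens (fun x => f (sel A (fixup t₀ a g B) x)) (pts a) (fun _ => false) = univ
        then (1 : ℝ) else 0) := by
    intro a
    have h2 := alt_main (M := Fin m) (fun h => 𝔼 A : Fin m × V → G, 𝔼 B : Fin m × V → G,
      ind (f (sel A (fixup t₀ a g B) (plant (pts a) h (fun _ => false)))))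
      (𝔼 X : Fin m × V → G, ind (f X))
      (fun h hh => expect_plant_ne t₀ a g (fun X => ind (f X)) h hh)
    rw [expect_plant_univ t₀ a g (fun X => ind (f X))] at h2
    rw [h2]
    have h3 : ∑ s : Finset (Fin m), (-1 : ℝ) ^ s.card *
        (𝔼 A : Fin m × V → G, 𝔼 B : Fin m × V → G,
          ind (f (sel A (fixup t₀ a g B) (plant (pts a) s (fun _ => false))))) =
        𝔼 A : Fin m × V → G, 𝔼 B : Fin m × V → G, ∑ s : Finset (Fin m), (-1 : ℝ) ^ s.card *
          ind (f (sel A (fixup t₀ a g B) (plant (pts a) s (fun _ => false)))) := by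
      simp only [Finset.mul_expect]
      rw [← Finset.expect_sum_comm]
      refine Finset.expect_congr rfl fun A _ => ?_
      rw [← Finset.expect_sum_comm]
    rw [h3]
    simp only [Finset.mul_expect]
    refine (Finset.abs_expect_le _ _).trans ?_
    refine Finset.expect_le_expect fun A _ => ?_
    refine (Finset.abs_expect_le _ _).trans ?_
    refine Finset.expect_le_expect fun B _ => ?_
    by_cases hs : sens (fun x => f (sel A (fixup t₀ a g B) x)) (pts a) (fun _ => false) = univ
    · rw [if_pos hs, mul_one]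
      have := alt_abs (M := Fin m) (fun s => ind (f (sel A (fixup t₀ a g B)
        (plant (pts a) s (fun _ => false))))) (fun s => ind_abs _)
      rw [Fintype.card_fin] at this
      exact this
    · rw [if_neg hs, mul_zero]
      obtain ⟨t, ht⟩ : ∃ t, t ∉ sens (fun x => f (sel A (fixup t₀ a g B) x)) (pts a)
          (fun _ => false) := by
        by_contra hcon
        push Not at hcon
        exact hs (Finset.eq_univ_iff_forall.2 hcon)
      have h4 := not_mem_sens.1 ht
      have h6 : ∀ s : Finset (Fin m), ind (f (sel A (fixup t₀ a g B)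
          (plant (pts a) s (fun _ => false)))) = ind (f (sel A (fixup t₀ a g B)
          (plant (pts a) (insert t s) (fun _ => false)))) := fun s => congrArg ind (h4 s)
      rw [alt_zero (fun s : Finset (Fin m) => ind (f (sel A (fixup t₀ a g B)
          (plant (pts a) s (fun _ => false))))) t h6]
      simp
  have h5 : 𝔼 a : Fin m → V, 𝔼 X : Fin m × V → G, ind (f (fixup t₀ a g X)) -
      𝔼 X : Fin m × V → G, ind (f X) = 𝔼 a : Fin m → V, (𝔼 X : Fin m × V → G,
        ind (f (fixup t₀ a g X)) - 𝔼 X : Fin m × V → G, ind (f X)) := by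
    rw [Finset.expect_sub_distrib, Fintype.expect_const]
  rw [h5]
  refine (Finset.abs_expect_le _ _).trans ?_
  rw [Finset.mul_expect]
  exact Finset.expect_le_expect fun a _ => h1 a

end Main

end Pool.Agent.W961
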