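import Mathlib
import Pool.Agent.W961.Hide2

namespace Pool.Agent.W961

open Finset DomAC0 H568R2
open scoped BigOperators

section ExExp
variable {I : Type} [Fintype I] [DecidableEq I] {A Ω : Type} [Fintype A] [Fintype Ω]

lemma Ex_expect (w : A → ℝ) (Φ : Ω → (I → A) → ℝ) :
    Ex w (fun ω => 𝔼 a : Ω, Φ a ω) = 𝔼 a : Ω, Ex w (Φ a) := by
  unfold Ex
  rw [Finset.expect_sum_comm]
  exact Finset.sum_congr rfl fun ω _ => by rw [Finset.mul_expect]

end ExExp

section Main
variable {m : ℕ} {V G : Type} [DecidableEq V] [AddCommGroup G]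

/-- Toggling a planted value matters, for each planted value in `H`. -/
def Bad0 (F : (Fin m × V → G) → Bool) (a : Fin m → V) (H : Finset (Fin m))
    (A B : Fin m × V → G) : Prop :=
  ∀ j ∈ H, ∃ h ⊆ H, F (sel A B (plant (pts a) h (fun _ => false))) ≠
    F (sel A B (plant (pts a) (insert j h) (fun _ => false)))

/-- Every set on which the restricted function depends contains the planted points of `H`. -/
def Cov0 (f : (Fin m × V → Bool) → Bool) (a : Fin m → V) (H : Finset (Fin m))
    (ρ : Restr (Fin m × V)) : Prop :=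
  ∀ A : Finset (Fin m × V), DepOn (rs f ρ) A → ∀ j ∈ H, pts a j ∈ A

lemma zeroOn_false (Z : Finset (Fin m × V)) :
    zeroOn Z (fun _ => false) = (fun _ => false : Fin m × V → Bool) := by
  funext i; unfold zeroOn; split_ifs <;> rfl

variable [Fintype V]

lemma bad0_of_sens {F : (Fin m × V → G) → Bool} {a : Fin m → V} {H : Finset (Fin m)}
    {A B : Fin m × V → G} (h : sens (fun x => F (sel A B x)) (pts a) (fun _ => false) = H) :
    Bad0 F a H A B := by
  have h1 := sens_bad (fun x => F (sel A B x)) (pts a) (fun _ => false)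
  rw [h] at h1
  unfold Bad' at h1
  rw [zeroOn_false] at h1
  exact h1

/-- the default point of a restriction -/
def dflt (ρ : Restr (Fin m × V)) : Fin m × V → Bool := fun i => (ρ i).getD false

omit [Fintype V] in
lemma bad_swap (F : (Fin m × V → G) → Bool) (a : Fin m → V) (H : Finset (Fin m))
    (A B : Fin m × V → G) (x : Fin m × V → Bool) :
    Bad0 F a H (sel A B (zeroOn (H.image (pts a)) x)) (sel B A (zeroOn (H.image (pts a)) x)) ↔
      Bad' (fun x => F (sel A B x)) (pts a) H x := by
  have key : ∀ h : Finset (Fin m), h ⊆ H →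
      sel (sel A B (zeroOn (H.image (pts a)) x)) (sel B A (zeroOn (H.image (pts a)) x))
        (plant (pts a) h (fun _ => false)) = sel A B (plant (pts a) h
          (zeroOn (H.image (pts a)) x)) := by
    intro h hh
    funext i
    by_cases hi : ∃ j ∈ h, pts a j = i
    · have hz : zeroOn (H.image (pts a)) x i = false := by
        obtain ⟨j, hj, rfl⟩ := hi
        unfold zeroOn
        rw [if_pos (Finset.mem_image_of_mem _ (hh hj))]
      have h1 : ∀ y : Fin m × V → Bool, plant (pts a) h y i = true := by
        intro y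
        unfold plant
        simp [hi]
      simp only [sel, h1, hz, if_true]
      simp
    · have h1 : ∀ y : Fin m × V → Bool, plant (pts a) h y i = y i := by
        intro y
        unfold plant
        simp only [hi, decide_false, Bool.false_or]
      simp only [sel, h1]
      simp
  unfold Bad0 Bad'
  constructor
  · intro hB j hj
    obtain ⟨h, hh, hne⟩ := hB j hj
    refine ⟨h, hh, ?_⟩
    rw [key h hh, key (insert j h) (Finset.insert_subset hj hh)] at hne
    exact hne
  · intro hB j hj
    obtain ⟨h, hh, hne⟩ := hB j hj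
    refine ⟨h, hh, ?_⟩
    rw [key h hh, key (insert j h) (Finset.insert_subset hj hh)]
    exact hne

lemma cov_of_bad {f : (Fin m × V → Bool) → Bool} {a : Fin m → V} {H : Finset (Fin m)}
    {ρ : Restr (Fin m × V)} (hG : ∀ i ∈ H.image (pts a), ρ i = none)
    (hB : Bad' f (pts a) H (dflt ρ)) : Cov0 f a H ρ := by
  intro A hA
  refine bad_rel f (pts a) (pts_inj a) H (fun _ => true) ρ (fun _ => false)
    (fun i hi => ⟨rfl, hG i hi⟩) ?_ A ?_
  · simp only [Bool.true_and]
    exact hB
  · have : (fun x : Fin m × V → Bool => f (mask (fun _ => true) x)) = f := by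
      funext x
      congr 1
    rw [this]
    exact hA

variable [Fintype G]

open Classical in
lemma sens_prob0 (F : (Fin m × V → G) → Bool) (t₀ : Fin m) (g : G) (a : Fin m → V)
    (H : Finset (Fin m)) (hH : H ≠ univ) {q : ℝ} (hq0 : 0 ≤ q) (hq1 : q ≤ 1) :
    q ^ H.card * 𝔼 A : Fin m × V → G, 𝔼 B : Fin m × V → G,
      (if sens (fun x => F (sel A (fixup t₀ a g B) x)) (pts a) (fun _ => false) = H
        then (1 : ℝ) else 0) ≤
    𝔼 A : Fin m × V → G, 𝔼 B : Fin m × V → G, Ex (wq q) (fun ρ : Restr (Fin m × V) =>
      if Cov0 (fun x => F (sel A B x)) a H ρ then (1 : ℝ) else 0) := by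
  obtain ⟨t₁, ht₁⟩ : ∃ t₁, t₁ ∉ H := by
    by_contra hcon
    push Not at hcon
    exact hH (Finset.eq_univ_iff_forall.2 hcon)
  -- step 1 and 2
  have h1 : 𝔼 A : Fin m × V → G, 𝔼 B : Fin m × V → G,
      (if sens (fun x => F (sel A (fixup t₀ a g B) x)) (pts a) (fun _ => false) = H
        then (1 : ℝ) else 0) ≤
      𝔼 A : Fin m × V → G, 𝔼 B : Fin m × V → G, (if Bad0 F a H A B then (1 : ℝ) else 0) := by
    refine Finset.expect_le_expect fun A _ => ?_
    have h2 := fix_expect t₀ t₁ a g (fun B => if Bad0 F a H A B then (1 : ℝ) else 0) (by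
      intro B B' hBB
      have : Bad0 F a H A B ↔ Bad0 F a H A B' := by
        have key : ∀ h : Finset (Fin m), h ⊆ H →
            sel A B (plant (pts a) h (fun _ => false)) =
            sel A B' (plant (pts a) h (fun _ => false)) := by
          intro h hh
          funext i
          unfold sel
          rw [plant_zero_apply]
          by_cases hi : i = (t₁, a t₁)
          · subst hi
            have : t₁ ∉ h := fun h' => ht₁ (hh h')
            simp [this]
          · rw [hBB i hi]
        unfold Bad0
        refine forall_congr' fun j => forall_congr' fun hj => exists_congr fun h =>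
          and_congr_right fun hh => ?_
        rw [key h hh, key (insert j h) (Finset.insert_subset hj hh)]
      simp only [this])
    rw [← h2]
    refine Finset.expect_le_expect fun B _ => ?_
    by_cases hs : sens (fun x => F (sel A (fixup t₀ a g B) x)) (pts a) (fun _ => false) = H
    · rw [if_pos hs, if_pos (bad0_of_sens hs)]
    · rw [if_neg hs]; split_ifs <;> norm_num
  -- step 3
  have h3 : ∀ ρ : Restr (Fin m × V), 𝔼 A : Fin m × V → G, 𝔼 B : Fin m × V → G,
      (if Bad' (fun x => F (sel A B x)) (pts a) H (dflt ρ) then (1 : ℝ) else 0) =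
      𝔼 A : Fin m × V → G, 𝔼 B : Fin m × V → G, (if Bad0 F a H A B then (1 : ℝ) else 0) := by
    intro ρ
    rw [← expect_swap (zeroOn (H.image (pts a)) (dflt ρ))
      (fun A B => if Bad0 F a H A B then (1 : ℝ) else 0)]
    refine Finset.expect_congr rfl fun A _ => Finset.expect_congr rfl fun B _ => ?_
    simp only [bad_swap]
  have h4 : 𝔼 A : Fin m × V → G, 𝔼 B : Fin m × V → G, (if Bad0 F a H A B then (1 : ℝ) else 0) =
      𝔼 A : Fin m × V → G, 𝔼 B : Fin m × V → G, Ex (wq q) (fun ρ : Restr (Fin m × V) =>
        (if Bad' (fun x => F (sel A B x)) (pts a) H (dflt ρ) then (1 : ℝ) else 0)) := by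
    have h5 := Ex_const (I := Fin m × V) (wq_sum q)
      (𝔼 A : Fin m × V → G, 𝔼 B : Fin m × V → G, (if Bad0 F a H A B then (1 : ℝ) else 0))
    rw [← h5]
    have h6 : (fun _ : Fin m × V → Option Bool => 𝔼 A : Fin m × V → G, 𝔼 B : Fin m × V → G,
        (if Bad0 F a H A B then (1 : ℝ) else 0)) = fun ρ => 𝔼 A : Fin m × V → G,
        𝔼 B : Fin m × V → G,
        (if Bad' (fun x => F (sel A B x)) (pts a) H (dflt ρ) then (1 : ℝ) else 0) :=
      funext fun ρ => (h3 ρ).symm
    rw [h6, Ex_expect]
    refine Finset.expect_congr rfl fun A _ => ?_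
    rw [Ex_expect]
  have hstep : ∀ A B : Fin m × V → G, q ^ H.card * Ex (wq q) (fun ρ : Restr (Fin m × V) =>
        (if Bad' (fun x => F (sel A B x)) (pts a) H (dflt ρ) then (1 : ℝ) else 0)) ≤
      Ex (wq q) (fun ρ : Restr (Fin m × V) =>
        if Cov0 (fun x => F (sel A B x)) a H ρ then (1 : ℝ) else 0) := by
    intro A B
    have hind := Ex_indep (I := Fin m × V) (wq_sum q) (fun c : Option Bool => c = none)
      (H.image (pts a)) (fun ρ =>
        (if Bad' (fun x => F (sel A B x)) (pts a) H (dflt ρ) then (1 : ℝ) else 0)) (by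
      intro i hi ρ c
      have hzz : zeroOn (H.image (pts a)) (dflt (Function.update ρ i c)) =
          zeroOn (H.image (pts a)) (dflt ρ) := by
        funext j
        unfold zeroOn
        by_cases hj : j ∈ H.image (pts a)
        · rw [if_pos hj, if_pos hj]
        · rw [if_neg hj, if_neg hj]
          have : j ≠ i := fun h => hj (h ▸ hi)
          unfold dflt
          rw [Function.update_of_ne this]
      have hiff : Bad' (fun x => F (sel A B x)) (pts a) H (dflt (Function.update ρ i c)) ↔
          Bad' (fun x => F (sel A B x)) (pts a) H (dflt ρ) := by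
        unfold Bad'
        rw [hzz]
      simp only [hiff])
    have hsum : ∑ c ∈ univ.filter (fun c : Option Bool => c = none), wq q c = q := by
      rw [Finset.sum_filter, Fintype.sum_option, Fintype.sum_bool]
      simp [wq]
    rw [hsum, Finset.card_image_of_injective _ (pts_inj a)] at hind
    rw [← hind]
    apply Ex_mono (wq_nonneg hq0 hq1)
    intro ρ
    by_cases hG : ∀ i ∈ H.image (pts a), ρ i = none
    · by_cases hB : Bad' (fun x => F (sel A B x)) (pts a) H (dflt ρ)
      · rw [if_pos hB, if_pos hG, if_pos (cov_of_bad hG hB), mul_one]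
      · rw [if_neg hB, zero_mul]
        split_ifs <;> norm_num
    · rw [if_neg hG, mul_zero]
      split_ifs <;> norm_num
  calc q ^ H.card * 𝔼 A : Fin m × V → G, 𝔼 B : Fin m × V → G,
      (if sens (fun x => F (sel A (fixup t₀ a g B) x)) (pts a) (fun _ => false) = H
        then (1 : ℝ) else 0)
      ≤ q ^ H.card * 𝔼 A : Fin m × V → G, 𝔼 B : Fin m × V → G,
          (if Bad0 F a H A B then (1 : ℝ) else 0) :=
        mul_le_mul_of_nonneg_left h1 (pow_nonneg hq0 _)
    _ = 𝔼 A : Fin m × V → G, 𝔼 B : Fin m × V → G, q ^ H.card * Ex (wq q)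
        (fun ρ : Restr (Fin m × V) =>
        (if Bad' (fun x => F (sel A B x)) (pts a) H (dflt ρ) then (1 : ℝ) else 0)) := by
        rw [h4, Finset.mul_expect]
        refine Finset.expect_congr rfl fun A _ => ?_
        rw [Finset.mul_expect]
    _ ≤ _ := Finset.expect_le_expect fun A _ => Finset.expect_le_expect fun B _ => hstep A B

end Main

section Count
variable {m : ℕ} {V : Type} [DecidableEq V] [Fintype V]

open Classical in
lemma expect_mem (H : Finset (Fin m)) (A : Finset (Fin m × V)) [Nonempty V] :
    𝔼 a : Fin m → V, (if ∀ j ∈ H, pts a j ∈ A then (1 : ℝ) else 0) ≤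
      ((A.card : ℝ) / Fintype.card V) ^ H.card := by
  have hn : (0 : ℝ) < Fintype.card V := by exact_mod_cast Fintype.card_pos
  rw [Fintype.expect_eq_sum_div_card]
  have h1 : ∀ a : Fin m → V, (if ∀ j ∈ H, pts a j ∈ A then (1 : ℝ) else 0) =
      ∏ t, (if t ∈ H then (if (t, a t) ∈ A then (1 : ℝ) else 0) else 1) := by
    intro a
    by_cases h : ∀ j ∈ H, pts a j ∈ A
    · rw [if_pos h]
      symm
      apply Finset.prod_eq_one
      intro t _
      by_cases ht : t ∈ H
      · have htA : (t, a t) ∈ A := h t ht
        rw [if_pos ht, if_pos htA]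
      · rw [if_neg ht]
    · rw [if_neg h]
      push Not at h
      obtain ⟨t, ht, htA⟩ := h
      have htA : (t, a t) ∉ A := htA
      symm
      apply Finset.prod_eq_zero (Finset.mem_univ t)
      rw [if_pos ht, if_neg htA]
  simp only [h1]
  rw [← Fintype.piFinset_univ, ← Finset.prod_univ_sum (fun _ => (univ : Finset V))
    (fun t v => (if t ∈ H then (if (t, v) ∈ A then (1 : ℝ) else 0) else 1))]
  rw [Fintype.card_fun, Fintype.card_fin]
  push_cast
  have h2 : ((Fintype.card V : ℝ)) ^ m = ∏ _t : Fin m, (Fintype.card V : ℝ) := by simp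
  rw [h2, ← Finset.prod_div_distrib]
  have h3 : ∀ t : Fin m, (∑ v : V, (if t ∈ H then (if (t, v) ∈ A then (1 : ℝ) else 0) else 1)) /
      (Fintype.card V : ℝ) ≤ (if t ∈ H then (A.card : ℝ) / Fintype.card V else 1) := by
    intro t
    by_cases ht : t ∈ H
    · simp only [ht, if_true]
      apply div_le_div_of_nonneg_right _ hn.le
      rw [Finset.sum_boole]
      have : (univ.filter (fun v : V => (t, v) ∈ A)).card ≤ A.card := by
        apply Finset.card_le_card_of_injOn (fun v => (t, v))
        · intro v hv
          simpa using hv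
        · intro v _ v' _ hvv
          exact (Prod.ext_iff.1 hvv).2
      exact_mod_cast this
    · simp only [ht, if_false]
      rw [Finset.sum_const, Finset.card_univ, nsmul_eq_mul, mul_one, div_self hn.ne']
  refine (Finset.prod_le_prod (fun t _ => ?_) (fun t _ => h3 t)).trans ?_
  · apply div_nonneg _ hn.le
    apply Finset.sum_nonneg
    intro v _
    split_ifs <;> norm_num
  · rw [Finset.prod_ite, Finset.prod_const_one, mul_one, Finset.prod_const]
    simp

end Count

end Pool.Agent.W961
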