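import Mathlib
import Pool.Agent.W961.Hide3

namespace Pool.Agent.W961

open Finset DomAC0 H568R2
open scoped BigOperators

section Main
variable {m : ℕ} {V G : Type} [DecidableEq V] [AddCommGroup G] [Fintype V] [Fintype G]
variable {J : Type} [Fintype J]

/-- error term of the collapse -/
noncomputable def epsD (C : Circuit J) (k d : ℕ) (q₁ : ℝ) : ℝ :=
  d * ((C.size * (Fintype.card J + C.size + 1) : ℕ) : ℝ) * (4 ^ (KK k d) * (3 * q₁)) ^ k

open Classical in
lemma gate_prob [Nonempty V] (C : Circuit J) (τ : (Fin m × V → G) → (J → Bool))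
    (hτ : ∀ j, ∃ i, ∀ X Y : Fin m × V → G, X i = Y i → τ X j = τ Y j) {k : ℕ} (hk : 1 ≤ k)
    {d : ℕ} {q₁ : ℝ} (h0 : 0 ≤ q₁) (h1 : q₁ ≤ 1 / 3) (t₀ : Fin m) (g : G)
    (g' : Fin C.size) (hg' : C.gateDepth g' ≤ d) (i : ℕ) (H : Finset (Fin m)) (hH : H ≠ univ) :
    (q₁ ^ d) ^ H.card * 𝔼 a : Fin m → V, 𝔼 A : Fin m × V → G, 𝔼 B : Fin m × V → G,
      (if sens (fun x => gfun C g' (sg τ A (fixup t₀ a g B) x) ((pl C g').take i)) (pts a)
        (fun _ => false) = H then (1 : ℝ) else 0) ≤
    ((KK k d : ℝ) / Fintype.card V) ^ H.card + epsD C k d q₁ := by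
  set q : ℝ := q₁ ^ d with hq
  have hq0 : 0 ≤ q := pow_nonneg h0 d
  have hq1 : q ≤ 1 := pow_le_one₀ h0 (by linarith)
  have hn : (0 : ℝ) < Fintype.card V := by exact_mod_cast Fintype.card_pos
  set F : (Fin m × V → G) → Bool := fun X => gfun C g' (τ X) ((pl C g').take i) with hF
  have s1 : ∀ a : Fin m → V, q ^ H.card * 𝔼 A : Fin m × V → G, 𝔼 B : Fin m × V → G,
      (if sens (fun x => gfun C g' (sg τ A (fixup t₀ a g B) x) ((pl C g').take i)) (pts a)
        (fun _ => false) = H then (1 : ℝ) else 0) ≤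
      𝔼 A : Fin m × V → G, 𝔼 B : Fin m × V → G, Ex (wq q) (fun ρ : Restr (Fin m × V) =>
      if Cov0 (fun x => F (sel A B x)) a H ρ then (1 : ℝ) else 0) := fun a =>
    sens_prob0 F t₀ g a H hH hq0 hq1
  rw [Finset.mul_expect]
  refine (Finset.expect_le_expect fun a _ => s1 a).trans ?_
  rw [Finset.expect_comm]
  have hbd : ∀ A B : Fin m × V → G, 𝔼 a : Fin m → V, Ex (wq q) (fun ρ : Restr (Fin m × V) =>
      if Cov0 (fun x => F (sel A B x)) a H ρ then (1 : ℝ) else 0) ≤
      ((KK k d : ℝ) / Fintype.card V) ^ H.card + epsD C k d q₁ := by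
    intro A B
    rw [← Ex_expect]
    have hpt : ∀ ρ : Restr (Fin m × V), 𝔼 a : Fin m → V,
        (if Cov0 (fun x => F (sel A B x)) a H ρ then (1 : ℝ) else 0) ≤
        ((KK k d : ℝ) / Fintype.card V) ^ H.card +
          (if ¬ Good C (sg τ A B) k d ρ then (1 : ℝ) else 0) := by
      intro ρ
      by_cases hG : Good C (sg τ A B) k d ρ
      · obtain ⟨A0, hA0, hdep⟩ := hG g' hg' i
        simp only [hG, not_true, if_false, add_zero]
        have s2 : 𝔼 a : Fin m → V,
            (if Cov0 (fun x => F (sel A B x)) a H ρ then (1 : ℝ) else 0) ≤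
            𝔼 a : Fin m → V, (if ∀ j ∈ H, pts a j ∈ A0 then (1 : ℝ) else 0) := by
          refine Finset.expect_le_expect fun a _ => ?_
          by_cases hc : Cov0 (fun x => F (sel A B x)) a H ρ
          · have : ∀ j ∈ H, pts a j ∈ A0 := hc A0 hdep
            rw [if_pos hc, if_pos this]
          · rw [if_neg hc]; split_ifs <;> norm_num
        refine s2.trans ((expect_mem H A0).trans ?_)
        apply pow_le_pow_left₀ (by positivity)
        apply div_le_div_of_nonneg_right _ hn.le
        exact_mod_cast hA0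
      · simp only [hG, not_false_iff, if_true]
        have s2 : 𝔼 a : Fin m → V,
            (if Cov0 (fun x => F (sel A B x)) a H ρ then (1 : ℝ) else 0) ≤
            𝔼 _a : Fin m → V, (1 : ℝ) := by
          refine Finset.expect_le_expect fun a _ => ?_
          split_ifs <;> norm_num
        rw [Fintype.expect_const] at s2
        have : 0 ≤ ((KK k d : ℝ) / Fintype.card V) ^ H.card := by positivity
        linarith
    refine (Ex_mono (wq_nonneg hq0 hq1) hpt).trans ?_
    rw [Ex_add, Ex_const (wq_sum q)]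
    have h2 := collapse C (sg τ A B) (sg_junta hτ A B) h0 h1 hk d d (le_refl d)
    rw [← hq] at h2
    have h3 : Ex (wq q) (fun ρ : Restr (Fin m × V) =>
        (if ¬ Good C (sg τ A B) k d ρ then (1 : ℝ) else 0)) ≤ epsD C k d q₁ := h2
    linarith
  have hX : ∀ A : Fin m × V → G, 𝔼 a : Fin m → V, 𝔼 B : Fin m × V → G,
      Ex (wq q) (fun ρ : Restr (Fin m × V) =>
      if Cov0 (fun x => F (sel A B x)) a H ρ then (1 : ℝ) else 0) ≤
      ((KK k d : ℝ) / Fintype.card V) ^ H.card + epsD C k d q₁ := by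
    intro A
    rw [Finset.expect_comm]
    refine (Finset.expect_le_expect fun B _ => hbd A B).trans ?_
    rw [Fintype.expect_const]
  refine (Finset.expect_le_expect fun A _ => hX A).trans ?_
  rw [Fintype.expect_const]

open Classical in
/-- **Hiding lemma.** A circuit of constant depth hardly distinguishes a uniform `X` from a
uniform `X` whose values at the random points `(t, a t)` sum to `g`. -/
theorem hidden [Nonempty V] (hm : 4 < m) (C : Circuit J) (τ : (Fin m × V → G) → (J → Bool))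
    (hτ : ∀ j, ∃ i, ∀ X Y : Fin m × V → G, X i = Y i → τ X j = τ Y j) {k : ℕ} (hk : 1 ≤ k)
    {d : ℕ} (hd : C.depth ≤ d) {q₁ : ℝ} (h0 : 0 < q₁) (h1 : q₁ ≤ 1 / 3) (t₀ : Fin m) (g : G)
    (R : ℝ) (hR0 : 0 ≤ R)
    (hR : ∀ c : ℕ, m ≤ 4 * c → 4 * c < 2 * m →
      ((KK k d : ℝ) / Fintype.card V) ^ c + epsD C k d q₁ ≤ (q₁ ^ d) ^ c * R) :
    |𝔼 a : Fin m → V, 𝔼 X : Fin m × V → G, ind (C.eval (τ (fixup t₀ a g X))) -
      𝔼 X : Fin m × V → G, ind (C.eval (τ X))| ≤
    4 ^ m * ((C.size * (Fintype.card J + C.size + 1) : ℕ) : ℝ) * R := by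
  set N : ℕ := Fintype.card J + C.size + 1 with hN
  set FF : Finset (Fin C.size × ℕ) :=
    (univ.filter (fun g : Fin C.size => C.gateDepth g ≤ d)) ×ˢ Finset.range N with hFF
  set Med : Finset (Finset (Fin m)) :=
    univ.filter (fun H => m ≤ 4 * H.card ∧ 4 * H.card < 2 * m) with hMed
  refine (adv_le_sens t₀ g (fun X => C.eval (τ X))).trans ?_
  -- pointwise
  have hpt : ∀ (a : Fin m → V) (A B : Fin m × V → G),
      (if sens (fun x => C.eval (τ (sel A (fixup t₀ a g B) x))) (pts a) (fun _ => false) = univ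
        then (1 : ℝ) else 0) ≤ ∑ gi ∈ FF, ∑ H ∈ Med,
        (if sens (fun x => gfun C gi.1 (sg τ A (fixup t₀ a g B) x) ((pl C gi.1).take gi.2))
          (pts a) (fun _ => false) = H then (1 : ℝ) else 0) := by
    intro a A B
    have hnn : ∀ gi ∈ FF, (0 : ℝ) ≤ ∑ H ∈ Med,
        (if sens (fun x => gfun C gi.1 (sg τ A (fixup t₀ a g B) x) ((pl C gi.1).take gi.2))
          (pts a) (fun _ => false) = H then (1 : ℝ) else 0) := by
      intro gi _
      apply Finset.sum_nonneg
      intro H _
      split_ifs <;> norm_num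
    by_cases hU : sens (fun x => C.eval (τ (sel A (fixup t₀ a g B) x))) (pts a)
        (fun _ => false) = univ
    · rw [if_pos hU]
      obtain ⟨g', hg', i, hi, hM1, hM2⟩ := medium C (sg τ A (fixup t₀ a g B))
        (sg_junta hτ A (fixup t₀ a g B)) (pts a) (pts_inj a)
        (by simpa using hm) (fun _ => false) hd (by
          have : sens (fun x => C.eval (sg τ A (fixup t₀ a g B) x)) (pts a)
            (fun _ => false) = univ := hU
          rw [this, Finset.card_univ, Fintype.card_fin]; omega)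
      have hmem : ((g', i) : Fin C.size × ℕ) ∈ FF := by
        rw [hFF, Finset.mem_product, Finset.mem_filter, Finset.mem_range]
        refine ⟨⟨Finset.mem_univ _, hg'⟩, ?_⟩
        have := pl_length C g'
        show i < N
        omega
      refine le_trans ?_ (Finset.single_le_sum hnn hmem)
      have hmem2 : sens (fun x => gfun C g' (sg τ A (fixup t₀ a g B) x) ((pl C g').take i))
          (pts a) (fun _ => false) ∈ Med := by
        rw [hMed, Finset.mem_filter]
        rw [Fintype.card_fin] at hM1 hM2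
        exact ⟨Finset.mem_univ _, hM1, hM2⟩
      refine le_trans ?_ (Finset.single_le_sum (f := fun H =>
        (if sens (fun x => gfun C g' (sg τ A (fixup t₀ a g B) x) ((pl C g').take i))
          (pts a) (fun _ => false) = H then (1 : ℝ) else 0))
          (fun H _ => by split_ifs <;> norm_num) hmem2)
      simp
    · rw [if_neg hU]
      exact Finset.sum_nonneg hnn
  have hsum : 𝔼 a : Fin m → V, 𝔼 A : Fin m × V → G, 𝔼 B : Fin m × V → G,
      (if sens (fun x => C.eval (τ (sel A (fixup t₀ a g B) x))) (pts a) (fun _ => false) = univ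
        then (1 : ℝ) else 0) ≤ ∑ gi ∈ FF, ∑ H ∈ Med,
        𝔼 a : Fin m → V, 𝔼 A : Fin m × V → G, 𝔼 B : Fin m × V → G,
        (if sens (fun x => gfun C gi.1 (sg τ A (fixup t₀ a g B) x) ((pl C gi.1).take gi.2))
          (pts a) (fun _ => false) = H then (1 : ℝ) else 0) := by
    refine (Finset.expect_le_expect fun a _ => Finset.expect_le_expect fun A _ =>
      Finset.expect_le_expect fun B _ => hpt a A B).trans ?_
    simp only [Finset.expect_sum_comm]
    exact le_refl _
  have hterm : ∀ gi ∈ FF, ∀ H ∈ Med,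
      𝔼 a : Fin m → V, 𝔼 A : Fin m × V → G, 𝔼 B : Fin m × V → G,
        (if sens (fun x => gfun C gi.1 (sg τ A (fixup t₀ a g B) x) ((pl C gi.1).take gi.2))
          (pts a) (fun _ => false) = H then (1 : ℝ) else 0) ≤ R := by
    intro gi hgi H hH
    rw [hFF, Finset.mem_product, Finset.mem_filter] at hgi
    rw [hMed, Finset.mem_filter] at hH
    have hne : H ≠ univ := by
      intro h
      rw [h, Finset.card_univ, Fintype.card_fin] at hH
      omega
    have h2 := gate_prob C τ hτ hk h0.le h1 t₀ g gi.1 hgi.1.2 gi.2 H hne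
    have h3 := h2.trans (hR H.card hH.2.1 hH.2.2)
    exact le_of_mul_le_mul_left h3 (by positivity)
  have hfin : ∑ gi ∈ FF, ∑ H ∈ Med,
        𝔼 a : Fin m → V, 𝔼 A : Fin m × V → G, 𝔼 B : Fin m × V → G,
        (if sens (fun x => gfun C gi.1 (sg τ A (fixup t₀ a g B) x) ((pl C gi.1).take gi.2))
          (pts a) (fun _ => false) = H then (1 : ℝ) else 0) ≤
      ((C.size * N : ℕ) : ℝ) * (2 ^ m * R) := by
    have h4 : ∀ gi ∈ FF, ∑ H ∈ Med,
        𝔼 a : Fin m → V, 𝔼 A : Fin m × V → G, 𝔼 B : Fin m × V → G,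
        (if sens (fun x => gfun C gi.1 (sg τ A (fixup t₀ a g B) x) ((pl C gi.1).take gi.2))
          (pts a) (fun _ => false) = H then (1 : ℝ) else 0) ≤ 2 ^ m * R := by
      intro gi hgi
      refine (Finset.sum_le_card_nsmul _ _ _ (hterm gi hgi)).trans ?_
      rw [nsmul_eq_mul]
      apply mul_le_mul_of_nonneg_right _ hR0
      have : Med.card ≤ 2 ^ m := by
        refine (Finset.card_le_univ _).trans ?_
        rw [Fintype.card_finset, Fintype.card_fin]
      exact_mod_cast this
    refine (Finset.sum_le_card_nsmul _ _ _ h4).trans ?_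
    rw [nsmul_eq_mul]
    apply mul_le_mul_of_nonneg_right _ (by positivity)
    rw [hFF, Finset.card_product, Finset.card_range]
    have : (univ.filter (fun g : Fin C.size => C.gateDepth g ≤ d)).card ≤ C.size := by
      refine (Finset.card_le_univ _).trans ?_
      simp
    exact_mod_cast Nat.mul_le_mul_right N this
  calc 2 ^ m * _ ≤ 2 ^ m * (((C.size * N : ℕ) : ℝ) * (2 ^ m * R)) :=
        mul_le_mul_of_nonneg_left (hsum.trans hfin) (by positivity)
    _ = 4 ^ m * ((C.size * N : ℕ) : ℝ) * R := by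
        have : (4 : ℝ) ^ m = 2 ^ m * 2 ^ m := by
          rw [← mul_pow]; norm_num
        rw [this]; ring

end Main

end Pool.Agent.W961
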