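import Mathlib
import Pool.Agent.W961.Hide4

namespace Pool.Agent.W961

open Finset DomAC0 H568R2
open scoped BigOperators

lemma exists_root (B d m n : ℕ) (hd : 1 ≤ d) (hdm : d ≤ m) (hB : 2 ≤ B) (hn : B ^ (4 * m) ≤ n) :
    ∃ τ : ℕ, B ≤ τ ∧ τ ^ (4 * d) ≤ n ∧ n ≤ τ ^ (8 * d) := by
  have hBd : B ^ (4 * d) ≤ n := (Nat.pow_le_pow_right (by omega) (by omega)).trans hn
  have hBn : B ≤ n := le_trans (by
    calc B = B ^ 1 := (pow_one B).symm
      _ ≤ B ^ (4 * d) := Nat.pow_le_pow_right (by omega) (by omega)) hBd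
  set τ := Nat.findGreatest (fun t => t ^ (4 * d) ≤ n) n with hτ
  have h1 : B ≤ τ := Nat.le_findGreatest hBn hBd
  have h2 : τ ^ (4 * d) ≤ n := Nat.findGreatest_spec (P := fun t => t ^ (4 * d) ≤ n) hBn hBd
  refine ⟨τ, h1, h2, ?_⟩
  have h3 : n < (τ + 1) ^ (4 * d) := by
    by_contra hcon
    push Not at hcon
    have h4 : τ + 1 ≤ n := le_trans (by
      calc τ + 1 = (τ + 1) ^ 1 := (pow_one _).symm
        _ ≤ (τ + 1) ^ (4 * d) := Nat.pow_le_pow_right (by omega) (by omega)) hcon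
    have := Nat.le_findGreatest (P := fun t => t ^ (4 * d) ≤ n) h4 hcon
    omega
  have h5 : τ + 1 ≤ τ ^ 2 := by nlinarith
  calc n ≤ (τ + 1) ^ (4 * d) := h3.le
    _ ≤ (τ ^ 2) ^ (4 * d) := Nat.pow_le_pow_left h5 _
    _ = τ ^ (8 * d) := by rw [← pow_mul]; congr 1; ring

lemma numeric (m d n B : ℕ) (hm : 200 ≤ m) (hd : 1 ≤ d) (hdm : d ≤ m)
    (hB : 9 * 16 ^ (KK (4 * d * m) d) ≤ B) (hn : B ^ (4 * m) ≤ n) (s j : ℕ)
    (hs : s ≤ n ^ (m / 200)) (hj : j ≤ n ^ (m / 200)) :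
    ∃ q₁ R : ℝ, 0 < q₁ ∧ q₁ ≤ 1 / 3 ∧ 0 ≤ R ∧
      (∀ c : ℕ, m ≤ 4 * c → 4 * c < 2 * m →
        ((KK (4 * d * m) d : ℝ) / n) ^ c +
          d * ((s * (j + s + 1) : ℕ) : ℝ) * (4 ^ (KK (4 * d * m) d) * (3 * q₁)) ^ (4 * d * m) ≤
          (q₁ ^ d) ^ c * R) ∧
      4 ^ m * ((s * (j + s + 1) : ℕ) : ℝ) * R ≤ 1 / (n : ℝ) ^ (m / 200) := by
  set K := KK (4 * d * m) d with hK
  have hB9 : 9 ≤ B := le_trans (by
    calc 9 = 9 * 1 := by norm_num
      _ ≤ 9 * 16 ^ K := Nat.mul_le_mul_left _ (Nat.one_le_pow _ _ (by norm_num))) hB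
  obtain ⟨τ, hτB, hτn, hnτ⟩ := exists_root B d m n hd hdm (by omega) hn
  have hτ9 : 9 ≤ τ := hB9.trans hτB
  have hτ1 : (1 : ℝ) ≤ τ := by exact_mod_cast (by omega : 1 ≤ τ)
  have hτ0 : (0 : ℝ) < τ := by linarith
  set T : ℝ := (τ : ℝ) ^ d with hT
  have hT1 : 1 ≤ T := one_le_pow₀ hτ1
  have hT0 : 0 < T := by linarith
  have hTn : T ^ 4 ≤ n := by
    rw [hT, ← pow_mul, mul_comm d 4]; exact_mod_cast hτn
  have hnT : (n : ℝ) ≤ T ^ 8 := by
    rw [hT, ← pow_mul, mul_comm d 8]; exact_mod_cast hnτ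
  have hn0 : (0 : ℝ) < n := lt_of_lt_of_le (by positivity) hTn
  have hKτ : (K : ℝ) ≤ τ := by
    have h1 : K < 16 ^ K := Nat.lt_pow_self (by norm_num)
    have h2 : 16 ^ K ≤ 9 * 16 ^ K := by omega
    exact_mod_cast (by omega : K ≤ τ)
  have hKT : (K : ℝ) ≤ T := by
    refine hKτ.trans ?_
    calc (τ : ℝ) = (τ : ℝ) ^ 1 := (pow_one _).symm
      _ ≤ (τ : ℝ) ^ d := pow_le_pow_right₀ hτ1 hd
  set N : ℕ := s * (j + s + 1) with hN
  set q₁ : ℝ := 1 / τ with hq₁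
  have hq0 : 0 < q₁ := by positivity
  have hq3 : q₁ ≤ 1 / 3 := by
    apply one_div_le_one_div_of_le (by norm_num)
    exact_mod_cast (by omega : 3 ≤ τ)
  have hqT : q₁ ^ d = 1 / T := by rw [hq₁, hT, one_div_pow]
  have hiT0 : 0 < 1 / T := by positivity
  have hiT1 : 1 / T ≤ 1 := by rw [div_le_one hT0]; exact hT1
  set R : ℝ := (1 / T) ^ (m / 2) + d * N * (1 / T) ^ m with hR
  have hR0 : 0 ≤ R := by positivity
  refine ⟨q₁, R, hq0, hq3, hR0, ?_, ?_⟩
  · intro c hc1 hc2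
    rw [hqT, hR, mul_add]
    apply add_le_add
    · have h1 : (K : ℝ) / n ≤ (1 / T) ^ 3 := by
        rw [div_le_iff₀ hn0]
        have : (1 / T) ^ 3 * T ^ 4 = T := by field_simp
        calc (K : ℝ) ≤ T := hKT
          _ = (1 / T) ^ 3 * T ^ 4 := this.symm
          _ ≤ (1 / T) ^ 3 * n := mul_le_mul_of_nonneg_left hTn (by positivity)
      calc ((K : ℝ) / n) ^ c ≤ ((1 / T) ^ 3) ^ c := pow_le_pow_left₀ (by positivity) h1 c
        _ = (1 / T) ^ c * (1 / T) ^ (2 * c) := by rw [← pow_mul, ← pow_add]; congr 1; ring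
        _ ≤ (1 / T) ^ c * (1 / T) ^ (m / 2) := by
            apply mul_le_mul_of_nonneg_left _ (by positivity)
            exact pow_le_pow_of_le_one hiT0.le hiT1 (by omega)
    · have h1 : ((4 : ℝ) ^ K * (3 * q₁)) ^ 2 ≤ 1 / τ := by
        have h2 : (9 : ℝ) * 16 ^ K ≤ τ := by exact_mod_cast hB.trans hτB
        have h3 : ((4 : ℝ) ^ K * (3 * q₁)) ^ 2 = (9 * 16 ^ K) * (1 / (τ : ℝ)) ^ 2 := by
          rw [hq₁, mul_pow, mul_pow, ← pow_mul, mul_comm K 2, pow_mul]; ring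
        rw [h3]
        calc (9 * 16 ^ K) * (1 / (τ : ℝ)) ^ 2 ≤ τ * (1 / (τ : ℝ)) ^ 2 :=
              mul_le_mul_of_nonneg_right h2 (by positivity)
          _ = 1 / τ := by field_simp
      have h4 : ((4 : ℝ) ^ K * (3 * q₁)) ^ (4 * d * m) ≤ (1 / T) ^ (2 * m) := by
        calc ((4 : ℝ) ^ K * (3 * q₁)) ^ (4 * d * m) =
              (((4 : ℝ) ^ K * (3 * q₁)) ^ 2) ^ (2 * d * m) := by
              rw [← pow_mul]; congr 1; ring
          _ ≤ (1 / (τ : ℝ)) ^ (2 * d * m) := pow_le_pow_left₀ (by positivity) h1 _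
          _ = (1 / T) ^ (2 * m) := by
              rw [hT, one_div_pow, one_div_pow, ← pow_mul]; congr 2; ring
      calc (d : ℝ) * (N : ℝ) * ((4 : ℝ) ^ K * (3 * q₁)) ^ (4 * d * m)
          ≤ d * N * (1 / T) ^ (2 * m) := mul_le_mul_of_nonneg_left h4 (by positivity)
        _ ≤ d * N * (1 / T) ^ (c + m) := by
            apply mul_le_mul_of_nonneg_left _ (by positivity)
            exact pow_le_pow_of_le_one hiT0.le hiT1 (by omega)
        _ = (1 / T) ^ c * (d * N * (1 / T) ^ m) := by rw [pow_add]; ring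
  · set μ := m / 200 with hμ
    have hμ1 : 1 ≤ μ := by omega
    have hn3 : 3 ≤ n := by
      have : B ^ 1 ≤ B ^ (4 * m) := Nat.pow_le_pow_right (by omega) (by omega)
      rw [pow_one] at this
      omega
    have h4m : 4 ^ m ≤ n := by
      calc 4 ^ m ≤ B ^ m := Nat.pow_le_pow_left (by omega) _
        _ ≤ B ^ (4 * m) := Nat.pow_le_pow_right (by omega) (by omega)
        _ ≤ n := hn
    have hmn : m + 1 ≤ n := le_trans (Nat.lt_pow_self (by norm_num)) h4m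
    have hnμ1 : 1 ≤ n ^ μ := Nat.one_le_pow _ _ (by omega)
    have hNn : N ≤ n ^ (2 * μ + 1) := by
      calc N = s * (j + s + 1) := rfl
        _ ≤ n ^ μ * (n ^ μ + n ^ μ + n ^ μ) := Nat.mul_le_mul hs (by omega)
        _ = 3 * n ^ (2 * μ) := by rw [two_mul, pow_add]; ring
        _ ≤ n * n ^ (2 * μ) := Nat.mul_le_mul_right _ hn3
        _ = n ^ (2 * μ + 1) := by rw [pow_succ]; ring
    have hdN : 1 + d * N ≤ n ^ (2 * μ + 2) := by
      have h1 : 1 ≤ n ^ (2 * μ + 1) := Nat.one_le_pow _ _ (by omega)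
      calc 1 + d * N ≤ n ^ (2 * μ + 1) + m * n ^ (2 * μ + 1) :=
            Nat.add_le_add h1 (Nat.mul_le_mul hdm hNn)
        _ = (m + 1) * n ^ (2 * μ + 1) := by ring
        _ ≤ n * n ^ (2 * μ + 1) := Nat.mul_le_mul_right _ hmn
        _ = n ^ (2 * μ + 2) := by rw [pow_succ n (2 * μ + 1)]; ring
    have hRle : R ≤ (1 + d * N) * (1 / T) ^ (m / 2) := by
      rw [hR, add_mul, one_mul]
      apply add_le_add (le_refl _)
      apply mul_le_mul_of_nonneg_left _ (by positivity)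
      exact pow_le_pow_of_le_one hiT0.le hiT1 (by omega)
    have hTm : (1 / T) ^ (m / 2) ≤ 1 / (n : ℝ) ^ (m / 16) := by
      rw [one_div_pow]
      apply one_div_le_one_div_of_le (by positivity)
      calc (n : ℝ) ^ (m / 16) ≤ (T ^ 8) ^ (m / 16) := pow_le_pow_left₀ hn0.le hnT _
        _ = T ^ (8 * (m / 16)) := by rw [← pow_mul]
        _ ≤ T ^ (m / 2) := pow_le_pow_right₀ hT1 (by omega)
    have hn1 : (1 : ℝ) ≤ n := by exact_mod_cast (by omega : 1 ≤ n)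
    calc 4 ^ m * (N : ℝ) * R ≤ 4 ^ m * (N : ℝ) * ((1 + d * N) * (1 / (n : ℝ) ^ (m / 16))) := by
          apply mul_le_mul_of_nonneg_left _ (by positivity)
          exact hRle.trans (mul_le_mul_of_nonneg_left hTm (by positivity))
      _ = (((4 ^ m * N * (1 + d * N) : ℕ)) : ℝ) * (1 / (n : ℝ) ^ (m / 16)) := by
          push_cast; ring
      _ ≤ ((n ^ (4 * μ + 4) : ℕ) : ℝ) * (1 / (n : ℝ) ^ (m / 16)) := by
          apply mul_le_mul_of_nonneg_right _ (by positivity)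
          have : 4 ^ m * N * (1 + d * N) ≤ n ^ (4 * μ + 4) := by
            calc 4 ^ m * N * (1 + d * N) ≤ n * n ^ (2 * μ + 1) * n ^ (2 * μ + 2) :=
                  Nat.mul_le_mul (Nat.mul_le_mul h4m hNn) hdN
              _ = n ^ (4 * μ + 4) := by
                  rw [← pow_succ', ← pow_add]; congr 1; ring
          exact_mod_cast this
      _ ≤ 1 / (n : ℝ) ^ μ := by
          rw [mul_one_div, div_le_div_iff₀ (by positivity) (by positivity), one_mul]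
          push_cast
          rw [← pow_add]
          exact pow_le_pow_right₀ hn1 (by omega)

end Pool.Agent.W961
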