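import Mathlib
import Pool.Agent.W961.Num

namespace Pool.Agent.W961

open Finset DomAC0 H568R2
open scoped BigOperators

/-- how large the number of points has to be -/
def Bf (m : ℕ) : ℕ := 9 * 16 ^ (∑ d ∈ Finset.range (m + 1), KK (4 * d * m) d)

/-- the threshold -/
def thr (m : ℕ) : ℕ := Bf m ^ (4 * m)

lemma Bf_ge (m d : ℕ) (hd : d ≤ m) : 9 * 16 ^ (KK (4 * d * m) d) ≤ Bf m := by
  unfold Bf
  apply Nat.mul_le_mul_left
  apply Nat.pow_le_pow_right (by norm_num)
  exact Finset.single_le_sum (f := fun d => KK (4 * d * m) d) (fun _ _ => Nat.zero_le _)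
    (Finset.mem_range.2 (by omega))

lemma two_pow_le_thr (m : ℕ) : 2 ^ m ≤ thr m := by
  unfold thr
  calc 2 ^ m ≤ Bf m ^ m := Nat.pow_le_pow_left (by
        unfold Bf
        have : 1 ≤ 16 ^ (∑ d ∈ Finset.range (m + 1), KK (4 * d * m) d) :=
          Nat.one_le_pow _ _ (by norm_num)
        omega) _
    _ ≤ Bf m ^ (4 * m) := Nat.pow_le_pow_right (by
        unfold Bf
        have : 1 ≤ 16 ^ (∑ d ∈ Finset.range (m + 1), KK (4 * d * m) d) :=
          Nat.one_le_pow _ _ (by norm_num)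
        omega) (by omega)

/-- the number of planted positions -/
def mo (n : ℕ) : ℕ := Nat.findGreatest (fun m => thr m ≤ n) n

lemma mo_spec (n : ℕ) (h : mo n ≠ 0) : thr (mo n) ≤ n :=
  Nat.findGreatest_of_ne_zero (P := fun m => thr m ≤ n) rfl h

lemma le_mo {m n : ℕ} (h : thr m ≤ n) : m ≤ mo n := by
  have h1 : m ≤ n := (Nat.lt_pow_self (by norm_num : 1 < 2)).le.trans ((two_pow_le_thr m).trans h)
  exact Nat.le_findGreatest (P := fun m => thr m ≤ n) h1 h

section Main
variable {m : ℕ} {V G : Type} [DecidableEq V] [AddCommGroup G] [Fintype V] [Fintype G]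
variable {J : Type} [Fintype J]

/-- The hiding lemma with explicit parameters. -/
theorem hide_fin (hm : 200 ≤ m) (hthr : thr m ≤ Fintype.card V) (C : Circuit J)
    (τ : (Fin m × V → G) → (J → Bool))
    (hτ : ∀ j, ∃ i, ∀ X Y : Fin m × V → G, X i = Y i → τ X j = τ Y j)
    (hd : C.depth ≤ m) (hs : C.size ≤ Fintype.card V ^ (m / 200))
    (hj : Fintype.card J ≤ Fintype.card V ^ (m / 200)) (t₀ : Fin m) (g : G) :
    |𝔼 a : Fin m → V, 𝔼 X : Fin m × V → G, ind (C.eval (τ (fixup t₀ a g X))) -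
      𝔼 X : Fin m × V → G, ind (C.eval (τ X))| ≤ 1 / (Fintype.card V : ℝ) ^ (m / 200) := by
  have hn : 0 < Fintype.card V := lt_of_lt_of_le (by
    have := two_pow_le_thr m
    have h2 : 1 ≤ 2 ^ m := Nat.one_le_pow _ _ (by norm_num)
    omega) hthr
  have : Nonempty V := Fintype.card_pos_iff.1 hn
  obtain ⟨q₁, R, h0, h1, hR0, hR, hfin⟩ := numeric m m (Fintype.card V) (Bf m) hm (by omega)
    (le_refl m) (Bf_ge m m (le_refl m)) hthr C.size (Fintype.card J) hs hj
  refine (hidden (by omega) C τ hτ (k := 4 * m * m) (by nlinarith) (d := m) hd h0 h1 t₀ g R hR0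
    ?_).trans hfin
  intro c hc1 hc2
  exact hR c hc1 hc2

end Main

section Unfix
variable {m : ℕ} {V G : Type} [DecidableEq V] [AddCommGroup G] [Fintype V] [Fintype G]

/-- A uniform `Y` with its sum over the points. -/
lemma unfix (t₀ : Fin m) (c : Fin m → V) (Ψ : (Fin m × V → G) → G → ℝ) :
    𝔼 Y : Fin m × V → G, Ψ Y (∑ t, Y (t, c t)) =
      𝔼 g : G, 𝔼 Y : Fin m × V → G, Ψ (fixup t₀ c g Y) g := by
  classical
  have h1 : 𝔼 g : G, 𝔼 Y : Fin m × V → G, Ψ (fixup t₀ c g Y) g =
      𝔼 p : G × (Fin m × V → G), Ψ (fixup t₀ c p.1 p.2) p.1 := by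
    rw [← Finset.univ_product_univ, Finset.expect_product]
  have h2 : 𝔼 Y : Fin m × V → G, Ψ Y (∑ t, Y (t, c t)) =
      𝔼 p : G × (Fin m × V → G), Ψ p.2 (∑ t, p.2 (t, c t)) := by
    rw [← Finset.univ_product_univ, Finset.expect_product]
    exact (Fintype.expect_const _).symm
  rw [h1, h2]
  symm
  have hinj : Function.Injective (fun p : G × (Fin m × V → G) =>
      ((p.2 (t₀, c t₀), fixup t₀ c p.1 p.2) : G × (Fin m × V → G))) := by
    rintro ⟨g, Y⟩ ⟨g', Y'⟩ h
    simp only [Prod.mk.injEq] at h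
    obtain ⟨ha, hb⟩ := h
    have hoth : ∀ i, i ≠ (t₀, c t₀) → Y i = Y' i := by
      intro i hi
      have := congrFun hb i
      unfold fixup at this
      rwa [Function.update_of_ne hi, Function.update_of_ne hi] at this
    have hY : Y = Y' := by
      funext i
      by_cases hi : i = (t₀, c t₀)
      · rw [hi, ha]
      · exact hoth i hi
    subst hY
    have hg := congrFun hb (t₀, c t₀)
    unfold fixup at hg
    rw [Function.update_self, Function.update_self] at hg
    have : g = g' := sub_left_injective hg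
    rw [this]
  refine Fintype.expect_bijective _ (Finite.injective_iff_bijective.1 hinj) _ _ ?_
  rintro ⟨g, Y⟩
  simp only
  rw [fixup_sum]

end Unfix

end Pool.Agent.W961
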