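import Mathlib
import Pool.Agent.W961.Param

namespace Pool.Agent.W961

open Finset DomAC0 H568R2
open scoped BigOperators

/-- the points: `m` blocks of `2 ^ ℓ` points each -/
abbrev Pt (m ℓ : ℕ) : Type := Fin m × (Fin ℓ → Bool)

/-- matrices over the field with two elements, columns first -/
abbrev Mat (m ℓ : ℕ) : Type := Pt m ℓ → (Pt m ℓ → ZMod 2)

/-- vectors -/
abbrev Vec (m ℓ : ℕ) : Type := Pt m ℓ → ZMod 2

lemma card_V (ℓ : ℕ) : Fintype.card (Fin ℓ → Bool) = 2 ^ ℓ := by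
  rw [Fintype.card_fun, Fintype.card_bool, Fintype.card_fin]

section Main
variable {m ℓ : ℕ} {J : Type} [Fintype J]

/-- advantage bound -/
noncomputable def dl (m ℓ : ℕ) : ℝ := 1 / ((2 : ℝ) ^ ℓ) ^ (m / 200)

/-- Planting a relation between columns is not noticed. -/
theorem col_hide (hm : 200 ≤ m) (hthr : thr m ≤ 2 ^ ℓ) (C : Circuit J)
    (τ : Mat m ℓ → (J → Bool)) (hτ : ∀ j, ∃ t, ∀ X Y : Mat m ℓ, X t = Y t → τ X j = τ Y j)
    (hd : C.depth ≤ m) (hs : C.size ≤ (2 ^ ℓ) ^ (m / 200))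
    (hj : Fintype.card J ≤ (2 ^ ℓ) ^ (m / 200)) (t₀ : Fin m) :
    |𝔼 a : Fin m → (Fin ℓ → Bool), 𝔼 X : Mat m ℓ, ind (C.eval (τ (fixup t₀ a 0 X))) -
      𝔼 X : Mat m ℓ, ind (C.eval (τ X))| ≤ dl m ℓ := by
  have h := hide_fin (m := m) (V := Fin ℓ → Bool) (G := Vec m ℓ) hm (by rw [card_V]; exact hthr)
    C τ hτ hd (by rw [card_V]; exact hs) (by rw [card_V]; exact hj) t₀ 0
  rw [card_V] at h
  unfold dl
  push_cast at h
  exact h

/-- transposed matrix -/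
def tr (X : Mat m ℓ) : Mat m ℓ := fun t s => X s t

lemma expect_tr (Φ : Mat m ℓ → ℝ) : 𝔼 X : Mat m ℓ, Φ (tr X) = 𝔼 X : Mat m ℓ, Φ X := by
  apply Fintype.expect_equiv
    (e := ({ toFun := tr, invFun := tr, left_inv := fun _ => rfl, right_inv := fun _ => rfl } :
      Mat m ℓ ≃ Mat m ℓ))
  intro X
  rfl

/-- The sum of few random rows of a uniform matrix looks uniform. -/
theorem row_hide (hm : 200 ≤ m) (hthr : thr m ≤ 2 ^ ℓ) (C : Circuit J)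
    (τ : Mat m ℓ → Vec m ℓ → (J → Bool))
    (hτ : ∀ u j, ∃ s, ∀ X Y : Mat m ℓ, (∀ t, X t s = Y t s) → τ X u j = τ Y u j)
    (hd : C.depth ≤ m) (hs : C.size ≤ (2 ^ ℓ) ^ (m / 200))
    (hj : Fintype.card J ≤ (2 ^ ℓ) ^ (m / 200)) (t₀ : Fin m) (e : Vec m ℓ) :
    |𝔼 c : Fin m → (Fin ℓ → Bool), 𝔼 X : Mat m ℓ,
        ind (C.eval (τ X (fun t => ∑ s, X t (s, c s) + e t))) -
      𝔼 X : Mat m ℓ, 𝔼 u : Vec m ℓ, ind (C.eval (τ X u))| ≤ dl m ℓ := by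
  classical
  have h1 : ∀ c : Fin m → (Fin ℓ → Bool), 𝔼 X : Mat m ℓ,
      ind (C.eval (τ X (fun t => ∑ s, X t (s, c s) + e t))) =
      𝔼 g : Vec m ℓ, 𝔼 Y : Mat m ℓ, ind (C.eval (τ (tr (fixup t₀ c g Y)) (g + e))) := by
    intro c
    have h2 := unfix (V := Fin ℓ → Bool) (G := Vec m ℓ) t₀ c
      (fun Y g => ind (C.eval (τ (tr Y) (g + e))))
    rw [← h2, ← expect_tr]
    refine Finset.expect_congr rfl fun Y _ => ?_
    congr 3
    funext t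
    simp only [tr, Pi.add_apply, Finset.sum_apply]
  have h3 : 𝔼 X : Mat m ℓ, 𝔼 u : Vec m ℓ, ind (C.eval (τ X u)) =
      𝔼 g : Vec m ℓ, 𝔼 Y : Mat m ℓ, ind (C.eval (τ (tr Y) (g + e))) := by
    rw [Finset.expect_comm]
    symm
    apply Fintype.expect_equiv (e := Equiv.addRight e)
    intro g
    rw [expect_tr (fun Y => ind (C.eval (τ Y (g + e))))]
    rfl
  have h4 : ∀ g : Vec m ℓ, |𝔼 c : Fin m → (Fin ℓ → Bool), 𝔼 Y : Mat m ℓ,
      ind (C.eval (τ (tr (fixup t₀ c g Y)) (g + e))) -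
      𝔼 Y : Mat m ℓ, ind (C.eval (τ (tr Y) (g + e)))| ≤ dl m ℓ := by
    intro g
    have h := hide_fin (m := m) (V := Fin ℓ → Bool) (G := Vec m ℓ) hm (by rw [card_V]; exact hthr)
      C (fun Y => τ (tr Y) (g + e)) (by
        intro j
        obtain ⟨s, hs⟩ := hτ (g + e) j
        refine ⟨s, fun X Y hXY => hs _ _ fun t => ?_⟩
        exact congrFun hXY t)
      hd (by rw [card_V]; exact hs) (by rw [card_V]; exact hj) t₀ g
    rw [card_V] at h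
    unfold dl
    push_cast at h
    exact h
  have h5 : 𝔼 c : Fin m → (Fin ℓ → Bool), 𝔼 X : Mat m ℓ,
        ind (C.eval (τ X (fun t => ∑ s, X t (s, c s) + e t))) -
      𝔼 X : Mat m ℓ, 𝔼 u : Vec m ℓ, ind (C.eval (τ X u)) =
      𝔼 g : Vec m ℓ, (𝔼 c : Fin m → (Fin ℓ → Bool), 𝔼 Y : Mat m ℓ,
      ind (C.eval (τ (tr (fixup t₀ c g Y)) (g + e))) -
      𝔼 Y : Mat m ℓ, ind (C.eval (τ (tr Y) (g + e)))) := by
    have h6 : 𝔼 c : Fin m → (Fin ℓ → Bool), 𝔼 X : Mat m ℓ,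
        ind (C.eval (τ X (fun t => ∑ s, X t (s, c s) + e t))) =
        𝔼 g : Vec m ℓ, 𝔼 c : Fin m → (Fin ℓ → Bool), 𝔼 Y : Mat m ℓ,
          ind (C.eval (τ (tr (fixup t₀ c g Y)) (g + e))) :=
      (Finset.expect_congr rfl fun c _ => h1 c).trans (Finset.expect_comm _ _ _)
    rw [h6, h3, ← Finset.expect_sub_distrib]
  rw [h5]
  refine (Finset.abs_expect_le _ _).trans ?_
  refine (Finset.expect_le_expect fun g _ => h4 g).trans ?_
  rw [Fintype.expect_const]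

end Main

end Pool.Agent.W961
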