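import Mathlib
import Pool.Agent.W961.Circ
import Pool.Agent.W961.Sec

namespace Pool.Agent.W961

open Finset DomAC0 H568R2
open scoped BigOperators

/-- bit to field element -/
def b2z (b : Bool) : ZMod 2 := if b then 1 else 0
/-- field element to bit -/
def z2b (z : ZMod 2) : Bool := decide (z = 1)

lemma z2b_b2z (b : Bool) : z2b (b2z b) = b := by cases b <;> decide
lemma b2z_z2b (z : ZMod 2) : b2z (z2b z) = z := by
  revert z; decide

/-- bits and field elements -/
def zEquiv : Bool ≃ ZMod 2 := ⟨b2z, z2b, z2b_b2z, b2z_z2b⟩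

section Sel
variable {J : Type} {ℓ : ℕ}

lemma Cir.lit (j : J) (b : Bool) : Cir 1 1 (fun x : J → Bool => if b then x j else !x j) := by
  cases b with
  | true =>
    exact ((Cir.var j).mono (Nat.zero_le 1) (Nat.zero_le 1)).congr (fun x => by simp)
  | false =>
    exact ((Cir.var j).not).congr (fun x => by simp)

lemma Cir.eq (α : Fin ℓ → J) (v : Fin ℓ → Bool) :
    Cir (ℓ * 1 + 1) 2 (fun x : J → Bool => decide ((fun b => x (α b)) = v)) := by
  classical
  refine (Cir.and_fin (f := fun b x => if v b then x (α b) else !x (α b))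
    (fun b => Cir.lit (α b) (v b))).congr ?_
  intro x
  rw [decide_eq_decide]
  constructor
  · intro h
    funext b
    have := h b
    cases hv : v b
    · rw [hv] at this; simpa using this
    · rw [hv] at this; simpa using this
  · intro h b
    rw [← h]
    cases hx : x (α b) <;> simp [hx]

/-- reading the bit at a given address -/
lemma Cir.sel (α : Fin ℓ → J) (β : (Fin ℓ → Bool) → J) :
    Cir (2 ^ ℓ * ((ℓ + 1) * 1 + 1) + 1) 3 (fun x : J → Bool => x (β (fun b => x (α b)))) := by
  classical
  have h1 : ∀ v : Fin ℓ → Bool, Cir (Fintype.card (Option (Fin ℓ)) * 1 + 1) 2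
      (fun x : J → Bool => decide (∀ o : Option (Fin ℓ),
        (Option.elim o (x (β v)) (fun b => if v b then x (α b) else !x (α b))) = true)) := by
    intro v
    apply Cir.and (f := fun (o : Option (Fin ℓ)) (x : J → Bool) =>
      (Option.elim o (x (β v)) (fun b => if v b then x (α b) else !x (α b))))
    intro o
    cases o with
    | none => exact (Cir.var (β v)).mono (Nat.zero_le 1) (Nat.zero_le 1)
    | some b => exact Cir.lit (α b) (v b)
  have h2 := Cir.or (f := fun (v : Fin ℓ → Bool) (x : J → Bool) =>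
    decide (∀ o : Option (Fin ℓ),
        (Option.elim o (x (β v)) (fun b => if v b then x (α b) else !x (α b))) = true)) h1
  rw [Fintype.card_option, Fintype.card_fin, card_V] at h2
  refine h2.congr ?_
  intro x
  rw [Bool.eq_iff_iff, decide_eq_true_iff]
  constructor
  · rintro ⟨v, hv⟩
    rw [decide_eq_true_iff] at hv
    have h3 : (fun b => x (α b)) = v := by
      funext b
      have := hv (some b)
      simp only [Option.elim_some] at this
      cases hvb : v b
      · rw [hvb] at this; simpa using this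
      · rw [hvb] at this; simpa using this
    have h4 := hv none
    simp only [Option.elim_none] at h4
    rw [h3]
    exact h4
  · intro hx
    refine ⟨fun b => x (α b), ?_⟩
    rw [decide_eq_true_iff]
    intro o
    cases o with
    | none => exact hx
    | some b =>
      simp only [Option.elim_some]
      by_cases hxb : x (α b) = true <;> simp [hxb]

end Sel

section Scheme
variable {m ℓ : ℕ}

/-- index set of addresses -/
abbrev Ad (m ℓ : ℕ) : Type := Fin m × Fin ℓ

/-- reading addresses -/
def addr (x : Ad m ℓ → Bool) : Fin m → (Fin ℓ → Bool) := fun t b => x (t, b)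

/-- reading a matrix -/
def mat (x : Pt m ℓ × Pt m ℓ → Bool) : Mat m ℓ := fun t s => b2z (x (t, s))

/-- reading a vector -/
def vec (x : Pt m ℓ → Bool) : Vec m ℓ := fun t => b2z (x t)

/-- writing a matrix -/
def bitsM (X : Mat m ℓ) : Pt m ℓ × Pt m ℓ → Bool := fun p => z2b (X p.1 p.2)

/-- writing a vector -/
def bitsV (u : Vec m ℓ) : Pt m ℓ → Bool := fun t => z2b (u t)

lemma mat_bitsM (X : Mat m ℓ) : mat (bitsM X) = X := by
  funext t s; exact b2z_z2b _

lemma vec_bitsV (u : Vec m ℓ) : vec (bitsV u) = u := by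
  funext t; exact b2z_z2b _

/-- the vector added for the message `b` -/
def msgV (t₀ : Fin m) (b : Bool) : Vec m ℓ := fun t => if t.1 = t₀ then b2z b else 0

/-- encryption -/
def encZ (t₀ : Fin m) (b : Bool) (X : Mat m ℓ) (c : Fin m → (Fin ℓ → Bool)) : Vec m ℓ :=
  fun t => ∑ s, X t (s, c s) + msgV t₀ b t

/-- decryption -/
def decZ (a : Fin m → (Fin ℓ → Bool)) (u : Vec m ℓ) : ZMod 2 := ∑ t, u (t, a t)

lemma dec_enc (t₀ : Fin m) (b : Bool) (a c : Fin m → (Fin ℓ → Bool)) (X : Mat m ℓ) :
    decZ a (encZ t₀ b (fixup t₀ a 0 X) c) = b2z b := by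
  unfold decZ encZ
  rw [Finset.sum_add_distrib, Finset.sum_comm]
  have h1 : ∑ s, ∑ t, fixup t₀ a 0 X (t, a t) (s, c s) = 0 := by
    apply Finset.sum_eq_zero
    intro s _
    rw [← Finset.sum_apply, fixup_sum]
    rfl
  rw [h1, zero_add]
  unfold msgV
  simp

variable {J : Type}

/-- circuit size of the honest algorithms -/
def sz (m ℓ : ℕ) : ℕ :=
  2 ^ (m + 2) * ((m + 2) * (2 ^ ℓ * ((ℓ + 1) * 1 + 1) + 1 + 1) + 1) + 1

lemma sz_le (m ℓ : ℕ) : 2 ^ m * (m * (2 ^ ℓ * ((ℓ + 1) * 1 + 1) + 1 + 1) + 1) + 1 ≤ sz m ℓ := by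
  unfold sz
  apply Nat.add_le_add_right
  apply Nat.mul_le_mul (Nat.pow_le_pow_right (by norm_num) (by omega))
  apply Nat.add_le_add_right
  exact Nat.mul_le_mul_right _ (by omega)

/-- a bit of the public key -/
lemma Cir.pubBit (t₀ : Fin m) (α : Ad m ℓ → J) (β : Pt m ℓ × Pt m ℓ → J)
    (p : Pt m ℓ × Pt m ℓ) :
    Cir (sz m ℓ) 6 (fun x : J → Bool => z2b (fixup t₀ (addr (fun i => x (α i))) 0
      (mat (fun i => x (β i))) p.1 p.2)) := by
  classical
  obtain ⟨⟨τ, v⟩, s⟩ := p
  have h := Cir.small (K := Option (Option (Fin m))) (J := J)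
    (s := 2 ^ ℓ * ((ℓ + 1) * 1 + 1) + 1) (d := 3)
    (f := fun o x => Option.elim o (decide ((fun b => x (α (t₀, b))) = v))
      (fun o' => Option.elim o' (x (β ((τ, v), s)))
        (fun t => x (β ((t, fun b => x (α (t, b))), s))))) (by
      intro o
      cases o with
      | none =>
        refine (Cir.eq (fun b => α (t₀, b)) v).mono ?_ (by norm_num)
        have : 1 ≤ 2 ^ ℓ := Nat.one_le_pow _ _ (by norm_num)
        nlinarith
      | some o' =>
        cases o' with
        | none => exact (Cir.var _).mono (Nat.zero_le _) (Nat.zero_le _)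
        | some t => exact Cir.sel (fun b => α (t, b)) (fun w => β ((t, w), s)))
    (fun y => cond (decide (τ = t₀) && y none)
      (z2b (0 - ∑ t ∈ univ.erase t₀, b2z (y (some (some t))))) (y (some none)))
  rw [Fintype.card_option, Fintype.card_option, Fintype.card_fin] at h
  refine h.congr ?_
  intro x
  simp only [Option.elim_none, Option.elim_some]
  by_cases h1 : (decide (τ = t₀) && decide ((fun b => x (α (t₀, b))) = v)) = true
  · rw [h1, cond_true]
    rw [Bool.and_eq_true, decide_eq_true_iff, decide_eq_true_iff] at h1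
    obtain ⟨h2, h3⟩ := h1
    subst h2
    have h4 : ((τ, v) : Pt m ℓ) = (τ, addr (fun i => x (α i)) τ) := by
      rw [← h3]; rfl
    unfold fixup
    rw [h4, Function.update_self]
    simp only [Pi.sub_apply, Pi.zero_apply, Finset.sum_apply]
    rfl
  · rw [Bool.eq_false_of_not_eq_true h1, cond_false]
    rw [Bool.and_eq_true, decide_eq_true_iff, decide_eq_true_iff] at h1
    unfold fixup
    rw [Function.update_of_ne]
    · unfold mat
      rw [z2b_b2z]
    · intro h2
      apply h1
      have h3 := (Prod.ext_iff.1 h2).1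
      have h4 := (Prod.ext_iff.1 h2).2
      simp only at h3 h4
      exact ⟨h3, by rw [h4]; rfl⟩

/-- a bit of the ciphertext -/
lemma Cir.encBit (t₀ : Fin m) (b : Bool) (α : Ad m ℓ → J) (β : Pt m ℓ × Pt m ℓ → J)
    (t : Pt m ℓ) :
    Cir (sz m ℓ) 6 (fun x : J → Bool => z2b (encZ t₀ b (mat (fun i => x (β i)))
      (addr (fun i => x (α i))) t)) := by
  classical
  have h := Cir.small (K := Fin m) (J := J)
    (s := 2 ^ ℓ * ((ℓ + 1) * 1 + 1) + 1) (d := 3)
    (f := fun s x => x (β (t, (s, fun i => x (α (s, i))))))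
    (fun s => Cir.sel (fun i => α (s, i)) (fun w => β (t, (s, w))))
    (fun y => z2b (∑ s, b2z (y s) + msgV (ℓ := ℓ) t₀ b t))
  rw [Fintype.card_fin] at h
  exact (h.mono (sz_le m ℓ) (le_refl _)).congr (fun x => rfl)

/-- the decrypted bit -/
lemma Cir.decBit (α : Ad m ℓ → J) (β : Pt m ℓ → J) :
    Cir (sz m ℓ) 6 (fun x : J → Bool => z2b (decZ (addr (fun i => x (α i)))
      (vec (fun i => x (β i))))) := by
  classical
  have h := Cir.small (K := Fin m) (J := J)
    (s := 2 ^ ℓ * ((ℓ + 1) * 1 + 1) + 1) (d := 3)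
    (f := fun t x => x (β (t, fun i => x (α (t, i)))))
    (fun t => Cir.sel (fun i => α (t, i)) (fun w => β (t, w)))
    (fun y => z2b (∑ t, b2z (y t)))
  rw [Fintype.card_fin] at h
  exact (h.mono (sz_le m ℓ) (le_refl _)).congr (fun x => rfl)

end Scheme

end Pool.Agent.W961
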