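import Mathlib
import Pool.Agent.W961.Honest

namespace Pool.Agent.W961

open Finset DomAC0 H568R2
open scoped BigOperators

/-- address length -/
def ll (k : ℕ) : ℕ := Nat.log 2 k

/-- one less than the number of planted positions -/
def MM (k : ℕ) : ℕ := mo (2 ^ ll k) - 1

lemma n_le (k : ℕ) : 2 ^ ll k ≤ k + 1 := by
  rcases Nat.eq_zero_or_pos k with h | h
  · subst h; simp [ll]
  · exact (Nat.pow_log_le_self 2 (by omega)).trans (Nat.le_succ k)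

lemma k_lt (k : ℕ) : k + 1 ≤ 2 * 2 ^ ll k := by
  have := Nat.lt_pow_succ_log_self (by norm_num : 1 < 2) k
  rw [pow_succ] at this
  unfold ll
  omega

lemma two_pow_m (k : ℕ) : 2 ^ (MM k + 1) ≤ 2 * (k + 1) := by
  unfold MM
  by_cases h : mo (2 ^ ll k) = 0
  · rw [h]; simp
  · have h1 := mo_spec _ h
    have h2 := two_pow_le_thr (mo (2 ^ ll k))
    have h3 := n_le k
    have h4 : mo (2 ^ ll k) - 1 + 1 = mo (2 ^ ll k) := by omega
    rw [h4]
    omega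

lemma poly_bound (c a : ℕ) : ∃ e : ℕ, ∀ k : ℕ, c * (k + 1) ^ a ≤ k ^ e + e := by
  refine ⟨2 * a + c + c * 2 ^ a, fun k => ?_⟩
  rcases Nat.lt_or_ge k 2 with h | h
  · have h1 : (k + 1) ^ a ≤ 2 ^ a := Nat.pow_le_pow_left (by omega) a
    have h2 : c * (k + 1) ^ a ≤ c * 2 ^ a := Nat.mul_le_mul_left _ h1
    omega
  · have h1 : k + 1 ≤ k ^ 2 := by nlinarith
    have h2 : (k + 1) ^ a ≤ k ^ (2 * a) := by
      rw [pow_mul]; exact Nat.pow_le_pow_left h1 a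
    have h3 : c ≤ k ^ c := (Nat.lt_pow_self (by omega : 1 < k)).le
    have h4 : c * (k + 1) ^ a ≤ k ^ (2 * a + c) := by
      rw [pow_add, mul_comm]
      exact Nat.mul_le_mul h2 h3
    have h5 : k ^ (2 * a + c) ≤ k ^ (2 * a + c + c * 2 ^ a) :=
      Nat.pow_le_pow_right (by omega) (by omega)
    omega

lemma m_le (k : ℕ) : MM k + 1 ≤ 2 * (k + 1) :=
  (Nat.lt_pow_self (by norm_num : 1 < 2)).le.trans (two_pow_m k)

lemma l_le (k : ℕ) : ll k ≤ k + 1 :=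
  (Nat.lt_pow_self (by norm_num : 1 < 2)).le.trans (n_le k)

lemma sz_bound (k : ℕ) : sz (MM k + 1) (ll k) ≤ 200 * (k + 1) ^ 4 := by
  unfold sz
  have h1 := two_pow_m k
  have h2 := m_le k
  have h3 := l_le k
  have h4 := n_le k
  set K := k + 1 with hK
  have hK1 : 1 ≤ K := by omega
  have a1 : 2 ^ ll k * ((ll k + 1) * 1 + 1) + 1 + 1 ≤ 5 * K ^ 2 := by
    calc 2 ^ ll k * ((ll k + 1) * 1 + 1) + 1 + 1 ≤ K * ((K + 1) * 1 + 1) + 1 + 1 := by gcongr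
      _ ≤ 5 * K ^ 2 := by nlinarith
  have a2 : (MM k + 1 + 2) * (2 ^ ll k * ((ll k + 1) * 1 + 1) + 1 + 1) + 1 ≤ 21 * K ^ 3 := by
    calc (MM k + 1 + 2) * (2 ^ ll k * ((ll k + 1) * 1 + 1) + 1 + 1) + 1
        ≤ (4 * K) * (5 * K ^ 2) + 1 := by
          apply Nat.add_le_add_right
          exact Nat.mul_le_mul (by omega) a1
      _ ≤ 21 * K ^ 3 := by
          have : 1 ≤ K ^ 3 := Nat.one_le_pow _ _ (by omega)
          nlinarith
  have a3 : 2 ^ (MM k + 1 + 2) ≤ 8 * K := by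
    rw [pow_add]; omega
  calc _ ≤ (8 * K) * (21 * K ^ 3) + 1 := by
        apply Nat.add_le_add_right
        exact Nat.mul_le_mul a3 a2
    _ ≤ 200 * K ^ 4 := by
        have : 1 ≤ K ^ 4 := Nat.one_le_pow _ _ (by omega)
        nlinarith

lemma card_Pt (m ℓ : ℕ) : Fintype.card (Pt m ℓ) = m * 2 ^ ℓ := by
  rw [Fintype.card_prod, Fintype.card_fin, card_V]

lemma Pt_bound (k : ℕ) : Fintype.card (Pt (MM k + 1) (ll k)) ≤ 2 * (k + 1) ^ 2 := by
  rw [card_Pt]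
  calc _ ≤ (2 * (k + 1)) * (k + 1) := Nat.mul_le_mul (m_le k) (n_le k)
    _ = 2 * (k + 1) ^ 2 := by ring

lemma PtPt_bound (k : ℕ) :
    Fintype.card (Pt (MM k + 1) (ll k) × Pt (MM k + 1) (ll k)) ≤ 4 * (k + 1) ^ 4 := by
  rw [Fintype.card_prod]
  calc _ ≤ (2 * (k + 1) ^ 2) * (2 * (k + 1) ^ 2) := Nat.mul_le_mul (Pt_bound k) (Pt_bound k)
    _ = 4 * (k + 1) ^ 4 := by ring

lemma Ad_bound (k : ℕ) : Fintype.card (Ad (MM k + 1) (ll k)) ≤ 2 * (k + 1) ^ 2 := by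
  rw [Fintype.card_prod, Fintype.card_fin, Fintype.card_fin]
  calc _ ≤ (2 * (k + 1)) * (k + 1) := Nat.mul_le_mul (m_le k) (l_le k)
    _ = 2 * (k + 1) ^ 2 := by ring

lemma m_tendsto (A : ℕ) : ∀ᶠ k in Filter.atTop, A ≤ MM k + 1 ∧ thr (MM k + 1) ≤ 2 ^ ll k := by
  filter_upwards [Filter.eventually_ge_atTop (2 * thr (A + 1))] with k hk
  have h1 := k_lt k
  have h2 : thr (A + 1) ≤ 2 ^ ll k := by omega
  have h3 := le_mo h2
  have h4 : mo (2 ^ ll k) - 1 + 1 = mo (2 ^ ll k) := by omega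
  have h5 := mo_spec (2 ^ ll k) (by omega)
  unfold MM
  rw [h4]
  exact ⟨by omega, h5⟩

/-- the parameters are good for all large `k` -/
lemma eventually_good (d e p c : ℕ) : ∀ᶠ k in Filter.atTop,
    200 ≤ MM k + 1 ∧ thr (MM k + 1) ≤ 2 ^ ll k ∧ d ≤ MM k + 1 ∧
    c * (k + 1) ^ e ≤ (2 ^ ll k) ^ ((MM k + 1) / 200) ∧
    (c : ℝ) * dl (MM k + 1) (ll k) ≤ 1 / (k : ℝ) ^ p := by
  filter_upwards [m_tendsto (200 * (d + 2 * e + 2 * p + c + 4)),
    Filter.eventually_ge_atTop 1] with k hk hk1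
  obtain ⟨h1, h2⟩ := hk
  set m := MM k + 1 with hm
  set n := 2 ^ ll k with hn
  have h3 := two_pow_le_thr m
  have hmn : m ≤ n := (Nat.lt_pow_self (by norm_num : 1 < 2)).le.trans (h3.trans h2)
  have hn4 : 4 ≤ n := by omega
  have hcn : c ≤ n := by omega
  have hk2 : k + 1 ≤ n ^ 2 := by
    have := k_lt k
    nlinarith
  have hpow : ∀ a, c * (k + 1) ^ a ≤ n ^ (2 * a + 1) := by
    intro a
    calc c * (k + 1) ^ a ≤ n * (n ^ 2) ^ a := Nat.mul_le_mul hcn (Nat.pow_le_pow_left hk2 a)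
      _ = n ^ (2 * a + 1) := by rw [← pow_mul, pow_succ]; ring
  refine ⟨by omega, h2, by omega, ?_, ?_⟩
  · exact (hpow e).trans (Nat.pow_le_pow_right (by omega) (by omega))
  · unfold dl
    have h5 : c * k ^ p ≤ n ^ (m / 200) := by
      calc c * k ^ p ≤ c * (k + 1) ^ p := Nat.mul_le_mul_left _ (Nat.pow_le_pow_left (by omega) _)
        _ ≤ n ^ (2 * p + 1) := hpow p
        _ ≤ n ^ (m / 200) := Nat.pow_le_pow_right (by omega) (by omega)
    have hkp : (0 : ℝ) < (k : ℝ) ^ p := by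
      have : (0 : ℝ) < k := by exact_mod_cast hk1
      positivity
    have hnp : (0 : ℝ) < ((2 : ℝ) ^ ll k) ^ (m / 200) := by positivity
    rw [mul_one_div, div_le_div_iff₀ hnp hkp, one_mul]
    have h6 : ((c * k ^ p : ℕ) : ℝ) ≤ ((n ^ (m / 200) : ℕ) : ℝ) := by exact_mod_cast h5
    rw [hn] at h6
    push_cast at h6
    exact h6

end Pool.Agent.W961
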