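import Mathlib
import Pool.Agent.W961.Growth
import Pool.Agent.W961.CryptoDefs

namespace Pool.Agent.W961

open Finset DomAC0 H568R2 AC0World
open scoped BigOperators

section Code
variable {ι : Type} [Fintype ι]

/-- numbering of a finite index set -/
noncomputable def cd (ι : Type) [Fintype ι] : ι ≃ Fin (Fintype.card ι) := Fintype.equivFin ι

/-- reading a string -/
noncomputable def rd (r : Fin (Fintype.card ι) → Bool) : ι → Bool := fun i => r (cd ι i)

/-- writing a string -/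
noncomputable def wr (f : ι → Bool) : Fin (Fintype.card ι) → Bool := fun i => f ((cd ι).symm i)

lemma rd_wr (f : ι → Bool) : rd (wr f) = f := by
  funext i; unfold rd wr; rw [Equiv.symm_apply_apply]

lemma wr_rd (r : Fin (Fintype.card ι) → Bool) : wr (rd r) = r := by
  funext i
  show r (cd ι ((cd ι).symm i)) = r i
  rw [Equiv.apply_symm_apply]

lemma Pr_eq {Ω : Type} [Fintype Ω] (P : Ω → Bool) : Pr P = 𝔼 ω, ind (P ω) := by
  classical
  rw [Fintype.expect_eq_sum_div_card]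
  unfold Pr
  congr 1
  rw [Fintype.card_subtype]
  unfold ind
  rw [Finset.sum_boole]

end Code

section Coins
variable {m ℓ : ℕ}

lemma bitsM_mat (x : Pt m ℓ × Pt m ℓ → Bool) : bitsM (mat x) = x := by
  funext p; exact z2b_b2z _

lemma bitsV_vec (x : Pt m ℓ → Bool) : bitsV (vec x) = x := by
  funext p; exact z2b_b2z _

/-- addresses as strings -/
noncomputable def eAd (m ℓ : ℕ) :
    (Fin (Fintype.card (Ad m ℓ)) → Bool) ≃ (Fin m → (Fin ℓ → Bool)) where
  toFun r := addr (rd r)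
  invFun a := wr (fun i : Ad m ℓ => a i.1 i.2)
  left_inv r := by
    show wr (fun i : Ad m ℓ => addr (rd r) i.1 i.2) = r
    exact wr_rd r
  right_inv a := by
    show addr (rd (wr (fun i : Ad m ℓ => a i.1 i.2))) = a
    rw [rd_wr]; rfl

/-- matrices as strings -/
noncomputable def eMat (m ℓ : ℕ) :
    (Fin (Fintype.card (Pt m ℓ × Pt m ℓ)) → Bool) ≃ Mat m ℓ where
  toFun r := mat (rd r)
  invFun X := wr (bitsM X)
  left_inv r := by
    show wr (bitsM (mat (rd r))) = r
    rw [bitsM_mat, wr_rd]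
  right_inv X := by
    show mat (rd (wr (bitsM X))) = X
    rw [rd_wr, mat_bitsM]

/-- coins of key generation -/
noncomputable def eG (m ℓ : ℕ) :
    (Fin (Fintype.card (Ad m ℓ ⊕ (Pt m ℓ × Pt m ℓ))) → Bool) ≃
      (Fin m → (Fin ℓ → Bool)) × Mat m ℓ where
  toFun r := (addr (fun i => rd r (Sum.inl i)), mat (fun i => rd r (Sum.inr i)))
  invFun p := wr (Sum.elim (fun i : Ad m ℓ => p.1 i.1 i.2) (bitsM p.2))
  left_inv r := by
    have : Sum.elim (fun i : Ad m ℓ => addr (fun i => rd r (Sum.inl i)) i.1 i.2)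
        (bitsM (mat (fun i => rd r (Sum.inr i)))) = rd r := by
      rw [bitsM_mat]
      funext i
      cases i <;> rfl
    show wr (Sum.elim (fun i : Ad m ℓ => addr (fun i => rd r (Sum.inl i)) i.1 i.2)
        (bitsM (mat (fun i => rd r (Sum.inr i))))) = r
    rw [this, wr_rd]
  right_inv p := by
    obtain ⟨a, X⟩ := p
    show (addr (fun i => rd (wr (Sum.elim (fun i : Ad m ℓ => a i.1 i.2) (bitsM X))) (Sum.inl i)),
      mat (fun i => rd (wr (Sum.elim (fun i : Ad m ℓ => a i.1 i.2) (bitsM X))) (Sum.inr i))) =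
      (a, X)
    rw [rd_wr]
    simp only [Sum.elim_inl, Sum.elim_inr]
    refine Prod.ext rfl ?_
    exact mat_bitsM X

/-- The encryption scheme. -/
noncomputable def scheme : PKE where
  coinG k := Fintype.card (Ad (MM k + 1) (ll k) ⊕ (Pt (MM k + 1) (ll k) × Pt (MM k + 1) (ll k)))
  coinE k := Fintype.card (Ad (MM k + 1) (ll k))
  lenP k := Fintype.card (Pt (MM k + 1) (ll k) × Pt (MM k + 1) (ll k))
  lenS k := Fintype.card (Ad (MM k + 1) (ll k))
  lenC k := Fintype.card (Pt (MM k + 1) (ll k))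
  pub k r := wr (bitsM (fixup 0 (addr (fun i => rd r (Sum.inl i))) 0
    (mat (fun i => rd r (Sum.inr i)))))
  sec k r := wr (fun i => rd r (Sum.inl i))
  enc k b pk s := wr (bitsV (encZ 0 b (mat (rd pk)) (addr (rd s))))
  dec k sk c := z2b (decZ (addr (rd sk)) (vec (rd c)))

theorem scheme_correct : scheme.Correct := by
  intro k b r s
  show z2b (decZ (addr (rd (wr (fun i => rd r (Sum.inl i))))) (vec (rd (wr (bitsV (encZ 0 b
    (mat (rd (wr (bitsM (fixup 0 (addr (fun i => rd r (Sum.inl i))) 0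
    (mat (fun i => rd r (Sum.inr i)))))))) (addr (rd s)))))))) = b
  rw [rd_wr, rd_wr, rd_wr, mat_bitsM, vec_bitsV, dec_enc, z2b_b2z]

theorem scheme_efficient : scheme.Efficient := by
  obtain ⟨e, he⟩ := poly_bound 200 4
  have b1 : ∀ k : ℕ, 6 * (k + 1) ^ 4 ≤ k ^ e + e := fun k => le_trans (by omega) (he k)
  have b2 : ∀ k : ℕ, (k + 1) ^ 2 ≤ (k + 1) ^ 4 := fun k =>
    Nat.pow_le_pow_right (by omega) (by norm_num)
  refine ⟨⟨6, e, fun k => ⟨?_, ?_, fun i => ?_⟩⟩, ⟨6, e, fun k => ⟨?_, ?_, fun i => ?_⟩⟩,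
    fun b => ⟨6, e, fun k => ⟨?_, ?_, fun i => ?_⟩⟩, ⟨6, e, fun k => ⟨?_, ?_, fun i => ?_⟩⟩⟩
  · show Fintype.card (Fin (Fintype.card (Ad (MM k + 1) (ll k) ⊕ _))) ≤ _
    rw [Fintype.card_fin, Fintype.card_sum]
    have h1 := Ad_bound k
    have h2 := PtPt_bound k
    have h3 := b1 k
    have h4 := b2 k
    omega
  · show Fintype.card (Fin (Fintype.card (Pt (MM k + 1) (ll k) × _))) ≤ _
    rw [Fintype.card_fin]
    have h2 := PtPt_bound k
    have h3 := b1 k
    omega
  · obtain ⟨C, h1, h2, h3⟩ := Cir.pubBit (m := MM k + 1) (ℓ := ll k) (t₀ := 0)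
      (α := fun i => cd (Ad (MM k + 1) (ll k) ⊕ (Pt (MM k + 1) (ll k) × Pt (MM k + 1) (ll k)))
        (Sum.inl i))
      (β := fun i => cd (Ad (MM k + 1) (ll k) ⊕ (Pt (MM k + 1) (ll k) × Pt (MM k + 1) (ll k)))
        (Sum.inr i)) ((cd _).symm i)
    exact ⟨C, h2, h1.trans ((sz_bound k).trans (he k)), fun x => h3 x⟩
  · show Fintype.card (Fin (Fintype.card (Ad (MM k + 1) (ll k) ⊕ _))) ≤ _
    rw [Fintype.card_fin, Fintype.card_sum]
    have h1 := Ad_bound k
    have h2 := PtPt_bound k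
    have h3 := b1 k
    have h4 := b2 k
    omega
  · show Fintype.card (Fin (Fintype.card (Ad (MM k + 1) (ll k)))) ≤ _
    rw [Fintype.card_fin]
    have h1 := Ad_bound k
    have h3 := b1 k
    have h4 := b2 k
    omega
  · obtain ⟨C, h1, h2, h3⟩ := Cir.var (J := Fin (scheme.coinG k))
      (cd (Ad (MM k + 1) (ll k) ⊕ (Pt (MM k + 1) (ll k) × Pt (MM k + 1) (ll k)))
        (Sum.inl ((cd (Ad (MM k + 1) (ll k))).symm i)))
    exact ⟨C, h2.trans (Nat.zero_le _), h1.trans (Nat.zero_le _), fun x => h3 x⟩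
  · show Fintype.card (Fin (Fintype.card (Pt (MM k + 1) (ll k) × _)) ⊕
      Fin (Fintype.card (Ad (MM k + 1) (ll k)))) ≤ _
    rw [Fintype.card_sum, Fintype.card_fin, Fintype.card_fin]
    have h1 := Ad_bound k
    have h2 := PtPt_bound k
    have h3 := b1 k
    have h4 := b2 k
    omega
  · show Fintype.card (Fin (Fintype.card (Pt (MM k + 1) (ll k)))) ≤ _
    rw [Fintype.card_fin]
    have h1 := Pt_bound k
    have h3 := b1 k
    have h4 := b2 k
    omega
  · obtain ⟨C, h1, h2, h3⟩ := Cir.encBit (m := MM k + 1) (ℓ := ll k) (t₀ := 0) (b := b)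
      (J := Fin (scheme.lenP k) ⊕ Fin (scheme.coinE k))
      (α := fun i => Sum.inr (cd (Ad (MM k + 1) (ll k)) i))
      (β := fun i => Sum.inl (cd (Pt (MM k + 1) (ll k) × Pt (MM k + 1) (ll k)) i))
      ((cd _).symm i)
    exact ⟨C, h2, h1.trans ((sz_bound k).trans (he k)), fun x => h3 x⟩
  · show Fintype.card (Fin (Fintype.card (Ad (MM k + 1) (ll k))) ⊕
      Fin (Fintype.card (Pt (MM k + 1) (ll k)))) ≤ _
    rw [Fintype.card_sum, Fintype.card_fin, Fintype.card_fin]
    have h1 := Ad_bound k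
    have h2 := Pt_bound k
    have h3 := b1 k
    have h4 := b2 k
    omega
  · show Fintype.card Unit ≤ _
    rw [Fintype.card_unit]
    have h3 := b1 k
    have : 1 ≤ (k + 1) ^ 4 := Nat.one_le_pow _ _ (by omega)
    omega
  · obtain ⟨C, h1, h2, h3⟩ := Cir.decBit (m := MM k + 1) (ℓ := ll k)
      (J := Fin (scheme.lenS k) ⊕ Fin (scheme.lenC k))
      (α := fun i => Sum.inl (cd (Ad (MM k + 1) (ll k)) i))
      (β := fun i => Sum.inr (cd (Pt (MM k + 1) (ll k)) i))
    exact ⟨C, h2, h1.trans ((sz_bound k).trans (he k)), fun x => h3 x⟩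

end Coins

end Pool.Agent.W961
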