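import Mathlib
import Pool.Agent.W961.Pke

namespace Pool.Agent.W961

open Finset DomAC0 H568R2 AC0World
open scoped BigOperators

section Generic
variable {m ℓ : ℕ} {J : Type} [Fintype J]

/-- Encrypting under a planted key looks like a uniform matrix and a uniform vector. -/
theorem enc_hide (hm : 200 ≤ m) (hthr : thr m ≤ 2 ^ ℓ) (C : Circuit J)
    (τ : Mat m ℓ → Vec m ℓ → (J → Bool))
    (hcol : ∀ j, ∃ t, ∀ (X Y : Mat m ℓ) (u v : Vec m ℓ), X t = Y t → u t = v t →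
      τ X u j = τ Y v j)
    (hrow : ∀ u j, ∃ s, ∀ X Y : Mat m ℓ, (∀ t, X t s = Y t s) → τ X u j = τ Y u j)
    (hd : C.depth ≤ m) (hs : C.size ≤ (2 ^ ℓ) ^ (m / 200))
    (hj : Fintype.card J ≤ (2 ^ ℓ) ^ (m / 200)) (t₀ : Fin m) (b : Bool) :
    |𝔼 c : Fin m → (Fin ℓ → Bool), 𝔼 a : Fin m → (Fin ℓ → Bool), 𝔼 X : Mat m ℓ,
        ind (C.eval (τ (fixup t₀ a 0 X) (encZ t₀ b (fixup t₀ a 0 X) c))) -
      𝔼 X : Mat m ℓ, 𝔼 u : Vec m ℓ, ind (C.eval (τ X u))| ≤ 2 * dl m ℓ := by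
  have h1 : |𝔼 c : Fin m → (Fin ℓ → Bool), 𝔼 a : Fin m → (Fin ℓ → Bool), 𝔼 X : Mat m ℓ,
        ind (C.eval (τ (fixup t₀ a 0 X) (encZ t₀ b (fixup t₀ a 0 X) c))) -
      𝔼 c : Fin m → (Fin ℓ → Bool), 𝔼 X : Mat m ℓ, ind (C.eval (τ X (encZ t₀ b X c)))| ≤
      dl m ℓ := by
    rw [← Finset.expect_sub_distrib]
    refine (Finset.abs_expect_le _ _).trans ?_
    have h2 : ∀ c : Fin m → (Fin ℓ → Bool), |𝔼 a : Fin m → (Fin ℓ → Bool), 𝔼 X : Mat m ℓ,
        ind (C.eval (τ (fixup t₀ a 0 X) (encZ t₀ b (fixup t₀ a 0 X) c))) -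
        𝔼 X : Mat m ℓ, ind (C.eval (τ X (encZ t₀ b X c)))| ≤ dl m ℓ := by
      intro c
      apply col_hide hm hthr C (fun X => τ X (encZ t₀ b X c)) _ hd hs hj t₀
      intro j
      obtain ⟨t, ht⟩ := hcol j
      refine ⟨t, fun X Y hXY => ht X Y _ _ hXY ?_⟩
      unfold encZ
      rw [hXY]
    refine (Finset.expect_le_expect fun c _ => h2 c).trans ?_
    rw [Fintype.expect_const]
  have h3 : |𝔼 c : Fin m → (Fin ℓ → Bool), 𝔼 X : Mat m ℓ, ind (C.eval (τ X (encZ t₀ b X c))) -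
      𝔼 X : Mat m ℓ, 𝔼 u : Vec m ℓ, ind (C.eval (τ X u))| ≤ dl m ℓ :=
    row_hide hm hthr C τ hrow hd hs hj t₀ (msgV t₀ b)
  calc _ ≤ _ + _ := abs_sub_le _ (𝔼 c : Fin m → (Fin ℓ → Bool), 𝔼 X : Mat m ℓ,
        ind (C.eval (τ X (encZ t₀ b X c)))) _
    _ ≤ dl m ℓ + dl m ℓ := add_le_add h1 h3
    _ = 2 * dl m ℓ := by ring

end Generic

/-- the input of the distinguisher -/
noncomputable def tauP (m ℓ : ℕ) (X : Mat m ℓ) (u : Vec m ℓ) :
    Fin (Fintype.card (Pt m ℓ × Pt m ℓ)) ⊕ Fin (Fintype.card (Pt m ℓ)) → Bool :=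
  Sum.elim (wr (bitsM X)) (wr (bitsV u))

lemma view_prob (b : Bool) (k : ℕ)
    (D : Circuit (Fin (scheme.lenP k) ⊕ Fin (scheme.lenC k))) :
    Pr (fun ω => D.eval (scheme.view b k ω)) =
      𝔼 c : Fin (MM k + 1) → (Fin (ll k) → Bool), 𝔼 a : Fin (MM k + 1) → (Fin (ll k) → Bool),
        𝔼 X : Mat (MM k + 1) (ll k), ind (D.eval (tauP (MM k + 1) (ll k) (fixup 0 a 0 X)
          (encZ 0 b (fixup 0 a 0 X) c))) := by
  rw [Pr_eq]
  have h1 : 𝔼 ω : Str (scheme.coinG k) × Str (scheme.coinE k),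
      ind (D.eval (scheme.view b k ω)) =
      𝔼 p : ((Fin (MM k + 1) → (Fin (ll k) → Bool)) × Mat (MM k + 1) (ll k)) ×
        (Fin (MM k + 1) → (Fin (ll k) → Bool)),
        ind (D.eval (tauP (MM k + 1) (ll k) (fixup 0 p.1.1 0 p.1.2)
          (encZ 0 b (fixup 0 p.1.1 0 p.1.2) p.2))) := by
    apply Fintype.expect_equiv (e := Equiv.prodCongr (eG (MM k + 1) (ll k)) (eAd (MM k + 1) (ll k)))
    rintro ⟨r, s⟩
    congr 2
    have h2 : scheme.enc k b (scheme.pub k r) s = wr (bitsV (encZ 0 b (fixup 0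
        (addr (fun i => rd r (Sum.inl i))) 0 (mat (fun i => rd r (Sum.inr i))))
        (addr (rd s)))) := by
      have key : ∀ K : Mat (MM k + 1) (ll k),
          wr (bitsV (encZ 0 b (mat (rd (wr (bitsM K)))) (addr (rd s)))) =
          wr (bitsV (encZ 0 b K (addr (rd s)))) := by
        intro K; rw [rd_wr, mat_bitsM]
      exact key _
    show Sum.elim (scheme.pub k r) (scheme.enc k b (scheme.pub k r) s) = _
    rw [h2]
    rfl
  rw [h1, ← Finset.univ_product_univ, Finset.expect_product, Finset.expect_comm]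
  refine Finset.expect_congr rfl fun c _ => ?_
  rw [← Finset.univ_product_univ, Finset.expect_product]

theorem scheme_secure : scheme.Secure := by
  intro d e p
  filter_upwards [eventually_good d (max e 4) p 6] with k hk D hD1 hD2
  obtain ⟨hm, hthr, hd, hpoly, hdl⟩ := hk
  rw [view_prob, view_prob]
  have hsize : D.size ≤ (2 ^ ll k) ^ ((MM k + 1) / 200) := by
    refine hD2.trans (le_trans ?_ hpoly)
    calc k ^ e ≤ (k + 1) ^ e := Nat.pow_le_pow_left (by omega) e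
      _ ≤ (k + 1) ^ (max e 4) := Nat.pow_le_pow_right (by omega) (le_max_left _ _)
      _ ≤ 6 * (k + 1) ^ (max e 4) := Nat.le_mul_of_pos_left _ (by norm_num)
  have hJ : Fintype.card (Fin (Fintype.card (Pt (MM k + 1) (ll k) × Pt (MM k + 1) (ll k))) ⊕
      Fin (Fintype.card (Pt (MM k + 1) (ll k)))) ≤ (2 ^ ll k) ^ ((MM k + 1) / 200) := by
    refine le_trans ?_ hpoly
    rw [Fintype.card_sum, Fintype.card_fin, Fintype.card_fin]
    have h1 := PtPt_bound k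
    have h2 := Pt_bound k
    have h3 : (k + 1) ^ 2 ≤ (k + 1) ^ 4 := Nat.pow_le_pow_right (by omega) (by norm_num)
    have h4 : (k + 1) ^ 4 ≤ (k + 1) ^ (max e 4) :=
      Nat.pow_le_pow_right (by omega) (le_max_right _ _)
    omega
  have key : ∀ b : Bool, |𝔼 c : Fin (MM k + 1) → (Fin (ll k) → Bool),
      𝔼 a : Fin (MM k + 1) → (Fin (ll k) → Bool),
        𝔼 X : Mat (MM k + 1) (ll k), ind (D.eval (tauP (MM k + 1) (ll k) (fixup 0 a 0 X)
          (encZ 0 b (fixup 0 a 0 X) c))) -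
      𝔼 X : Mat (MM k + 1) (ll k), 𝔼 u : Vec (MM k + 1) (ll k),
        ind (D.eval (tauP (MM k + 1) (ll k) X u))| ≤ 2 * dl (MM k + 1) (ll k) := by
    intro b
    apply enc_hide hm hthr D (tauP (MM k + 1) (ll k)) _ _ (hD1.trans hd) hsize hJ 0 b
    · intro j
      cases j with
      | inl i =>
        refine ⟨((cd (Pt (MM k + 1) (ll k) × Pt (MM k + 1) (ll k))).symm i).1,
          fun X Y u v hX _ => ?_⟩
        show z2b (X _ _) = z2b (Y _ _)
        rw [hX]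
      | inr i =>
        refine ⟨(cd (Pt (MM k + 1) (ll k))).symm i, fun X Y u v _ hu => ?_⟩
        show z2b (u _) = z2b (v _)
        rw [hu]
    · intro u j
      cases j with
      | inl i =>
        refine ⟨((cd (Pt (MM k + 1) (ll k) × Pt (MM k + 1) (ll k))).symm i).2,
          fun X Y hX => ?_⟩
        show z2b (X _ _) = z2b (Y _ _)
        rw [hX]
      | inr i =>
        exact ⟨(0, fun _ => false), fun X Y _ => rfl⟩
  have h0 := key false
  have h1 := key true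
  have hdl0 : 0 ≤ dl (MM k + 1) (ll k) := by unfold dl; positivity
  have h2 := abs_sub_le (𝔼 c : Fin (MM k + 1) → (Fin (ll k) → Bool),
      𝔼 a : Fin (MM k + 1) → (Fin (ll k) → Bool),
        𝔼 X : Mat (MM k + 1) (ll k), ind (D.eval (tauP (MM k + 1) (ll k) (fixup 0 a 0 X)
          (encZ 0 false (fixup 0 a 0 X) c))))
      (𝔼 X : Mat (MM k + 1) (ll k), 𝔼 u : Vec (MM k + 1) (ll k),
        ind (D.eval (tauP (MM k + 1) (ll k) X u)))
      (𝔼 c : Fin (MM k + 1) → (Fin (ll k) → Bool),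
      𝔼 a : Fin (MM k + 1) → (Fin (ll k) → Bool),
        𝔼 X : Mat (MM k + 1) (ll k), ind (D.eval (tauP (MM k + 1) (ll k) (fixup 0 a 0 X)
          (encZ 0 true (fixup 0 a 0 X) c))))
  rw [abs_sub_comm (𝔼 X : Mat (MM k + 1) (ll k), 𝔼 u : Vec (MM k + 1) (ll k),
        ind (D.eval (tauP (MM k + 1) (ll k) X u)))] at h2
  push_cast at hdl
  linarith

end Pool.Agent.W961
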