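import Mathlib
import Pool.Agent.W961.PkeSec

namespace Pool.Agent.W961

open Finset DomAC0 H568R2 AC0World
open scoped BigOperators

/-- points -/
abbrev PK (k : ℕ) : Type := Pt (MM k + 1) (ll k)
/-- address bits -/
abbrev AK (k : ℕ) : Type := Ad (MM k + 1) (ll k)
/-- index set of the coins of the receiver -/
abbrev IR (k : ℕ) : Type := AK k ⊕ ((PK k × PK k) ⊕ (PK k × PK k))

/-- addresses of the receiver -/
noncomputable def rA {k : ℕ} (r : Fin (Fintype.card (IR k)) → Bool) :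
    Fin (MM k + 1) → (Fin (ll k) → Bool) := addr (fun i => rd r (Sum.inl i))
/-- first matrix of the receiver -/
noncomputable def rX {k : ℕ} (r : Fin (Fintype.card (IR k)) → Bool) : Mat (MM k + 1) (ll k) :=
  mat (fun i => rd r (Sum.inr (Sum.inl i)))
/-- second matrix of the receiver -/
noncomputable def rY {k : ℕ} (r : Fin (Fintype.card (IR k)) → Bool) : Mat (MM k + 1) (ll k) :=
  mat (fun i => rd r (Sum.inr (Sum.inr i)))

/-- a pair of matrices as a message -/
noncomputable def msgX {k : ℕ} (M₀ M₁ : Mat (MM k + 1) (ll k)) :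
    Fin (Fintype.card ((PK k × PK k) ⊕ (PK k × PK k))) → Bool :=
  wr (Sum.elim (bitsM M₀) (bitsM M₁))

/-- a pair of vectors as a message -/
noncomputable def msgY {k : ℕ} (u₀ u₁ : Vec (MM k + 1) (ll k)) :
    Fin (Fintype.card (PK k ⊕ PK k)) → Bool :=
  wr (Sum.elim (bitsV u₀) (bitsV u₁))

/-- The oblivious transfer protocol. -/
noncomputable def protocol : OT where
  coinR k := Fintype.card (IR k)
  coinS k := Fintype.card (AK k ⊕ AK k)
  lenX k := Fintype.card ((PK k × PK k) ⊕ (PK k × PK k))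
  lenY k := Fintype.card (PK k ⊕ PK k)
  fst k c r := if c then msgX (rY r) (fixup 0 (rA r) 0 (rX r))
    else msgX (fixup 0 (rA r) 0 (rX r)) (rY r)
  snd k b₀ b₁ s x := msgY (encZ 0 b₀ (mat (fun i => rd x (Sum.inl i)))
      (addr (fun i => rd s (Sum.inl i))))
    (encZ 0 b₁ (mat (fun i => rd x (Sum.inr i))) (addr (fun i => rd s (Sum.inr i))))
  out k c r y := z2b (decZ (rA r) (vec (fun i => if c then rd y (Sum.inr i)
    else rd y (Sum.inl i))))

lemma mat_msgX_inl {k : ℕ} (M₀ M₁ : Mat (MM k + 1) (ll k)) :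
    mat (fun i => rd (msgX M₀ M₁) (Sum.inl i)) = M₀ := by
  unfold msgX
  rw [rd_wr]
  exact mat_bitsM M₀

lemma mat_msgX_inr {k : ℕ} (M₀ M₁ : Mat (MM k + 1) (ll k)) :
    mat (fun i => rd (msgX M₀ M₁) (Sum.inr i)) = M₁ := by
  unfold msgX
  rw [rd_wr]
  exact mat_bitsM M₁

lemma vec_msgY_inl {k : ℕ} (u₀ u₁ : Vec (MM k + 1) (ll k)) :
    vec (fun i => rd (msgY u₀ u₁) (Sum.inl i)) = u₀ := by
  unfold msgY
  rw [rd_wr]
  exact vec_bitsV u₀

lemma vec_msgY_inr {k : ℕ} (u₀ u₁ : Vec (MM k + 1) (ll k)) :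
    vec (fun i => rd (msgY u₀ u₁) (Sum.inr i)) = u₁ := by
  unfold msgY
  rw [rd_wr]
  exact vec_bitsV u₁

theorem protocol_correct : protocol.Correct := by
  intro k c b₀ b₁ r s
  cases c with
  | false =>
    show z2b (decZ (rA r) (vec (fun i => rd (msgY (encZ 0 b₀ (mat (fun i => rd
      (msgX (fixup 0 (rA r) 0 (rX r)) (rY r)) (Sum.inl i))) (addr (fun i => rd s (Sum.inl i))))
      _) (Sum.inl i)))) = b₀
    rw [vec_msgY_inl, mat_msgX_inl, dec_enc, z2b_b2z]
  | true =>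
    show z2b (decZ (rA r) (vec (fun i => rd (msgY _ (encZ 0 b₁ (mat (fun i => rd
      (msgX (rY r) (fixup 0 (rA r) 0 (rX r))) (Sum.inr i))) (addr (fun i => rd s (Sum.inr i)))))
      (Sum.inr i)))) = b₁
    rw [vec_msgY_inr, mat_msgX_inr, dec_enc, z2b_b2z]

lemma card_IR (k : ℕ) : Fintype.card (IR k) ≤ 10 * (k + 1) ^ 4 := by
  rw [Fintype.card_sum, Fintype.card_sum]
  have h1 : Fintype.card (AK k) ≤ 2 * (k + 1) ^ 2 := Ad_bound k
  have h2 : Fintype.card (PK k × PK k) ≤ 4 * (k + 1) ^ 4 := PtPt_bound k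
  have h4 : (k + 1) ^ 2 ≤ (k + 1) ^ 4 := Nat.pow_le_pow_right (by omega) (by norm_num)
  omega

lemma card_X (k : ℕ) : Fintype.card ((PK k × PK k) ⊕ (PK k × PK k)) ≤ 8 * (k + 1) ^ 4 := by
  rw [Fintype.card_sum]
  have h2 : Fintype.card (PK k × PK k) ≤ 4 * (k + 1) ^ 4 := PtPt_bound k
  omega

lemma card_Y (k : ℕ) : Fintype.card (PK k ⊕ PK k) ≤ 4 * (k + 1) ^ 4 := by
  rw [Fintype.card_sum]
  have h2 : Fintype.card (PK k) ≤ 2 * (k + 1) ^ 2 := Pt_bound k
  have h4 : (k + 1) ^ 2 ≤ (k + 1) ^ 4 := Nat.pow_le_pow_right (by omega) (by norm_num)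
  omega

lemma card_S (k : ℕ) : Fintype.card (AK k ⊕ AK k) ≤ 4 * (k + 1) ^ 4 := by
  rw [Fintype.card_sum]
  have h2 : Fintype.card (AK k) ≤ 2 * (k + 1) ^ 2 := Ad_bound k
  have h4 : (k + 1) ^ 2 ≤ (k + 1) ^ 4 := Nat.pow_le_pow_right (by omega) (by norm_num)
  omega

lemma fst_circ {J : Type} (k : ℕ) (ρ : Fin (Fintype.card (IR k)) → J) (c : Bool)
    (i : Fin (Fintype.card ((PK k × PK k) ⊕ (PK k × PK k)))) :
    Cir (sz (MM k + 1) (ll k)) 6 (fun x : J → Bool => protocol.fst k c (fun j => x (ρ j)) i) := by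
  have hpub : ∀ p : PK k × PK k, Cir (sz (MM k + 1) (ll k)) 6 (fun x : J → Bool =>
      bitsM (fixup 0 (rA (fun j => x (ρ j))) 0 (rX (fun j => x (ρ j)))) p) := fun p =>
    (Cir.pubBit (m := MM k + 1) (ℓ := ll k) 0 (fun i => ρ (cd (IR k) (Sum.inl i)))
      (fun i => ρ (cd (IR k) (Sum.inr (Sum.inl i)))) p).congr (fun x => rfl)
  have huni : ∀ p : PK k × PK k, Cir (sz (MM k + 1) (ll k)) 6 (fun x : J → Bool =>
      bitsM (rY (fun j => x (ρ j))) p) := fun p =>
    ((Cir.var (ρ (cd (IR k) (Sum.inr (Sum.inr p))))).mono (Nat.zero_le _)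
      (Nat.zero_le _)).congr (fun x => by
        show _ = z2b (b2z _)
        rw [z2b_b2z]; rfl)
  obtain ⟨q, hq⟩ : ∃ q, q = (cd ((PK k × PK k) ⊕ (PK k × PK k))).symm i := ⟨_, rfl⟩
  cases c with
  | false =>
    cases q with
    | inl p =>
      refine (hpub p).congr (fun x => ?_)
      show _ = Sum.elim _ _ ((cd ((PK k × PK k) ⊕ (PK k × PK k))).symm i)
      rw [← hq]; rfl
    | inr p =>
      refine (huni p).congr (fun x => ?_)
      show _ = Sum.elim _ _ ((cd ((PK k × PK k) ⊕ (PK k × PK k))).symm i)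
      rw [← hq]; rfl
  | true =>
    cases q with
    | inl p =>
      refine (huni p).congr (fun x => ?_)
      show _ = Sum.elim _ _ ((cd ((PK k × PK k) ⊕ (PK k × PK k))).symm i)
      rw [← hq]; rfl
    | inr p =>
      refine (hpub p).congr (fun x => ?_)
      show _ = Sum.elim _ _ ((cd ((PK k × PK k) ⊕ (PK k × PK k))).symm i)
      rw [← hq]; rfl

theorem protocol_efficient : protocol.Efficient := by
  obtain ⟨e, he⟩ := poly_bound 200 4
  have b1 : ∀ k : ℕ, 14 * (k + 1) ^ 4 ≤ k ^ e + e := fun k => le_trans (by omega) (he k)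
  refine ⟨fun c => ⟨6, e, fun k => ⟨?_, ?_, fun i => ?_⟩⟩,
    fun b₀ b₁ => ⟨6, e, fun k => ⟨?_, ?_, fun i => ?_⟩⟩,
    fun c => ⟨6, e, fun k => ⟨?_, ?_, fun i => ?_⟩⟩⟩
  · show Fintype.card (Fin (Fintype.card (IR k))) ≤ _
    rw [Fintype.card_fin]
    have h1 := card_IR k
    have h3 := b1 k
    omega
  · show Fintype.card (Fin (Fintype.card ((PK k × PK k) ⊕ (PK k × PK k)))) ≤ _
    rw [Fintype.card_fin]
    have h1 := card_X k
    have h3 := b1 k
    omega
  · obtain ⟨C, h1, h2, h3⟩ := fst_circ k (fun j => j) c i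
    exact ⟨C, h2, h1.trans ((sz_bound k).trans (he k)), fun x => h3 x⟩
  · show Fintype.card (Fin (Fintype.card (AK k ⊕ AK k)) ⊕
      Fin (Fintype.card ((PK k × PK k) ⊕ (PK k × PK k)))) ≤ _
    rw [Fintype.card_sum, Fintype.card_fin, Fintype.card_fin]
    have h1 := card_X k
    have h2 := card_S k
    have h3 := b1 k
    omega
  · show Fintype.card (Fin (Fintype.card (PK k ⊕ PK k))) ≤ _
    rw [Fintype.card_fin]
    have h1 := card_Y k
    have h3 := b1 k
    omega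
  · obtain ⟨q, hq⟩ : ∃ q, q = (cd (PK k ⊕ PK k)).symm i := ⟨_, rfl⟩
    cases q with
    | inl p =>
      obtain ⟨C, h1, h2, h3⟩ := Cir.encBit (m := MM k + 1) (ℓ := ll k) (t₀ := 0) (b := b₀)
        (J := Fin (protocol.coinS k) ⊕ Fin (protocol.lenX k))
        (α := fun i => Sum.inl (cd (AK k ⊕ AK k) (Sum.inl i)))
        (β := fun i => Sum.inr (cd ((PK k × PK k) ⊕ (PK k × PK k)) (Sum.inl i))) p
      refine ⟨C, h2, h1.trans ((sz_bound k).trans (he k)), fun x => (h3 x).trans ?_⟩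
      show _ = Sum.elim _ _ ((cd (PK k ⊕ PK k)).symm i)
      rw [← hq]; rfl
    | inr p =>
      obtain ⟨C, h1, h2, h3⟩ := Cir.encBit (m := MM k + 1) (ℓ := ll k) (t₀ := 0) (b := b₁)
        (J := Fin (protocol.coinS k) ⊕ Fin (protocol.lenX k))
        (α := fun i => Sum.inl (cd (AK k ⊕ AK k) (Sum.inr i)))
        (β := fun i => Sum.inr (cd ((PK k × PK k) ⊕ (PK k × PK k)) (Sum.inr i))) p
      refine ⟨C, h2, h1.trans ((sz_bound k).trans (he k)), fun x => (h3 x).trans ?_⟩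
      show _ = Sum.elim _ _ ((cd (PK k ⊕ PK k)).symm i)
      rw [← hq]; rfl
  · show Fintype.card (Fin (Fintype.card (IR k)) ⊕ Fin (Fintype.card (PK k ⊕ PK k))) ≤ _
    rw [Fintype.card_sum, Fintype.card_fin, Fintype.card_fin]
    have h1 := card_IR k
    have h2 := card_Y k
    have h3 := b1 k
    omega
  · show Fintype.card Unit ≤ _
    rw [Fintype.card_unit]
    have h3 := b1 k
    have : 1 ≤ (k + 1) ^ 4 := Nat.one_le_pow _ _ (by omega)
    omega
  · cases c with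
    | false =>
      obtain ⟨C, h1, h2, h3⟩ := Cir.decBit (m := MM k + 1) (ℓ := ll k)
        (J := Fin (protocol.coinR k) ⊕ Fin (protocol.lenY k))
        (α := fun i => Sum.inl (cd (IR k) (Sum.inl i)))
        (β := fun i => Sum.inr (cd (PK k ⊕ PK k) (Sum.inl i)))
      exact ⟨C, h2, h1.trans ((sz_bound k).trans (he k)), fun x => h3 x⟩
    | true =>
      obtain ⟨C, h1, h2, h3⟩ := Cir.decBit (m := MM k + 1) (ℓ := ll k)
        (J := Fin (protocol.coinR k) ⊕ Fin (protocol.lenY k))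
        (α := fun i => Sum.inl (cd (IR k) (Sum.inl i)))
        (β := fun i => Sum.inr (cd (PK k ⊕ PK k) (Sum.inr i)))
      exact ⟨C, h2, h1.trans ((sz_bound k).trans (he k)), fun x => h3 x⟩

end Pool.Agent.W961
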