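import Mathlib
import Pool.Agent.W961.Ot

namespace Pool.Agent.W961

open Finset DomAC0 H568R2 AC0World
open scoped BigOperators

section Sel
variable {J : Type} {ℓ m : ℕ}

/-- reading the computed bit at a given address -/
lemma Cir.sel2 {s d : ℕ} (hd : 1 ≤ d) (α : Fin ℓ → J)
    (F : (Fin ℓ → Bool) → (J → Bool) → Bool) (hF : ∀ v, Cir s d (F v)) :
    Cir (2 ^ ℓ * ((ℓ + 1) * (s + 1) + 1) + 1) (d + 2)
      (fun x : J → Bool => F (fun b => x (α b)) x) := by
  classical
  have h1 : ∀ v : Fin ℓ → Bool, Cir (Fintype.card (Option (Fin ℓ)) * (s + 1) + 1) (d + 1)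
      (fun x : J → Bool => decide (∀ o : Option (Fin ℓ),
        (Option.elim o (F v x) (fun b => if v b then x (α b) else !x (α b))) = true)) := by
    intro v
    apply Cir.and (f := fun (o : Option (Fin ℓ)) (x : J → Bool) =>
      (Option.elim o (F v x) (fun b => if v b then x (α b) else !x (α b))))
    intro o
    cases o with
    | none => exact (hF v).mono (by omega) (le_refl _)
    | some b => exact (Cir.lit (α b) (v b)).mono (by omega) hd
  have h2 := Cir.or (f := fun (v : Fin ℓ → Bool) (x : J → Bool) =>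
    decide (∀ o : Option (Fin ℓ),
        (Option.elim o (F v x) (fun b => if v b then x (α b) else !x (α b))) = true)) h1
  rw [Fintype.card_option, Fintype.card_fin, card_V] at h2
  refine h2.congr ?_
  intro x
  rw [Bool.eq_iff_iff, decide_eq_true_iff]
  constructor
  · rintro ⟨v, hv⟩
    rw [decide_eq_true_iff] at hv
    have h3 : (fun b => x (α b)) = v := by
      funext b
      have := hv (some b)
      simp only [Option.elim_some] at this
      cases hvb : v b
      · rw [hvb] at this; simpa using this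
      · rw [hvb] at this; simpa using this
    have h4 := hv none
    simp only [Option.elim_none] at h4
    rw [h3]
    exact h4
  · intro hx
    refine ⟨fun b => x (α b), ?_⟩
    rw [decide_eq_true_iff]
    intro o
    cases o with
    | none => exact hx
    | some b =>
      simp only [Option.elim_some]
      by_cases hxb : x (α b) = true <;> simp [hxb]

/-- circuit size of the simulator -/
def sz2 (m ℓ : ℕ) : ℕ :=
  2 ^ m * (m * (2 ^ ℓ * ((ℓ + 1) * (sz m ℓ + 1) + 1) + 1 + 1) + 1) + 1

/-- a bit of a ciphertext under a key computed from coins -/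
lemma Cir.simBit (t₀ : Fin m) (b : Bool) (α γ : Ad m ℓ → J) (β : Pt m ℓ × Pt m ℓ → J)
    (t : Pt m ℓ) :
    Cir (sz2 m ℓ) 11 (fun x : J → Bool => z2b (encZ t₀ b (fixup t₀ (addr (fun i => x (α i))) 0
      (mat (fun i => x (β i)))) (addr (fun i => x (γ i))) t)) := by
  classical
  have h := Cir.small (K := Fin m) (J := J)
    (s := 2 ^ ℓ * ((ℓ + 1) * (sz m ℓ + 1) + 1) + 1) (d := 8)
    (f := fun s x => z2b (fixup t₀ (addr (fun i => x (α i))) 0
      (mat (fun i => x (β i))) t (s, fun i => x (γ (s, i)))))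
    (fun s => Cir.sel2 (by norm_num) (fun i => γ (s, i))
      (fun v x => z2b (fixup t₀ (addr (fun i => x (α i))) 0 (mat (fun i => x (β i))) t (s, v)))
      (fun v => Cir.pubBit t₀ α β (t, (s, v))))
    (fun y => z2b (∑ s, b2z (y s) + msgV (ℓ := ℓ) t₀ b t))
  rw [Fintype.card_fin] at h
  refine h.congr (fun x => ?_)
  simp only [b2z_z2b]
  rfl

end Sel

lemma sz2_bound (k : ℕ) : sz2 (MM k + 1) (ll k) ≤ 5000 * (k + 1) ^ 8 := by
  unfold sz2
  have h1 := two_pow_m k
  have h2 := m_le k
  have h3 := l_le k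
  have h4 := n_le k
  have h5 := sz_bound k
  set K := k + 1 with hK
  set S := sz (MM k + 1) (ll k) with hS
  have hK1 : 1 ≤ K := by omega
  have e0 : 1 ≤ K ^ 4 := Nat.one_le_pow _ _ (by omega)
  have e1 : 1 ≤ K ^ 6 := Nat.one_le_pow _ _ (by omega)
  have e2 : 1 ≤ K ^ 7 := Nat.one_le_pow _ _ (by omega)
  have e3 : 1 ≤ K ^ 8 := Nat.one_le_pow _ _ (by omega)
  have a0 : (ll k + 1) * (S + 1) + 1 ≤ 403 * K ^ 5 := by
    calc (ll k + 1) * (S + 1) + 1 ≤ (2 * K) * (201 * K ^ 4) + 1 := by
          apply Nat.add_le_add_right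
          exact Nat.mul_le_mul (by omega) (by omega)
      _ ≤ 403 * K ^ 5 := by
          have : 1 ≤ K ^ 5 := Nat.one_le_pow _ _ (by omega)
          nlinarith
  have a1 : 2 ^ ll k * ((ll k + 1) * (S + 1) + 1) + 1 + 1 ≤ 405 * K ^ 6 := by
    calc 2 ^ ll k * ((ll k + 1) * (S + 1) + 1) + 1 + 1 ≤ K * (403 * K ^ 5) + 1 + 1 := by
          gcongr
      _ ≤ 405 * K ^ 6 := by nlinarith
  have a2 : (MM k + 1) * (2 ^ ll k * ((ll k + 1) * (S + 1) + 1) + 1 + 1) + 1 ≤ 811 * K ^ 7 := by
    calc _ ≤ (2 * K) * (405 * K ^ 6) + 1 := by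
          apply Nat.add_le_add_right
          exact Nat.mul_le_mul h2 a1
      _ ≤ 811 * K ^ 7 := by nlinarith
  calc _ ≤ (2 * K) * (811 * K ^ 7) + 1 := by
        apply Nat.add_le_add_right
        exact Nat.mul_le_mul h1 a2
    _ ≤ 5000 * K ^ 8 := by nlinarith

end Pool.Agent.W961
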