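import Mathlib
import Pool.Agent.W961.OtSim

namespace Pool.Agent.W961

open Finset DomAC0 H568R2 AC0World
open scoped BigOperators

set_option synthInstance.maxSize 2000

/-- receiver coins as an address vector and two matrices -/
noncomputable def eR (k : ℕ) : (Fin (Fintype.card (IR k)) → Bool) ≃
    (Fin (MM k + 1) → (Fin (ll k) → Bool)) × (Mat (MM k + 1) (ll k) × Mat (MM k + 1) (ll k)) where
  toFun r := (rA r, (rX r, rY r))
  invFun p := wr (Sum.elim (fun i : AK k => p.1 i.1 i.2)
    (Sum.elim (bitsM p.2.1) (bitsM p.2.2)))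
  left_inv r := by
    have : Sum.elim (fun i : AK k => rA r i.1 i.2)
        (Sum.elim (bitsM (rX r)) (bitsM (rY r))) = rd r := by
      unfold rX rY
      rw [bitsM_mat, bitsM_mat]
      funext i
      rcases i with i | i | i <;> rfl
    show wr (Sum.elim (fun i : AK k => rA r i.1 i.2)
        (Sum.elim (bitsM (rX r)) (bitsM (rY r)))) = r
    rw [this, wr_rd]
  right_inv p := by
    obtain ⟨a, X, Y⟩ := p
    show (rA (wr (Sum.elim (fun i : AK k => a i.1 i.2) (Sum.elim (bitsM X) (bitsM Y)))),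
      (rX (wr (Sum.elim (fun i : AK k => a i.1 i.2) (Sum.elim (bitsM X) (bitsM Y)))),
       rY (wr (Sum.elim (fun i : AK k => a i.1 i.2) (Sum.elim (bitsM X) (bitsM Y)))))) =
      (a, X, Y)
    unfold rA rX rY
    rw [rd_wr]
    simp only [Sum.elim_inl, Sum.elim_inr]
    refine Prod.ext rfl (Prod.ext ?_ ?_)
    · exact mat_bitsM X
    · exact mat_bitsM Y

/-- sender coins as two address vectors -/
noncomputable def eS (k : ℕ) : (Fin (Fintype.card (AK k ⊕ AK k)) → Bool) ≃
    (Fin (MM k + 1) → (Fin (ll k) → Bool)) × (Fin (MM k + 1) → (Fin (ll k) → Bool)) where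
  toFun s := (addr (fun i => rd s (Sum.inl i)), addr (fun i => rd s (Sum.inr i)))
  invFun p := wr (Sum.elim (fun i : AK k => p.1 i.1 i.2) (fun i : AK k => p.2 i.1 i.2))
  left_inv s := by
    have : Sum.elim (fun i : AK k => addr (fun i => rd s (Sum.inl i)) i.1 i.2)
        (fun i : AK k => addr (fun i => rd s (Sum.inr i)) i.1 i.2) = rd s := by
      funext i
      rcases i with i | i <;> rfl
    show wr (Sum.elim (fun i : AK k => addr (fun i => rd s (Sum.inl i)) i.1 i.2)
        (fun i : AK k => addr (fun i => rd s (Sum.inr i)) i.1 i.2)) = s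
    rw [this, wr_rd]
  right_inv p := by
    obtain ⟨a, c⟩ := p
    show (addr (fun i => rd (wr (Sum.elim (fun i : AK k => a i.1 i.2)
      (fun i : AK k => c i.1 i.2))) (Sum.inl i)), addr (fun i => rd (wr (Sum.elim
      (fun i : AK k => a i.1 i.2) (fun i : AK k => c i.1 i.2))) (Sum.inr i))) = (a, c)
    rw [rd_wr]
    rfl

/-- size facts for all large `k` -/
lemma good_params {d e p k : ℕ}
    (hk : 200 ≤ MM k + 1 ∧ thr (MM k + 1) ≤ 2 ^ ll k ∧ d ≤ MM k + 1 ∧
    14 * (k + 1) ^ (max e 4) ≤ (2 ^ ll k) ^ ((MM k + 1) / 200) ∧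
    ((14 : ℕ) : ℝ) * dl (MM k + 1) (ll k) ≤ 1 / (k : ℝ) ^ p) :
    (∀ s : ℕ, s ≤ k ^ e → s ≤ (2 ^ ll k) ^ ((MM k + 1) / 200)) ∧
    (∀ s : ℕ, s ≤ 14 * (k + 1) ^ 4 → s ≤ (2 ^ ll k) ^ ((MM k + 1) / 200)) ∧
    2 * dl (MM k + 1) (ll k) ≤ 1 / (k : ℝ) ^ p := by
  obtain ⟨_, _, _, hpoly, hdl⟩ := hk
  refine ⟨fun s hs => hs.trans (le_trans ?_ hpoly), fun s hs => hs.trans (le_trans ?_ hpoly), ?_⟩
  · calc k ^ e ≤ (k + 1) ^ e := Nat.pow_le_pow_left (by omega) e
      _ ≤ (k + 1) ^ (max e 4) := Nat.pow_le_pow_right (by omega) (le_max_left _ _)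
      _ ≤ 14 * (k + 1) ^ (max e 4) := Nat.le_mul_of_pos_left _ (by norm_num)
  · exact Nat.mul_le_mul_left _ (Nat.pow_le_pow_right (by omega) (le_max_right _ _))
  · have hdl0 : 0 ≤ dl (MM k + 1) (ll k) := by unfold dl; positivity
    push_cast at hdl
    linarith

/-- the first message, in terms of matrices -/
noncomputable def fstM {k : ℕ} (c : Bool) (a : Fin (MM k + 1) → (Fin (ll k) → Bool))
    (X Y : Mat (MM k + 1) (ll k)) : Fin (Fintype.card ((PK k × PK k) ⊕ (PK k × PK k))) → Bool :=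
  if c then msgX Y (fixup 0 a 0 X) else msgX (fixup 0 a 0 X) Y

lemma senderView_prob (c : Bool) (k : ℕ)
    (D : Circuit (Fin (protocol.coinS k) ⊕ Fin (protocol.lenX k))) :
    Pr (fun ω => D.eval (protocol.senderView c k ω)) =
      𝔼 s : Str (protocol.coinS k), 𝔼 Y : Mat (MM k + 1) (ll k),
        𝔼 a : Fin (MM k + 1) → (Fin (ll k) → Bool), 𝔼 X : Mat (MM k + 1) (ll k),
        ind (D.eval (Sum.elim s (fstM c a X Y))) := by
  rw [Pr_eq]
  have h1 : 𝔼 ω : Str (protocol.coinR k) × Str (protocol.coinS k),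
      ind (D.eval (protocol.senderView c k ω)) =
      𝔼 q : ((Fin (MM k + 1) → (Fin (ll k) → Bool)) ×
        (Mat (MM k + 1) (ll k) × Mat (MM k + 1) (ll k))) × Str (protocol.coinS k),
        ind (D.eval (Sum.elim q.2 (fstM c q.1.1 q.1.2.1 q.1.2.2))) := by
    apply Fintype.expect_equiv (e := Equiv.prodCongr (eR k) (Equiv.refl _))
    rintro ⟨r, s⟩
    rfl
  rw [h1, ← Finset.univ_product_univ, Finset.expect_product, Finset.expect_comm]
  refine Finset.expect_congr rfl fun s _ => ?_
  rw [← Finset.univ_product_univ, Finset.expect_product]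
  have h2 : ∀ a : Fin (MM k + 1) → (Fin (ll k) → Bool),
      𝔼 q : Mat (MM k + 1) (ll k) × Mat (MM k + 1) (ll k),
        ind (D.eval (Sum.elim s (fstM c a q.1 q.2))) =
      𝔼 Y : Mat (MM k + 1) (ll k), 𝔼 X : Mat (MM k + 1) (ll k),
        ind (D.eval (Sum.elim s (fstM c a X Y))) := by
    intro a
    rw [← Finset.univ_product_univ, Finset.expect_product, Finset.expect_comm]
  rw [Finset.expect_congr rfl fun a _ => h2 a, Finset.expect_comm]

theorem protocol_receiverPrivate : protocol.ReceiverPrivate := by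
  intro d e p
  filter_upwards [eventually_good d (max e 4) p 14] with k hk D hD1 hD2
  obtain ⟨hs1, hs2, hdl⟩ := good_params (e := e) hk
  obtain ⟨hm, hthr, hd, _, _⟩ := hk
  rw [senderView_prob, senderView_prob]
  have hsize := hs1 _ hD2
  have hJ : Fintype.card (Fin (protocol.coinS k) ⊕ Fin (protocol.lenX k)) ≤
      (2 ^ ll k) ^ ((MM k + 1) / 200) := by
    apply hs2
    show Fintype.card (Fin (Fintype.card (AK k ⊕ AK k)) ⊕
      Fin (Fintype.card ((PK k × PK k) ⊕ (PK k × PK k)))) ≤ _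
    rw [Fintype.card_sum, Fintype.card_fin, Fintype.card_fin]
    have h1 := card_S k
    have h2 := card_X k
    omega
  set U : ℝ := 𝔼 s : Str (protocol.coinS k), 𝔼 Y : Mat (MM k + 1) (ll k),
    𝔼 X : Mat (MM k + 1) (ll k), ind (D.eval (Sum.elim s (msgX X Y))) with hU
  have hU2 : U = 𝔼 s : Str (protocol.coinS k), 𝔼 Y : Mat (MM k + 1) (ll k),
    𝔼 X : Mat (MM k + 1) (ll k), ind (D.eval (Sum.elim s (msgX Y X))) := by
    rw [hU]
    refine Finset.expect_congr rfl fun s _ => ?_
    rw [Finset.expect_comm]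
  have key0 : |𝔼 s : Str (protocol.coinS k), 𝔼 Y : Mat (MM k + 1) (ll k),
        𝔼 a : Fin (MM k + 1) → (Fin (ll k) → Bool), 𝔼 X : Mat (MM k + 1) (ll k),
        ind (D.eval (Sum.elim s (fstM false a X Y))) - U| ≤ dl (MM k + 1) (ll k) := by
    rw [hU, ← Finset.expect_sub_distrib]
    refine (Finset.abs_expect_le _ _).trans ?_
    have h1 : ∀ s : Str (protocol.coinS k), |𝔼 Y : Mat (MM k + 1) (ll k),
        𝔼 a : Fin (MM k + 1) → (Fin (ll k) → Bool), 𝔼 X : Mat (MM k + 1) (ll k),
        ind (D.eval (Sum.elim s (fstM false a X Y))) - 𝔼 Y : Mat (MM k + 1) (ll k),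
        𝔼 X : Mat (MM k + 1) (ll k), ind (D.eval (Sum.elim s (msgX X Y)))| ≤
        dl (MM k + 1) (ll k) := by
      intro s
      rw [← Finset.expect_sub_distrib]
      refine (Finset.abs_expect_le _ _).trans ?_
      have h2 : ∀ Y : Mat (MM k + 1) (ll k), |𝔼 a : Fin (MM k + 1) → (Fin (ll k) → Bool),
          𝔼 X : Mat (MM k + 1) (ll k), ind (D.eval (Sum.elim s (fstM false a X Y))) -
          𝔼 X : Mat (MM k + 1) (ll k), ind (D.eval (Sum.elim s (msgX X Y)))| ≤
          dl (MM k + 1) (ll k) := by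
        intro Y
        apply col_hide hm hthr D (fun X => Sum.elim s (msgX X Y)) _ (hD1.trans hd) hsize hJ 0
        intro j
        cases j with
        | inl i => exact ⟨(0, fun _ => false), fun X X' _ => rfl⟩
        | inr i =>
          obtain ⟨q, hq⟩ : ∃ q, q = (cd ((PK k × PK k) ⊕ (PK k × PK k))).symm i := ⟨_, rfl⟩
          cases q with
          | inl q =>
            refine ⟨q.1, fun X X' hX => ?_⟩
            show Sum.elim (bitsM X) (bitsM Y) ((cd ((PK k × PK k) ⊕ (PK k × PK k))).symm i) =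
              Sum.elim (bitsM X') (bitsM Y) ((cd ((PK k × PK k) ⊕ (PK k × PK k))).symm i)
            rw [← hq]
            show z2b (X _ _) = z2b (X' _ _)
            rw [hX]
          | inr q =>
            refine ⟨(0, fun _ => false), fun X X' _ => ?_⟩
            show Sum.elim (bitsM X) (bitsM Y) ((cd ((PK k × PK k) ⊕ (PK k × PK k))).symm i) =
              Sum.elim (bitsM X') (bitsM Y) ((cd ((PK k × PK k) ⊕ (PK k × PK k))).symm i)
            rw [← hq]
            rfl
      refine (Finset.expect_le_expect fun Y _ => h2 Y).trans ?_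
      rw [Fintype.expect_const]
    refine (Finset.expect_le_expect fun s _ => h1 s).trans ?_
    rw [Fintype.expect_const]
  have key1 : |𝔼 s : Str (protocol.coinS k), 𝔼 Y : Mat (MM k + 1) (ll k),
        𝔼 a : Fin (MM k + 1) → (Fin (ll k) → Bool), 𝔼 X : Mat (MM k + 1) (ll k),
        ind (D.eval (Sum.elim s (fstM true a X Y))) - U| ≤ dl (MM k + 1) (ll k) := by
    rw [hU2, ← Finset.expect_sub_distrib]
    refine (Finset.abs_expect_le _ _).trans ?_
    have h1 : ∀ s : Str (protocol.coinS k), |𝔼 Y : Mat (MM k + 1) (ll k),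
        𝔼 a : Fin (MM k + 1) → (Fin (ll k) → Bool), 𝔼 X : Mat (MM k + 1) (ll k),
        ind (D.eval (Sum.elim s (fstM true a X Y))) - 𝔼 Y : Mat (MM k + 1) (ll k),
        𝔼 X : Mat (MM k + 1) (ll k), ind (D.eval (Sum.elim s (msgX Y X)))| ≤
        dl (MM k + 1) (ll k) := by
      intro s
      rw [← Finset.expect_sub_distrib]
      refine (Finset.abs_expect_le _ _).trans ?_
      have h2 : ∀ Y : Mat (MM k + 1) (ll k), |𝔼 a : Fin (MM k + 1) → (Fin (ll k) → Bool),
          𝔼 X : Mat (MM k + 1) (ll k), ind (D.eval (Sum.elim s (fstM true a X Y))) -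
          𝔼 X : Mat (MM k + 1) (ll k), ind (D.eval (Sum.elim s (msgX Y X)))| ≤
          dl (MM k + 1) (ll k) := by
        intro Y
        apply col_hide hm hthr D (fun X => Sum.elim s (msgX Y X)) _ (hD1.trans hd) hsize hJ 0
        intro j
        cases j with
        | inl i => exact ⟨(0, fun _ => false), fun X X' _ => rfl⟩
        | inr i =>
          obtain ⟨q, hq⟩ : ∃ q, q = (cd ((PK k × PK k) ⊕ (PK k × PK k))).symm i := ⟨_, rfl⟩
          cases q with
          | inl q =>
            refine ⟨(0, fun _ => false), fun X X' _ => ?_⟩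
            show Sum.elim (bitsM Y) (bitsM X) ((cd ((PK k × PK k) ⊕ (PK k × PK k))).symm i) =
              Sum.elim (bitsM Y) (bitsM X') ((cd ((PK k × PK k) ⊕ (PK k × PK k))).symm i)
            rw [← hq]
            rfl
          | inr q =>
            refine ⟨q.1, fun X X' hX => ?_⟩
            show Sum.elim (bitsM Y) (bitsM X) ((cd ((PK k × PK k) ⊕ (PK k × PK k))).symm i) =
              Sum.elim (bitsM Y) (bitsM X') ((cd ((PK k × PK k) ⊕ (PK k × PK k))).symm i)
            rw [← hq]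
            show z2b (X _ _) = z2b (X' _ _)
            rw [hX]
      refine (Finset.expect_le_expect fun Y _ => h2 Y).trans ?_
      rw [Fintype.expect_const]
    refine (Finset.expect_le_expect fun s _ => h1 s).trans ?_
    rw [Fintype.expect_const]
  have h3 := abs_sub_le (𝔼 s : Str (protocol.coinS k), 𝔼 Y : Mat (MM k + 1) (ll k),
        𝔼 a : Fin (MM k + 1) → (Fin (ll k) → Bool), 𝔼 X : Mat (MM k + 1) (ll k),
        ind (D.eval (Sum.elim s (fstM false a X Y)))) U
    (𝔼 s : Str (protocol.coinS k), 𝔼 Y : Mat (MM k + 1) (ll k),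
        𝔼 a : Fin (MM k + 1) → (Fin (ll k) → Bool), 𝔼 X : Mat (MM k + 1) (ll k),
        ind (D.eval (Sum.elim s (fstM true a X Y))))
  rw [abs_sub_comm U] at h3
  linarith

end Pool.Agent.W961
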