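import Mathlib
import Pool.Agent.W961.OtSec

namespace Pool.Agent.W961

open Finset DomAC0 H568R2 AC0World
open scoped BigOperators

set_option synthInstance.maxSize 2000

/-- index set of the coins of the simulator -/
abbrev IM (k : ℕ) : Type := IR k ⊕ (AK k ⊕ PK k)

/-- the receiver coins made by the simulator -/
noncomputable def mR {k : ℕ} (ω : Fin (Fintype.card (IM k)) → Bool) :
    Fin (Fintype.card (IR k)) → Bool := wr (fun i => rd ω (Sum.inl i))
/-- the row addresses made by the simulator -/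
noncomputable def mC {k : ℕ} (ω : Fin (Fintype.card (IM k)) → Bool) :
    Fin (MM k + 1) → (Fin (ll k) → Bool) := addr (fun i => rd ω (Sum.inr (Sum.inl i)))
/-- the uniform vector of the simulator -/
noncomputable def mU {k : ℕ} (ω : Fin (Fintype.card (IM k)) → Bool) : Vec (MM k + 1) (ll k) :=
  vec (fun i => rd ω (Sum.inr (Sum.inr i)))

/-- the second message of the simulator -/
noncomputable def simY {k : ℕ} (c b : Bool) (a : Fin (MM k + 1) → (Fin (ll k) → Bool))
    (X : Mat (MM k + 1) (ll k)) (s : Fin (MM k + 1) → (Fin (ll k) → Bool))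
    (u : Vec (MM k + 1) (ll k)) : Fin (Fintype.card (PK k ⊕ PK k)) → Bool :=
  if c then msgY u (encZ 0 b (fixup 0 a 0 X) s) else msgY (encZ 0 b (fixup 0 a 0 X) s) u

/-- The simulator. -/
noncomputable def simul (k : ℕ) (c b : Bool) (ω : Fin (Fintype.card (IM k)) → Bool) :
    Fin (protocol.coinR k) ⊕ Fin (protocol.lenY k) → Bool :=
  Sum.elim (mR ω) (simY c b (rA (mR ω)) (rX (mR ω)) (mC ω) (mU ω))

lemma simul_circ (k : ℕ) (c b : Bool) (i : Fin (protocol.coinR k) ⊕ Fin (protocol.lenY k)) :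
    Cir (sz2 (MM k + 1) (ll k)) 11 (fun x => simul k c b x i) := by
  have hsim : ∀ p : PK k, Cir (sz2 (MM k + 1) (ll k)) 11
      (fun x : Fin (Fintype.card (IM k)) → Bool =>
      bitsV (encZ 0 b (fixup 0 (rA (mR x)) 0 (rX (mR x))) (mC x)) p) := fun p =>
    (Cir.simBit (m := MM k + 1) (ℓ := ll k) 0 b
      (fun i => cd (IM k) (Sum.inl (Sum.inl i)))
      (fun i => cd (IM k) (Sum.inr (Sum.inl i)))
      (fun i => cd (IM k) (Sum.inl (Sum.inr (Sum.inl i)))) p).congr (fun x => by
        have h1 : ∀ j : IR k, rd (mR x) j = x (cd (IM k) (Sum.inl j)) := by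
          intro j
          unfold mR
          rw [rd_wr]; rfl
        have h2 : rA (mR x) = addr (fun i => x (cd (IM k) (Sum.inl (Sum.inl i)))) := by
          unfold rA
          congr 1
          funext i
          rw [h1]
        have h3 : rX (mR x) = mat (fun i => x (cd (IM k) (Sum.inl (Sum.inr (Sum.inl i))))) := by
          unfold rX
          congr 1
          funext i
          rw [h1]
        rw [h2, h3]
        rfl)
  have huni : ∀ p : PK k, Cir (sz2 (MM k + 1) (ll k)) 11
      (fun x : Fin (Fintype.card (IM k)) → Bool => bitsV (mU x) p) := fun p =>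
    ((Cir.var (cd (IM k) (Sum.inr (Sum.inr p)))).mono (Nat.zero_le _)
      (Nat.zero_le _)).congr (fun x => by
        show _ = z2b (b2z _)
        rw [z2b_b2z]; rfl)
  cases i with
  | inl i =>
    refine ((Cir.var (cd (IM k) (Sum.inl ((cd (IR k)).symm i)))).mono (Nat.zero_le _)
      (Nat.zero_le _)).congr (fun x => rfl)
  | inr i =>
    obtain ⟨q, hq⟩ : ∃ q, q = (cd (PK k ⊕ PK k)).symm i := ⟨_, rfl⟩
    cases c with
    | false =>
      cases q with
      | inl p =>
        refine (hsim p).congr (fun x => ?_)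
        show _ = Sum.elim _ _ ((cd (PK k ⊕ PK k)).symm i)
        rw [← hq]; rfl
      | inr p =>
        refine (huni p).congr (fun x => ?_)
        show _ = Sum.elim _ _ ((cd (PK k ⊕ PK k)).symm i)
        rw [← hq]; rfl
    | true =>
      cases q with
      | inl p =>
        refine (huni p).congr (fun x => ?_)
        show _ = Sum.elim _ _ ((cd (PK k ⊕ PK k)).symm i)
        rw [← hq]; rfl
      | inr p =>
        refine (hsim p).congr (fun x => ?_)
        show _ = Sum.elim _ _ ((cd (PK k ⊕ PK k)).symm i)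
        rw [← hq]; rfl

lemma card_IM (k : ℕ) : Fintype.card (IM k) ≤ 14 * (k + 1) ^ 4 := by
  have hs1 : Fintype.card (IM k) = Fintype.card (IR k) + Fintype.card (AK k ⊕ PK k) :=
    Fintype.card_sum
  have hs2 : Fintype.card (AK k ⊕ PK k) = Fintype.card (AK k) + Fintype.card (PK k) :=
    Fintype.card_sum
  have h0 := card_IR k
  have h1 : Fintype.card (AK k) ≤ 2 * (k + 1) ^ 2 := Ad_bound k
  have h2 : Fintype.card (PK k) ≤ 2 * (k + 1) ^ 2 := Pt_bound k
  have h4 : (k + 1) ^ 2 ≤ (k + 1) ^ 4 := Nat.pow_le_pow_right (by omega) (by norm_num)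
  omega

lemma card_view (k : ℕ) : Fintype.card (Fin (protocol.coinR k) ⊕ Fin (protocol.lenY k)) ≤
    14 * (k + 1) ^ 4 := by
  show Fintype.card (Fin (Fintype.card (IR k)) ⊕ Fin (Fintype.card (PK k ⊕ PK k))) ≤ _
  rw [Fintype.card_sum, Fintype.card_fin, Fintype.card_fin]
  have h1 := card_IR k
  have h2 := card_Y k
  omega

lemma simul_efficient (c b : Bool) :
    InAC0 (fun k (x : Str (Fintype.card (IM k))) => simul k c b x) := by
  obtain ⟨e, he⟩ := poly_bound 5000 8
  have b0 : ∀ k : ℕ, (k + 1) ^ 4 ≤ (k + 1) ^ 8 := fun k =>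
    Nat.pow_le_pow_right (by omega) (by norm_num)
  refine ⟨11, e, fun k => ⟨?_, ?_, fun i => ?_⟩⟩
  · show Fintype.card (Fin (Fintype.card (IM k))) ≤ _
    rw [Fintype.card_fin]
    have h1 := card_IM k
    have h2 := he k
    have h3 := b0 k
    omega
  · show Fintype.card (Fin (protocol.coinR k) ⊕ Fin (protocol.lenY k)) ≤ _
    have h1 := card_view k
    have h2 := he k
    have h3 := b0 k
    omega
  · obtain ⟨C, h1, h2, h3⟩ := simul_circ k c b i
    exact ⟨C, h2, h1.trans ((sz2_bound k).trans (he k)), h3⟩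

/-- the receiver coins with given parts -/
noncomputable def coR {k : ℕ} (a : Fin (MM k + 1) → (Fin (ll k) → Bool))
    (X Y : Mat (MM k + 1) (ll k)) : Fin (Fintype.card (IR k)) → Bool := (eR k).symm (a, (X, Y))

/-- the real second message -/
noncomputable def realY {k : ℕ} (c b₀ b₁ : Bool) (a : Fin (MM k + 1) → (Fin (ll k) → Bool))
    (X Y : Mat (MM k + 1) (ll k)) (s₀ s₁ : Fin (MM k + 1) → (Fin (ll k) → Bool)) :
    Fin (Fintype.card (PK k ⊕ PK k)) → Bool :=
  if c then msgY (encZ 0 b₀ Y s₀) (encZ 0 b₁ (fixup 0 a 0 X) s₁)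
  else msgY (encZ 0 b₀ (fixup 0 a 0 X) s₀) (encZ 0 b₁ Y s₁)

lemma receiverView_prob (c b₀ b₁ : Bool) (k : ℕ)
    (D : Circuit (Fin (protocol.coinR k) ⊕ Fin (protocol.lenY k))) :
    Pr (fun ω => D.eval (protocol.receiverView c b₀ b₁ k ω)) =
      𝔼 a : Fin (MM k + 1) → (Fin (ll k) → Bool), 𝔼 X : Mat (MM k + 1) (ll k),
        𝔼 Y : Mat (MM k + 1) (ll k), 𝔼 s₀ : Fin (MM k + 1) → (Fin (ll k) → Bool),
        𝔼 s₁ : Fin (MM k + 1) → (Fin (ll k) → Bool),
        ind (D.eval (Sum.elim (coR a X Y) (realY c b₀ b₁ a X Y s₀ s₁))) := by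
  rw [Pr_eq]
  have h1 : 𝔼 ω : Str (protocol.coinR k) × Str (protocol.coinS k),
      ind (D.eval (protocol.receiverView c b₀ b₁ k ω)) =
      𝔼 q : ((Fin (MM k + 1) → (Fin (ll k) → Bool)) ×
        (Mat (MM k + 1) (ll k) × Mat (MM k + 1) (ll k))) ×
        ((Fin (MM k + 1) → (Fin (ll k) → Bool)) × (Fin (MM k + 1) → (Fin (ll k) → Bool))),
        ind (D.eval (Sum.elim (coR q.1.1 q.1.2.1 q.1.2.2)
          (realY c b₀ b₁ q.1.1 q.1.2.1 q.1.2.2 q.2.1 q.2.2))) := by
    apply Fintype.expect_equiv (e := Equiv.prodCongr (eR k) (eS k))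
    rintro ⟨r, s⟩
    congr 2
    have h2 : coR ((Equiv.prodCongr (eR k) (eS k)) (r, s)).1.1
        ((Equiv.prodCongr (eR k) (eS k)) (r, s)).1.2.1
        ((Equiv.prodCongr (eR k) (eS k)) (r, s)).1.2.2 = r := by
      unfold coR
      exact (eR k).symm_apply_apply r
    rw [h2]
    show Sum.elim r (protocol.snd k b₀ b₁ s (protocol.fst k c r)) = _
    congr 1
    cases c with
    | false =>
      show msgY (encZ 0 b₀ (mat (fun i => rd (msgX (fixup 0 (rA r) 0 (rX r)) (rY r))
        (Sum.inl i))) (addr (fun i => rd s (Sum.inl i))))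
        (encZ 0 b₁ (mat (fun i => rd (msgX (fixup 0 (rA r) 0 (rX r)) (rY r))
        (Sum.inr i))) (addr (fun i => rd s (Sum.inr i)))) = _
      rw [mat_msgX_inl, mat_msgX_inr]
      rfl
    | true =>
      show msgY (encZ 0 b₀ (mat (fun i => rd (msgX (rY r) (fixup 0 (rA r) 0 (rX r)))
        (Sum.inl i))) (addr (fun i => rd s (Sum.inl i))))
        (encZ 0 b₁ (mat (fun i => rd (msgX (rY r) (fixup 0 (rA r) 0 (rX r)))
        (Sum.inr i))) (addr (fun i => rd s (Sum.inr i)))) = _
      rw [mat_msgX_inl, mat_msgX_inr]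
      rfl
  rw [h1, ← Finset.univ_product_univ, Finset.expect_product, ← Finset.univ_product_univ,
    Finset.expect_product]
  refine Finset.expect_congr rfl fun a _ => ?_
  rw [← Finset.univ_product_univ, Finset.expect_product]
  refine Finset.expect_congr rfl fun X _ => Finset.expect_congr rfl fun Y _ => ?_
  rw [← Finset.univ_product_univ, Finset.expect_product]

/-- simulator coins -/
noncomputable def eM (k : ℕ) : (Fin (Fintype.card (IM k)) → Bool) ≃
    ((Fin (MM k + 1) → (Fin (ll k) → Bool)) ×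
      (Mat (MM k + 1) (ll k) × Mat (MM k + 1) (ll k))) ×
    ((Fin (MM k + 1) → (Fin (ll k) → Bool)) × Vec (MM k + 1) (ll k)) where
  toFun ω := (eR k (mR ω), (mC ω, mU ω))
  invFun p := wr (Sum.elim (rd ((eR k).symm p.1)) (Sum.elim (fun i : AK k => p.2.1 i.1 i.2)
    (bitsV p.2.2)))
  left_inv ω := by
    have : Sum.elim (rd ((eR k).symm (eR k (mR ω)))) (Sum.elim (fun i : AK k => mC ω i.1 i.2)
        (bitsV (mU ω))) = rd ω := by
      rw [Equiv.symm_apply_apply]
      unfold mU mR
      rw [bitsV_vec, rd_wr]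
      funext i
      rcases i with i | i | i <;> rfl
    show wr (Sum.elim (rd ((eR k).symm (eR k (mR ω)))) (Sum.elim (fun i : AK k => mC ω i.1 i.2)
        (bitsV (mU ω)))) = ω
    rw [this, wr_rd]
  right_inv p := by
    obtain ⟨q, c, u⟩ := p
    have h1 : mR (wr (Sum.elim (rd ((eR k).symm q)) (Sum.elim (fun i : AK k => c i.1 i.2)
        (bitsV u)))) = (eR k).symm q := by
      unfold mR
      rw [rd_wr]
      simp only [Sum.elim_inl]
      exact wr_rd _
    have h2 : mC (wr (Sum.elim (rd ((eR k).symm q)) (Sum.elim (fun i : AK k => c i.1 i.2)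
        (bitsV u)))) = c := by
      unfold mC
      rw [rd_wr]
      rfl
    have h3 : mU (wr (Sum.elim (rd ((eR k).symm q)) (Sum.elim (fun i : AK k => c i.1 i.2)
        (bitsV u)))) = u := by
      unfold mU
      rw [rd_wr]
      exact vec_bitsV u
    show (eR k (mR (wr (Sum.elim (rd ((eR k).symm q)) (Sum.elim (fun i : AK k => c i.1 i.2)
        (bitsV u))))), (mC (wr (Sum.elim (rd ((eR k).symm q))
        (Sum.elim (fun i : AK k => c i.1 i.2) (bitsV u)))), mU (wr (Sum.elim
        (rd ((eR k).symm q)) (Sum.elim (fun i : AK k => c i.1 i.2) (bitsV u)))))) = (q, c, u)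
    rw [h1, h2, h3, Equiv.apply_symm_apply]

lemma sim_prob (c b : Bool) (k : ℕ)
    (D : Circuit (Fin (protocol.coinR k) ⊕ Fin (protocol.lenY k))) :
    Pr (fun ω => D.eval (simul k c b ω)) =
      𝔼 a : Fin (MM k + 1) → (Fin (ll k) → Bool), 𝔼 X : Mat (MM k + 1) (ll k),
        𝔼 Y : Mat (MM k + 1) (ll k), 𝔼 s : Fin (MM k + 1) → (Fin (ll k) → Bool),
        𝔼 u : Vec (MM k + 1) (ll k),
        ind (D.eval (Sum.elim (coR a X Y) (simY c b a X s u))) := by
  rw [Pr_eq]
  have h1 : 𝔼 ω : Fin (Fintype.card (IM k)) → Bool, ind (D.eval (simul k c b ω)) =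
      𝔼 q : ((Fin (MM k + 1) → (Fin (ll k) → Bool)) ×
        (Mat (MM k + 1) (ll k) × Mat (MM k + 1) (ll k))) ×
        ((Fin (MM k + 1) → (Fin (ll k) → Bool)) × Vec (MM k + 1) (ll k)),
        ind (D.eval (Sum.elim (coR q.1.1 q.1.2.1 q.1.2.2)
          (simY c b q.1.1 q.1.2.1 q.2.1 q.2.2))) := by
    apply Fintype.expect_equiv (e := eM k)
    intro ω
    congr 2
    have h2 : coR (eM k ω).1.1 (eM k ω).1.2.1 (eM k ω).1.2.2 = mR ω := by
      unfold coR
      exact (eR k).symm_apply_apply (mR ω)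
    rw [h2]
    rfl
  rw [h1, ← Finset.univ_product_univ, Finset.expect_product, ← Finset.univ_product_univ,
    Finset.expect_product]
  refine Finset.expect_congr rfl fun a _ => ?_
  rw [← Finset.univ_product_univ, Finset.expect_product]
  refine Finset.expect_congr rfl fun X _ => Finset.expect_congr rfl fun Y _ => ?_
  rw [← Finset.univ_product_univ, Finset.expect_product]

end Pool.Agent.W961
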