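import Mathlib
import Pool.Agent.W961.OtSend

namespace Pool.Agent.W961

open Finset DomAC0 H568R2 AC0World
open scoped BigOperators

set_option synthInstance.maxSize 2000

lemma coR_dep {k : ℕ} (a : Fin (MM k + 1) → (Fin (ll k) → Bool)) (X : Mat (MM k + 1) (ll k))
    (i : Fin (Fintype.card (IR k))) : ∃ s, ∀ Y Y' : Mat (MM k + 1) (ll k),
      (∀ t, Y t s = Y' t s) → coR a X Y i = coR a X Y' i := by
  obtain ⟨q, hq⟩ : ∃ q, q = (cd (IR k)).symm i := ⟨_, rfl⟩
  rcases q with q | q | q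
  · refine ⟨(0, fun _ => false), fun Y Y' _ => ?_⟩
    show Sum.elim (fun i : AK k => a i.1 i.2) (Sum.elim (bitsM X) (bitsM Y)) ((cd (IR k)).symm i) =
      Sum.elim (fun i : AK k => a i.1 i.2) (Sum.elim (bitsM X) (bitsM Y')) ((cd (IR k)).symm i)
    rw [← hq]; rfl
  · refine ⟨(0, fun _ => false), fun Y Y' _ => ?_⟩
    show Sum.elim (fun i : AK k => a i.1 i.2) (Sum.elim (bitsM X) (bitsM Y)) ((cd (IR k)).symm i) =
      Sum.elim (fun i : AK k => a i.1 i.2) (Sum.elim (bitsM X) (bitsM Y')) ((cd (IR k)).symm i)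
    rw [← hq]; rfl
  · refine ⟨q.2, fun Y Y' hY => ?_⟩
    show Sum.elim (fun i : AK k => a i.1 i.2) (Sum.elim (bitsM X) (bitsM Y)) ((cd (IR k)).symm i) =
      Sum.elim (fun i : AK k => a i.1 i.2) (Sum.elim (bitsM X) (bitsM Y')) ((cd (IR k)).symm i)
    rw [← hq]
    show z2b (Y _ _) = z2b (Y' _ _)
    rw [hY]

/-- the row argument for the second pad -/
lemma row_view {d k : ℕ} (hm : 200 ≤ MM k + 1) (hthr : thr (MM k + 1) ≤ 2 ^ ll k)
    (D : Circuit (Fin (protocol.coinR k) ⊕ Fin (protocol.lenY k)))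
    (hd : D.depth ≤ MM k + 1) (hs : D.size ≤ (2 ^ ll k) ^ ((MM k + 1) / 200))
    (hj : Fintype.card (Fin (protocol.coinR k) ⊕ Fin (protocol.lenY k)) ≤
      (2 ^ ll k) ^ ((MM k + 1) / 200))
    (a : Fin (MM k + 1) → (Fin (ll k) → Bool)) (X : Mat (MM k + 1) (ll k)) (b : Bool)
    (g : Vec (MM k + 1) (ll k) → Fin (Fintype.card (PK k ⊕ PK k)) → Bool) :
    |𝔼 s : Fin (MM k + 1) → (Fin (ll k) → Bool), 𝔼 Y : Mat (MM k + 1) (ll k),
        ind (D.eval (Sum.elim (coR a X Y) (g (encZ 0 b Y s)))) -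
      𝔼 Y : Mat (MM k + 1) (ll k), 𝔼 u : Vec (MM k + 1) (ll k),
        ind (D.eval (Sum.elim (coR a X Y) (g u)))| ≤ dl (MM k + 1) (ll k) := by
  apply row_hide hm hthr D (fun Y u => Sum.elim (coR a X Y) (g u)) _ hd hs hj 0 (msgV 0 b)
  intro u j
  cases j with
  | inl i =>
    obtain ⟨s, hs⟩ := coR_dep a X i
    exact ⟨s, fun Y Y' hY => hs Y Y' hY⟩
  | inr i => exact ⟨(0, fun _ => false), fun Y Y' _ => rfl⟩

lemma avg_le {ι : Type} [Fintype ι] [Nonempty ι] (f g : ι → ℝ) (B : ℝ)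
    (h : ∀ i, |f i - g i| ≤ B) : |𝔼 i, f i - 𝔼 i, g i| ≤ B := by
  rw [← Finset.expect_sub_distrib]
  refine (Finset.abs_expect_le _ _).trans ?_
  refine (Finset.expect_le_expect fun i _ => h i).trans ?_
  rw [Fintype.expect_const]

theorem protocol_senderPrivate : protocol.SenderPrivate := by
  refine ⟨fun k => Fintype.card (IM k), simul, simul_efficient, ?_⟩
  intro c b₀ b₁ d e p
  filter_upwards [eventually_good d (max e 4) p 14] with k hk D hD1 hD2
  obtain ⟨hs1, hs2, hdl⟩ := good_params (e := e) hk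
  obtain ⟨hm, hthr, hd, _, _⟩ := hk
  have hsize := hs1 _ hD2
  have hJ := hs2 _ (card_view k)
  have hdl0 : 0 ≤ dl (MM k + 1) (ll k) := by unfold dl; positivity
  rw [receiverView_prob, sim_prob]
  refine le_trans ?_ hdl
  refine le_trans ?_ (by linarith : dl (MM k + 1) (ll k) ≤ 2 * dl (MM k + 1) (ll k))
  apply avg_le
  intro a
  apply avg_le
  intro X
  cases c with
  | false =>
    have h1 : 𝔼 Y : Mat (MM k + 1) (ll k), 𝔼 s₀ : Fin (MM k + 1) → (Fin (ll k) → Bool),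
        𝔼 s₁ : Fin (MM k + 1) → (Fin (ll k) → Bool),
        ind (D.eval (Sum.elim (coR a X Y) (realY false b₀ b₁ a X Y s₀ s₁))) =
        𝔼 s₀ : Fin (MM k + 1) → (Fin (ll k) → Bool),
        𝔼 s₁ : Fin (MM k + 1) → (Fin (ll k) → Bool), 𝔼 Y : Mat (MM k + 1) (ll k),
        ind (D.eval (Sum.elim (coR a X Y) (realY false b₀ b₁ a X Y s₀ s₁))) := by
      rw [Finset.expect_comm]
      refine Finset.expect_congr rfl fun s _ => ?_
      rw [Finset.expect_comm]
    have h2 : 𝔼 Y : Mat (MM k + 1) (ll k), 𝔼 s : Fin (MM k + 1) → (Fin (ll k) → Bool),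
        𝔼 u : Vec (MM k + 1) (ll k),
        ind (D.eval (Sum.elim (coR a X Y) (simY false (if false = true then b₁ else b₀)
          a X s u))) =
        𝔼 s : Fin (MM k + 1) → (Fin (ll k) → Bool), 𝔼 Y : Mat (MM k + 1) (ll k),
        𝔼 u : Vec (MM k + 1) (ll k),
        ind (D.eval (Sum.elim (coR a X Y) (simY false (if false = true then b₁ else b₀)
          a X s u))) := by
      rw [Finset.expect_comm]
    rw [h1, h2]
    apply avg_le
    intro s
    exact row_view (d := d) hm hthr D (hD1.trans hd) hsize hJ a X b₁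
      (fun u => msgY (encZ 0 b₀ (fixup 0 a 0 X) s) u)
  | true =>
    have h1 : 𝔼 Y : Mat (MM k + 1) (ll k), 𝔼 s₀ : Fin (MM k + 1) → (Fin (ll k) → Bool),
        𝔼 s₁ : Fin (MM k + 1) → (Fin (ll k) → Bool),
        ind (D.eval (Sum.elim (coR a X Y) (realY true b₀ b₁ a X Y s₀ s₁))) =
        𝔼 s₁ : Fin (MM k + 1) → (Fin (ll k) → Bool),
        𝔼 s₀ : Fin (MM k + 1) → (Fin (ll k) → Bool), 𝔼 Y : Mat (MM k + 1) (ll k),
        ind (D.eval (Sum.elim (coR a X Y) (realY true b₀ b₁ a X Y s₀ s₁))) := by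
      rw [Finset.expect_comm]
      have h3 : ∀ s₀ : Fin (MM k + 1) → (Fin (ll k) → Bool),
          𝔼 Y : Mat (MM k + 1) (ll k), 𝔼 s₁ : Fin (MM k + 1) → (Fin (ll k) → Bool),
          ind (D.eval (Sum.elim (coR a X Y) (realY true b₀ b₁ a X Y s₀ s₁))) =
          𝔼 s₁ : Fin (MM k + 1) → (Fin (ll k) → Bool), 𝔼 Y : Mat (MM k + 1) (ll k),
          ind (D.eval (Sum.elim (coR a X Y) (realY true b₀ b₁ a X Y s₀ s₁))) := by
        intro s₀
        rw [Finset.expect_comm]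
      rw [Finset.expect_congr rfl fun s₀ _ => h3 s₀, Finset.expect_comm]
    have h2 : 𝔼 Y : Mat (MM k + 1) (ll k), 𝔼 s : Fin (MM k + 1) → (Fin (ll k) → Bool),
        𝔼 u : Vec (MM k + 1) (ll k),
        ind (D.eval (Sum.elim (coR a X Y) (simY true (if true = true then b₁ else b₀)
          a X s u))) =
        𝔼 s : Fin (MM k + 1) → (Fin (ll k) → Bool), 𝔼 Y : Mat (MM k + 1) (ll k),
        𝔼 u : Vec (MM k + 1) (ll k),
        ind (D.eval (Sum.elim (coR a X Y) (simY true (if true = true then b₁ else b₀)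
          a X s u))) := by
      rw [Finset.expect_comm]
    rw [h1, h2]
    apply avg_le
    intro s
    exact row_view (d := d) hm hthr D (hD1.trans hd) hsize hJ a X b₀
      (fun u => msgY u (encZ 0 b₁ (fixup 0 a 0 X) s))

end Pool.Agent.W961
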